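import Pool.Agent.ICL.StmtsP

/-!
# Extremal polygons have equal edges (MP_fa01f0_gt), module EQE
-/

set_option autoImplicit false

namespace Pool.Agent.ICL

namespace M_EQE

theorem ne_one {n : ℕ} [NeZero n] (hn : 3 ≤ n) (k : Fin n) : k ≠ k + 1 := by
  intro e
  have h0 : (1 : Fin n) = 0 := by
    have := e.symm
    rwa [add_eq_left] at this
  have h1 := congrArg Fin.val h0
  rw [Fin.val_one', Fin.val_zero, Nat.mod_eq_of_lt (by omega)] at h1
  omega

theorem ne_two {n : ℕ} [NeZero n] (hn : 3 ≤ n) (k : Fin n) : k ≠ k + 1 + 1 := by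
  intro e
  have h0 : (1 + 1 : Fin n) = 0 := by
    have := e.symm
    rwa [add_assoc, add_eq_left] at this
  have h1 := congrArg Fin.val h0
  rw [Fin.val_add, Fin.val_one', Fin.val_zero, Nat.mod_eq_of_lt (show 1 < n by omega),
    Nat.mod_eq_of_lt (show 1 + 1 < n by omega)] at h1
  omega

theorem sum_two {n : ℕ} (f g : Fin n → ℝ) (a b : Fin n) (hab : a ≠ b)
    (h : ∀ j, j ≠ a → j ≠ b → f j = g j) :
    ∑ j, f j = ∑ j, g j + ((f a - g a) + (f b - g b)) := by
  have h1 : ∑ j, (f j - g j) = ∑ j ∈ ({a, b} : Finset (Fin n)), (f j - g j) := by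
    symm
    apply Finset.sum_subset (Finset.subset_univ _)
    intro j _ hj
    rw [Finset.mem_insert, Finset.mem_singleton] at hj
    push Not at hj
    rw [h j hj.1 hj.2, sub_self]
  rw [Finset.sum_pair hab, Finset.sum_sub_distrib] at h1
  linarith

end M_EQE

open M_EQE in
theorem t_EQE : Stmt_EQE := by
  intro hgeo n _ hn x y hex k
  by_contra hne
  obtain ⟨hP, hF, hQ⟩ := hex
  have d01 := ne_one hn k
  have d12 := ne_one hn (k + 1)
  have d02 := ne_two hn k
  obtain ⟨u, v, h1, h2, h3⟩ := hgeo (x k) (y k) (x (k + 1 + 1)) (y (k + 1 + 1)) (x (k + 1)) (y (k + 1))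
    _ _ rfl rfl hne
  have s1 := Real.sq_sqrt (show 0 ≤ (x (k + 1) - x k) ^ 2 + (y (k + 1) - y k) ^ 2 by positivity)
  have s2 := Real.sq_sqrt (show 0 ≤ (x (k + 1 + 1) - x (k + 1)) ^ 2
    + (y (k + 1 + 1) - y (k + 1)) ^ 2 by positivity)
  rw [s1, s2] at h2
  have ux : ∀ j, j ≠ k + 1 → Function.update x (k + 1) u j = x j := fun j hj => by
    rw [Function.update_of_ne hj]
  have uy : ∀ j, j ≠ k + 1 → Function.update y (k + 1) v j = y j := fun j hj => by
    rw [Function.update_of_ne hj]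
  have ux1 : Function.update x (k + 1) u (k + 1) = u := Function.update_self _ _ _
  have uy1 : Function.update y (k + 1) v (k + 1) = v := Function.update_self _ _ _
  have nx : ∀ j : Fin n, j ≠ k → j + 1 ≠ k + 1 := fun j hj h => hj (add_right_cancel h)
  set x' := Function.update x (k + 1) u with hx'
  set y' := Function.update y (k + 1) v with hy'
  have eP : Pe x' y' = Pe x y := by
    unfold Pe
    rw [sum_two (fun j => Real.sqrt ((x' (j + 1) - x' j) ^ 2 + (y' (j + 1) - y' j) ^ 2))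
      (fun j => Real.sqrt ((x (j + 1) - x j) ^ 2 + (y (j + 1) - y j) ^ 2)) k (k + 1) d01
      (fun j ha hb => by
        simp only [ux j hb, uy j hb, ux (j + 1) (nx j ha), uy (j + 1) (nx j ha)])]
    simp only [ux k d01, uy k d01, ux1, uy1, ux (k + 1 + 1) d12.symm, uy (k + 1 + 1) d12.symm]
    linarith
  have eQ : Qe x' y' < Qe x y := by
    unfold Qe
    rw [sum_two (fun j => (x' (j + 1) - x' j) ^ 2 + (y' (j + 1) - y' j) ^ 2)
      (fun j => (x (j + 1) - x j) ^ 2 + (y (j + 1) - y j) ^ 2) k (k + 1) d01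
      (fun j ha hb => by
        simp only [ux j hb, uy j hb, ux (j + 1) (nx j ha), uy (j + 1) (nx j ha)])]
    simp only [ux k d01, uy k d01, ux1, uy1, ux (k + 1 + 1) d12.symm, uy (k + 1 + 1) d12.symm]
    linarith
  have eF : Fa x y ≤ Fa x' y' := by
    unfold Fa
    rw [sum_two (fun j => x' j * y' (j + 1) - x' (j + 1) * y' j)
      (fun j => x j * y (j + 1) - x (j + 1) * y j) k (k + 1) d01
      (fun j ha hb => by
        simp only [ux j hb, uy j hb, ux (j + 1) (nx j ha), uy (j + 1) (nx j ha)])]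
    simp only [ux k d01, uy k d01, ux1, uy1, ux (k + 1 + 1) d12.symm, uy (k + 1 + 1) d12.symm]
    nlinarith [h3]
  have hP' : Pe x' y' ≤ 1 := by rw [eP]; exact hP
  have e2 : Fa x' y' = Fa x y := le_antisymm (hF x' y' hP') eF
  exact absurd (hQ x' y' hP' e2) (not_le.2 eQ)

end Pool.Agent.ICL
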