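import Pool.Agent.ICL.StmtsP

/-!
# From the isoperimetric inequality with squares to the one with the perimeter
-/

set_option autoImplicit false

namespace Pool.Agent.ICL

namespace M_MAX

variable {n : ℕ} [NeZero n]

theorem const_of_succ {α : Type*} (f : Fin n → α) (h : ∀ k, f (k + 1) = f k) (k : Fin n) :
    f k = f 0 := by
  have key : ∀ m : ℕ, f (Fin.ofNat n m) = f 0 := by
    intro m
    induction m with
    | zero => rfl
    | succ m ih =>
      have h1 : Fin.ofNat n (m + 1) = Fin.ofNat n m + 1 := by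
        apply Fin.ext
        rw [Fin.val_add]
        simp [Fin.ofNat, Nat.add_mod]
      rw [h1, h, ih]
  have h2 := key k.val
  have h3 : Fin.ofNat n k.val = k := by
    apply Fin.ext
    simp [Fin.ofNat, Nat.mod_eq_of_lt k.isLt]
  rw [h3] at h2
  exact h2

theorem Fa_smul (s : ℝ) (x y : Fin n → ℝ) :
    Fa (fun k => s * x k) (fun k => s * y k) = s ^ 2 * Fa x y := by
  unfold Fa
  have : ∀ k : Fin n, s * x k * (s * y (k + 1)) - s * x (k + 1) * (s * y k)
      = s ^ 2 * (x k * y (k + 1) - x (k + 1) * y k) := fun k => by ring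
  simp only [this]
  rw [← Finset.mul_sum]
  ring

theorem Pe_smul (s : ℝ) (hs : 0 ≤ s) (x y : Fin n → ℝ) :
    Pe (fun k => s * x k) (fun k => s * y k) = s * Pe x y := by
  unfold Pe
  have : ∀ k : Fin n, Real.sqrt ((s * x (k + 1) - s * x k) ^ 2 + (s * y (k + 1) - s * y k) ^ 2)
      = s * Real.sqrt ((x (k + 1) - x k) ^ 2 + (y (k + 1) - y k) ^ 2) := fun k => by
    have h1 : (s * x (k + 1) - s * x k) ^ 2 + (s * y (k + 1) - s * y k) ^ 2
        = s ^ 2 * ((x (k + 1) - x k) ^ 2 + (y (k + 1) - y k) ^ 2) := by ring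
    rw [h1, Real.sqrt_mul (sq_nonneg s), Real.sqrt_sq hs]
  simp only [this]
  rw [← Finset.mul_sum]

theorem Pe_nonneg (x y : Fin n → ℝ) : 0 ≤ Pe x y :=
  Finset.sum_nonneg fun _ _ => Real.sqrt_nonneg _

theorem Fa_of_Pe_zero (x y : Fin n → ℝ) (h : Pe x y = 0) : Fa x y = 0 := by
  have h1 : ∀ k : Fin n, Real.sqrt ((x (k + 1) - x k) ^ 2 + (y (k + 1) - y k) ^ 2) = 0 := by
    intro k
    have := (Finset.sum_eq_zero_iff_of_nonneg
      (fun (i : Fin n) (_ : i ∈ Finset.univ) => Real.sqrt_nonneg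
        ((x (i + 1) - x i) ^ 2 + (y (i + 1) - y i) ^ 2))).1 h
    exact this k (Finset.mem_univ k)
  have h2 : ∀ k : Fin n, x (k + 1) = x k ∧ y (k + 1) = y k := by
    intro k
    have h3 := h1 k
    have h4 : (x (k + 1) - x k) ^ 2 + (y (k + 1) - y k) ^ 2 = 0 := by
      have h5 : 0 ≤ (x (k + 1) - x k) ^ 2 + (y (k + 1) - y k) ^ 2 := by positivity
      exact (Real.sqrt_eq_zero h5).1 h3
    constructor
    · nlinarith [sq_nonneg (x (k + 1) - x k), sq_nonneg (y (k + 1) - y k),
        pow_eq_zero_iff (two_ne_zero) |>.1 (show (x (k + 1) - x k) ^ 2 = 0 by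
          nlinarith [sq_nonneg (x (k + 1) - x k), sq_nonneg (y (k + 1) - y k)])]
    · nlinarith [sq_nonneg (x (k + 1) - x k), sq_nonneg (y (k + 1) - y k),
        pow_eq_zero_iff (two_ne_zero) |>.1 (show (y (k + 1) - y k) ^ 2 = 0 by
          nlinarith [sq_nonneg (x (k + 1) - x k), sq_nonneg (y (k + 1) - y k)])]
  unfold Fa
  have h5 : ∀ k : Fin n, x k * y (k + 1) - x (k + 1) * y k = 0 := by
    intro k
    rw [(h2 k).1, (h2 k).2]
    ring
  simp [h5]

end M_MAX

open M_MAX in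
theorem t_MAX : Stmt_MAX := by
  intro hext heq n _ hn t ht hQ x' y'
  obtain ⟨x, y, hE⟩ := hext n
  have hedge := heq n hn x y hE
  obtain ⟨hP1, hmax, -⟩ := hE
  have hn0 : (0 : ℝ) < n := by
    have : 0 < n := by omega
    exact_mod_cast this
  set f : Fin n → ℝ := fun k => Real.sqrt ((x (k + 1) - x k) ^ 2 + (y (k + 1) - y k) ^ 2) with hf
  have hconst : ∀ k, f k = f 0 := const_of_succ f (fun k => (hedge k).symm)
  have hPe : Pe x y = n * f 0 := by
    have : Pe x y = ∑ k, f k := rfl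
    rw [this, Finset.sum_congr rfl (fun k _ => hconst k)]
    simp
  have hQe : Qe x y = n * f 0 ^ 2 := by
    have h1 : Qe x y = ∑ k, f k ^ 2 := by
      unfold Qe
      refine Finset.sum_congr rfl fun k _ => ?_
      rw [hf]
      simp only
      rw [Real.sq_sqrt (by positivity)]
    rw [h1, Finset.sum_congr rfl (fun k _ => by rw [hconst k])]
    simp
  have hF1 : 4 * n * t * Fa x y ≤ 1 := by
    have h1 := hQ x y
    rw [hQe] at h1
    have h2 : 0 ≤ Pe x y := Pe_nonneg x y
    have h3 : (n * f 0) ^ 2 ≤ 1 := by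
      rw [← hPe]
      nlinarith
    nlinarith
  have hF : ∀ x'' y'' : Fin n → ℝ, Pe x'' y'' ≤ 1 → 4 * n * t * Fa x'' y'' ≤ 1 := by
    intro x'' y'' h
    have h1 := hmax x'' y'' h
    have h2 : 0 ≤ 4 * n * t := by positivity
    nlinarith [mul_le_mul_of_nonneg_left h1 h2]
  rcases eq_or_lt_of_le (Pe_nonneg x' y') with h0 | h0
  · rw [Fa_of_Pe_zero x' y' h0.symm]
    nlinarith [sq_nonneg (Pe x' y')]
  · have h1 := hF (fun k => (1 / Pe x' y') * x' k) (fun k => (1 / Pe x' y') * y' k)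
      (by
        rw [Pe_smul _ (by positivity)]
        rw [one_div, inv_mul_cancel₀ h0.ne'])
    rw [Fa_smul] at h1
    have h2 : 4 * n * t * ((1 / Pe x' y') ^ 2 * Fa x' y') = (4 * n * t * Fa x' y') / Pe x' y' ^ 2 := by
      field_simp
    rw [h2, div_le_one (by positivity)] at h1
    exact h1

end Pool.Agent.ICL
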