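import Pool.Agent.ICL.StmtsP

/-!
# SG: the reduced inequality for all signs
-/

set_option autoImplicit false

namespace Pool.Agent.ICL

namespace M_SG

/-- The reduced inequality for given data and all `p q h`. -/
def PP (a b A1 A2 t : ℝ) : Prop :=
  ∀ p q h : ℝ, 27 * g0 * (p * A1 + q * A2 + h * (A1 + A2 + t)) ^ 2
    ≤ 4 * Ag a b A1 A2 (t - A1) (t - A2) p q h ^ 3

theorem ag_nonneg (a b A1 A2 r1 r2 p q h : ℝ) : 0 ≤ Ag a b A1 A2 r1 r2 p q h := by
  unfold Ag
  positivity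

theorem neg {a b A1 A2 t : ℝ} (H : PP a b (-A1) (-A2) (-t)) : PP a b A1 A2 t := by
  intro p q h
  have h1 := H p q h
  have h2 : Ag a b (-A1) (-A2) (-t - -A1) (-t - -A2) p q h = Ag a b A1 A2 (t - A1) (t - A2) p q h := by
    unfold Ag
    have e1 : (-A1) ^ 2 = A1 ^ 2 := by ring
    have e2 : (-A2) ^ 2 = A2 ^ 2 := by ring
    have e3 : (-t - -A1) ^ 2 = (t - A1) ^ 2 := by ring
    have e4 : (-t - -A2) ^ 2 = (t - A2) ^ 2 := by ring
    rw [e1, e2, e3, e4]
  have h3 : (p * -A1 + q * -A2 + h * (-A1 + -A2 + -t)) ^ 2 = (p * A1 + q * A2 + h * (A1 + A2 + t)) ^ 2 := by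
    ring
  rw [h2, h3] at h1
  exact h1

theorem swap {a b A1 A2 t : ℝ} (H : PP b a A2 A1 t) : PP a b A1 A2 t := by
  intro p q h
  have h1 := H q p h
  have h2 : Ag b a A2 A1 (t - A2) (t - A1) q p h = Ag a b A1 A2 (t - A1) (t - A2) p q h := by
    unfold Ag
    ring
  have h3 : (q * A2 + p * A1 + h * (A2 + A1 + t)) ^ 2 = (p * A1 + q * A2 + h * (A1 + A2 + t)) ^ 2 := by
    ring
  rw [h2, h3] at h1
  exact h1

/-- The comparison with nonnegative data. -/
theorem base {a b A1 A2 t X Y M R1 R2 : ℝ} (hg : 0 ≤ g0) (hX : |A1| = X) (hY : |A2| = Y)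
    (hM : |A1 + A2 + t| ≤ M)
    (hR : ∀ h : ℝ, 0 ≤ h → Real.sqrt (R1 ^ 2 + (h * a) ^ 2) + Real.sqrt (R2 ^ 2 + (h * b) ^ 2) ≤
      Real.sqrt ((t - A1) ^ 2 + (h * a) ^ 2) + Real.sqrt ((t - A2) ^ 2 + (h * b) ^ 2))
    (H : Ineq a b X Y M R1 R2) : PP a b A1 A2 t := by
  intro p q h
  have h1 := H |p| |q| |h| (abs_nonneg p) (abs_nonneg q) (abs_nonneg h)
  have hV : |p * A1 + q * A2 + h * (A1 + A2 + t)| ≤ |p| * X + |q| * Y + |h| * M := by
    calc |p * A1 + q * A2 + h * (A1 + A2 + t)| ≤ |p * A1| + |q * A2| + |h * (A1 + A2 + t)| := by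
          refine (abs_add_le _ _).trans ?_
          gcongr
          exact abs_add_le _ _
      _ = |p| * X + |q| * Y + |h| * |A1 + A2 + t| := by rw [abs_mul, abs_mul, abs_mul, hX, hY]
      _ ≤ |p| * X + |q| * Y + |h| * M := by gcongr
  have hV2 : (p * A1 + q * A2 + h * (A1 + A2 + t)) ^ 2 ≤ (|p| * X + |q| * Y + |h| * M) ^ 2 := by
    rw [← sq_abs (p * A1 + q * A2 + h * (A1 + A2 + t))]
    gcongr
  have hA : Ag a b X Y R1 R2 |p| |q| |h| ≤ Ag a b A1 A2 (t - A1) (t - A2) p q h := by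
    unfold Ag
    have e1 : X ^ 2 = A1 ^ 2 := by rw [← hX, sq_abs]
    have e2 : Y ^ 2 = A2 ^ 2 := by rw [← hY, sq_abs]
    have e3 : (|p| * a) ^ 2 = (p * a) ^ 2 := by rw [mul_pow, mul_pow, sq_abs]
    have e4 : (|q| * b) ^ 2 = (q * b) ^ 2 := by rw [mul_pow, mul_pow, sq_abs]
    have e5 : (|h| * a) ^ 2 = (h * a) ^ 2 := by rw [mul_pow, mul_pow, sq_abs]
    have e6 : (|h| * b) ^ 2 = (h * b) ^ 2 := by rw [mul_pow, mul_pow, sq_abs]
    have h7 := hR |h| (abs_nonneg h)
    rw [e5, e6] at h7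
    rw [e1, e2, e3, e4, e5, e6]
    linarith
  have hA3 : Ag a b X Y R1 R2 |p| |q| |h| ^ 3 ≤ Ag a b A1 A2 (t - A1) (t - A2) p q h ^ 3 := by
    have := ag_nonneg a b X Y R1 R2 |p| |q| |h|
    gcongr
  have h8 : 27 * g0 * (p * A1 + q * A2 + h * (A1 + A2 + t)) ^ 2
      ≤ 27 * g0 * (|p| * X + |q| * Y + |h| * M) ^ 2 := by gcongr
  linarith

theorem sqrt_mono {R r c : ℝ} (h : |R| ≤ |r|) : Real.sqrt (R ^ 2 + c) ≤ Real.sqrt (r ^ 2 + c) := by
  refine Real.sqrt_le_sqrt ?_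
  have := sq_le_sq.mpr h
  linarith

/-- The Cauchy inequality in the plane. -/
theorem cauchy (x y x' y' : ℝ) :
    x * x' + y * y' ≤ Real.sqrt (x ^ 2 + y ^ 2) * Real.sqrt (x' ^ 2 + y' ^ 2) := by
  rw [← Real.sqrt_mul (by positivity)]
  refine Real.le_sqrt_of_sq_le ?_
  nlinarith [sq_nonneg (x * y' - y * x')]

/-- The ring terms increase. -/
theorem ring_mono {a b X Y d h : ℝ} (ha : 0 < a) (hb : 0 < b) (hd : 0 ≤ d) (hh : 0 ≤ h) (hY : 0 < Y)
    (hXY : 0 ≤ X * b + Y * a) :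
    Real.sqrt (X ^ 2 + (h * a) ^ 2) + Real.sqrt (Y ^ 2 + (h * b) ^ 2) ≤
      Real.sqrt ((X + d) ^ 2 + (h * a) ^ 2) + Real.sqrt ((Y + d) ^ 2 + (h * b) ^ 2) := by
  rcases le_or_gt 0 X with hX | hX
  · refine add_le_add (sqrt_mono ?_) (sqrt_mono ?_)
    · rw [abs_of_nonneg hX, abs_of_nonneg (by linarith)]; linarith
    · rw [abs_of_pos hY, abs_of_nonneg (by linarith)]; linarith
  · set S := Real.sqrt (X ^ 2 + (h * a) ^ 2) with hS
    set T := Real.sqrt (Y ^ 2 + (h * b) ^ 2) with hT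
    set S' := Real.sqrt ((X + d) ^ 2 + (h * a) ^ 2) with hS'
    set T' := Real.sqrt ((Y + d) ^ 2 + (h * b) ^ 2) with hT'
    have hS0 : 0 < S := Real.sqrt_pos.mpr (by nlinarith [sq_nonneg (h * a)])
    have hT0 : 0 < T := Real.sqrt_pos.mpr (by nlinarith [sq_nonneg (h * b)])
    have hS2 : S ^ 2 = X ^ 2 + (h * a) ^ 2 := Real.sq_sqrt (by positivity)
    have hT2 : T ^ 2 = Y ^ 2 + (h * b) ^ 2 := Real.sq_sqrt (by positivity)
    have c1 : S ^ 2 + d * X ≤ S * S' := by
      have := cauchy X (h * a) (X + d) (h * a)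
      rw [← hS, ← hS'] at this
      rw [hS2]
      linarith
    have c2 : T ^ 2 + d * Y ≤ T * T' := by
      have := cauchy Y (h * b) (Y + d) (h * b)
      rw [← hT, ← hT'] at this
      rw [hT2]
      linarith
    have c3 : 0 ≤ X * T + Y * S := by
      have h1 : -X * T ≤ Y * S := by
        refine abs_le_of_sq_le_sq' ?_ (by positivity) |>.2
        have h2 : (-X * b) ≤ Y * a := by linarith
        have h3 : 0 ≤ -X * b := by
          have := mul_pos (neg_pos.mpr hX) hb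
          linarith
        have h4 : (-X * b) ^ 2 ≤ (Y * a) ^ 2 := by gcongr
        have h5 : (-X * T) ^ 2 = X ^ 2 * (Y ^ 2 + (h * b) ^ 2) := by rw [← hT2]; ring
        have h6 : (Y * S) ^ 2 = Y ^ 2 * (X ^ 2 + (h * a) ^ 2) := by rw [← hS2]; ring
        rw [h5, h6]
        nlinarith [mul_le_mul_of_nonneg_left h4 (sq_nonneg h)]
      linarith
    have c4 : T * (S ^ 2 + d * X) ≤ T * (S * S') := mul_le_mul_of_nonneg_left c1 hT0.le
    have c5 : S * (T ^ 2 + d * Y) ≤ S * (T * T') := mul_le_mul_of_nonneg_left c2 hS0.le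
    have c6 : 0 ≤ d * (X * T + Y * S) := mul_nonneg hd c3
    have c7 : (S * T) * (S + T) ≤ (S * T) * (S' + T') := by nlinarith
    exact le_of_mul_le_mul_left c7 (mul_pos hS0 hT0)

theorem sqrt5_bounds : 2 ≤ Real.sqrt 5 ∧ 0 ≤ Real.sqrt 5 :=
  ⟨Real.le_sqrt_of_sq_le (by norm_num), Real.sqrt_nonneg 5⟩

/-- The mixed signs. -/
theorem core (hNN : NNC) (hMX : MX) (hg : 0 ≤ g0) {a b A1 G t : ℝ} (ha : 0 < a) (hb : 0 < b)
    (hA0 : 0 < A1) (hA : A1 ≤ a ^ 2) (hG0 : 0 < G) (hG : G ≤ b ^ 2) (ht : 0 ≤ t)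
    (h1 : 2 * t * (a * b) + |A1 * b ^ 2 - G * a ^ 2| ≤ 2 * Real.sqrt 5 * (a * b) ^ 2)
    (h2 : t ≤ Real.sqrt 5 * (a * b)) : PP a b A1 (-G) t := by
  obtain ⟨h52, h50⟩ := sqrt5_bounds
  have hab : 0 < a * b := mul_pos ha hb
  have hd1 : A1 * b ^ 2 - G * a ^ 2 ≤ |A1 * b ^ 2 - G * a ^ 2| := le_abs_self _
  have hAb : A1 * b ^ 2 ≤ (a * b) ^ 2 := by
    rw [mul_pow]; exact mul_le_mul_of_nonneg_right hA (sq_nonneg b)
  have hGa : G * a ^ 2 ≤ (a * b) ^ 2 := by
    rw [mul_pow, mul_comm (a ^ 2)]; exact mul_le_mul_of_nonneg_right hG (sq_nonneg a)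
  have hAb0 : 0 ≤ A1 * b ^ 2 := by positivity
  have hGa0 : 0 ≤ G * a ^ 2 := by positivity
  set t0 : ℝ := (Real.sqrt 5 * (a * b) ^ 2 - (A1 * b ^ 2 + G * a ^ 2) / 2) / (a * b) with ht0
  have e0 : t0 * (a * b) + (A1 * b ^ 2 + G * a ^ 2) / 2 = Real.sqrt 5 * (a * b) ^ 2 := by
    rw [ht0, div_mul_cancel₀ _ hab.ne']; ring
  have hlow : a * b ≤ t0 := by
    refine le_of_mul_le_mul_right ?_ hab
    nlinarith
  have habsA : |A1| = A1 := abs_of_pos hA0
  have habsG : |-G| = G := by rw [abs_neg, abs_of_pos hG0]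
  rcases le_or_gt t t0 with hc | hc
  · -- (2a)
    have H := hNN a b A1 G t ha.le hb.le hA0.le hA hG0.le hG ht (by nlinarith) h2
    refine base hg habsA habsG ?_ ?_ H
    · rw [abs_le]; constructor <;> linarith
    · intro h _
      refine add_le_add le_rfl (sqrt_mono ?_)
      rw [sub_neg_eq_add, abs_of_nonneg (by linarith : (0 : ℝ) ≤ t + G), abs_le]
      constructor <;> linarith
  · rcases le_or_gt a (2 * b) with hab2 | hab2
    · -- (2b)
      have ht00 : 0 ≤ t0 := hab.le.trans hlow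
      have H := hNN a b A1 G t0 ha.le hb.le hA0.le hA hG0.le hG ht00 e0.le (hc.le.trans h2)
      have hdiff : t - t0 ≤ 2 * G := by
        have h3 : (t - t0) * b ≤ G * a := by
          have h4 : (t - t0) * b * a ≤ G * a * a := by nlinarith
          exact le_of_mul_le_mul_right h4 ha
        have h5 : (t - t0) * b ≤ 2 * G * b := by nlinarith
        exact le_of_mul_le_mul_right h5 hb
      refine base hg habsA habsG ?_ ?_ H
      · rw [abs_le]; constructor <;> linarith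
      · intro h hh
        have hm := ring_mono (a := a) (b := b) (X := t0 - A1) (Y := t0 + G) (d := t - t0) (h := h) ha hb
          (by linarith) hh (by linarith) (by nlinarith)
        have e1 : t0 - A1 + (t - t0) = t - A1 := by ring
        have e2 : t0 + G + (t - t0) = t - -G := by ring
        rw [e1, e2] at hm
        refine le_trans (add_le_add le_rfl (sqrt_mono ?_)) hm
        rw [abs_of_nonneg (by linarith : (0 : ℝ) ≤ t0 + G), abs_le]
        constructor <;> linarith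
    · -- (2c)
      have H := hMX a b A1 G t hb hab2.le hA0.le hA hG0.le hG (by nlinarith) (by linarith)
      refine base hg habsA habsG ?_ ?_ H
      · rw [abs_le]; constructor <;> linarith
      · intro h _
        rw [sub_neg_eq_add]

end M_SG

open M_SG in
theorem t_SG : Stmt_SG := by
  intro hNN hMX hg a b A1 A2 t ha hb hA1 hA2 h1 h2
  change PP a b A1 A2 t
  rcases le_or_gt 0 (A1 * A2) with hs | hs
  · -- equal signs
    have e1 : |A1 * b ^ 2 + A2 * a ^ 2| = |A1| * b ^ 2 + |A2| * a ^ 2 := by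
      rcases mul_nonneg_iff.mp hs with ⟨h3, h4⟩ | ⟨h3, h4⟩
      · rw [abs_of_nonneg h3, abs_of_nonneg h4, abs_of_nonneg (by positivity)]
      · rw [abs_of_nonpos h3, abs_of_nonpos h4, abs_of_nonpos]
        · ring
        · have := mul_nonneg (neg_nonneg.mpr h3) (sq_nonneg b)
          have := mul_nonneg (neg_nonneg.mpr h4) (sq_nonneg a)
          linarith
    rw [e1] at h1
    have H := hNN a b |A1| |A2| |t| ha hb (abs_nonneg _) hA1 (abs_nonneg _) hA2 (abs_nonneg _)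
      (by linarith) h2
    refine base hg rfl rfl ?_ ?_ H
    · refine (abs_add_le _ _).trans ?_
      gcongr
      exact abs_add_le _ _
    · intro h _
      exact add_le_add (sqrt_mono (abs_abs_sub_abs_le_abs_sub t A1)) (sqrt_mono (abs_abs_sub_abs_le_abs_sub t A2))
  · -- different signs
    have ha0 : 0 < a := by
      rcases ha.lt_or_eq with h3 | h3
      · exact h3
      · exfalso
        rw [← h3] at hA1
        have : A1 = 0 := abs_eq_zero.mp (le_antisymm (by simpa using hA1) (abs_nonneg _))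
        rw [this, zero_mul] at hs
        exact lt_irrefl _ hs
    have hb0 : 0 < b := by
      rcases hb.lt_or_eq with h3 | h3
      · exact h3
      · exfalso
        rw [← h3] at hA2
        have : A2 = 0 := abs_eq_zero.mp (le_antisymm (by simpa using hA2) (abs_nonneg _))
        rw [this, mul_zero] at hs
        exact lt_irrefl _ hs
    -- the core case for nonnegative `t`
    have main : ∀ a b A1 A2 t : ℝ, 0 < a → 0 < b → 0 ≤ t → A1 * A2 < 0 → |A1| ≤ a ^ 2 → |A2| ≤ b ^ 2 →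
        2 * |t| * (a * b) + |A1 * b ^ 2 + A2 * a ^ 2| ≤ 2 * Real.sqrt 5 * (a * b) ^ 2 →
        |t| ≤ Real.sqrt 5 * (a * b) → PP a b A1 A2 t := by
      intro a b A1 A2 t ha hb ht hs hA1 hA2 h1 h2
      rw [abs_of_nonneg ht] at h1 h2
      rcases mul_neg_iff.mp hs with ⟨h3, h4⟩ | ⟨h3, h4⟩
      · rw [abs_of_pos h3] at hA1
        rw [abs_of_neg h4] at hA2
        have := core hNN hMX hg (G := -A2) ha hb h3 hA1 (by linarith) hA2 ht
          (by rw [neg_mul, sub_neg_eq_add]; exact h1) h2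
        rwa [neg_neg] at this
      · rw [abs_of_neg h3] at hA1
        rw [abs_of_pos h4] at hA2
        refine swap ?_
        have := core hNN hMX hg (a := b) (b := a) (A1 := A2) (G := -A1) hb ha h4 hA2 (by linarith) hA1 ht
          (by
            have e1 : A2 * a ^ 2 - -A1 * b ^ 2 = A1 * b ^ 2 + A2 * a ^ 2 := by ring
            rw [e1, mul_comm b a]; exact h1)
          (by rw [mul_comm b a]; exact h2)
        rwa [neg_neg] at this
    rcases le_or_gt 0 t with ht | ht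
    · exact main a b A1 A2 t ha0 hb0 ht hs hA1 hA2 h1 h2
    · refine neg (main a b (-A1) (-A2) (-t) ha0 hb0 (by linarith) (by rw [neg_mul_neg]; exact hs)
        (by rw [abs_neg]; exact hA1) (by rw [abs_neg]; exact hA2) ?_ (by rw [abs_neg]; exact h2))
      have e1 : |-A1 * b ^ 2 + -A2 * a ^ 2| = |A1 * b ^ 2 + A2 * a ^ 2| := by
        rw [← abs_neg]; congr 1; ring
      rw [abs_neg, e1]
      exact h1

end Pool.Agent.ICL
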