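import Pool.Agent.ICL.StmtsP
import Pool.Agent.IcoLocal.Sym

/-!
# Icosahedra whose two opposite vertex links lie in parallel planes: statements of the modules in space

(The other statements, and an overview, are in `Pool/Agent/ICL/StmtsP.lean`.)
-/

set_option autoImplicit false

namespace Pool.Agent.ICL

open Pool.Agent.Results.MP_fa01f0_gt.CentrallySymmetric

/-! ## From space to the plane -/

/-- AREA. PROOF. For a triangle `U, V, Z` with `U 2 = V 2`: `triArea = √(σ² + (D |U-V| / 2)²)`, where `σ` is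
(plus or minus) the signed area of the projected triangle and `D` the height difference of `Z` and `U` (expand
the Gram determinant; `|U-V|` is the planar length). The twenty triangles `tri f`: five contain 0 (caps over the
edges `iu k, iu (k+1)`), five contain 6 (over `il k, il (k+1)`), five are `iu k, iu (k+1), il k` and five
`il k, il (k+1), iu (k+1)` (in some order). The projected signed areas add up to `F`, `F'`, `W - F`, `W - F'`
(up to the sign) in the four groups. Minkowski: `∑ √(a_k² + b_k²) ≥ √((∑ a_k)² + (∑ b_k)²)`. -/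
def Stmt_AREA : Prop := ∀ (w : Fin 12 → E3) (zu zl : ℝ), (∀ k, w (iu k) 2 = zu) → (∀ k, w (il k) 2 = zl) →
  ∀ (x y x' y' : Fin 5 → ℝ), (∀ k, x k = w (iu k) 0) → (∀ k, y k = w (iu k) 1) →
    (∀ k, x' k = w (il k) 0) → (∀ k, y' k = w (il k) 1) →
    Real.sqrt (Fa x y ^ 2 + ((w 0 2 - zu) * (Pe x y / 2)) ^ 2)
      + Real.sqrt (Fa x' y' ^ 2 + ((zl - w 6 2) * (Pe x' y' / 2)) ^ 2)
      + Real.sqrt ((Wa x y x' y' - Fa x y) ^ 2 + ((zu - zl) * (Pe x y / 2)) ^ 2)
      + Real.sqrt ((Wa x y x' y' - Fa x' y') ^ 2 + ((zu - zl) * (Pe x' y' / 2)) ^ 2) ≤ area w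

/-- VOL. PROOF. Expand the sum over `Fin 20` and the determinants; `ring` (numerically checked). -/
def Stmt_VOL : Prop := ∀ (w : Fin 12 → E3) (zu zl : ℝ), (∀ k, w (iu k) 2 = zu) → (∀ k, w (il k) 2 = zl) →
  ∀ (x y x' y' : Fin 5 → ℝ), (∀ k, x k = w (iu k) 0) → (∀ k, y k = w (iu k) 1) →
    (∀ k, x' k = w (il k) 0) → (∀ k, y' k = w (il k) 1) →
    vol w = ((w 0 2 - zu) * Fa x y + (zl - w 6 2) * Fa x' y'
      + (zu - zl) * (Fa x y + Fa x' y' + Wa x y x' y')) / 3

/-- ROT. Turn the direction `n` into the third axis. PROOF. `n/|n|` is the last vector of an orthonormal basis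
`b` of `E3` (`Orthonormal.exists_orthonormalBasis_extension_of_card_eq` or by hand); `w' i = b.repr (w i)`, or
`w' i = R (w i)` with the orthogonal matrix `R` whose rows are the basis vectors. Invariance of `area` and
`vol²`: compare `Pool/Agent/IcoLocal/Nbhd.lean`, `simL_area`, `simL_vol`, `det_sq` (with `k = 1`). -/
def Stmt_ROT : Prop := ∀ (w : Fin 12 → E3) (n : E3), n ≠ 0 → ∃ w' : Fin 12 → E3,
  area w' = area w ∧ vol w' ^ 2 = vol w ^ 2 ∧ ∀ i, w' i 2 = inner ℝ n (w i) / ‖n‖

end Pool.Agent.ICL
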