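import Pool.Agent.ICL.StmtsP

/-!
# Module CONV: `Good` is a convex condition
-/

set_option autoImplicit false

namespace Pool.Agent.ICL

namespace M_CONV

lemma sn_pos : 0 < sn := by
  unfold sn
  apply Real.sqrt_pos.2
  have h : Real.sqrt 5 < 3 := by
    rw [Real.sqrt_lt' (by norm_num)]
    norm_num
  linarith

lemma g0_nonneg : 0 ≤ g0 := by
  unfold g0
  have h : (15 / 7 : ℝ) ≤ Real.sqrt 5 := by
    rw [Real.le_sqrt (by norm_num) (by norm_num)]
    norm_num
  have h3 : 0 < sn := sn_pos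
  apply div_nonneg
  · linarith
  · positivity

lemma cube_ineq {A M u : ℝ} (hA : 0 ≤ A) (hM : 0 < M) (hu : 0 ≤ u) :
    3 * u ^ 2 * A - 2 * u ^ 3 * M ≤ A ^ 3 / M ^ 2 := by
  have h : A ^ 3 / M ^ 2 - (3 * u ^ 2 * A - 2 * u ^ 3 * M) = (A - u * M) ^ 2 * (A + 2 * u * M) / M ^ 2 := by
    field_simp
    ring
  have h2 : 0 ≤ (A - u * M) ^ 2 * (A + 2 * u * M) / M ^ 2 := by positivity
  linarith

lemma mid_pos {M M' t : ℝ} (hM : 0 < M) (hM' : 0 < M') (ht : 0 ≤ t) (ht1 : t ≤ 1) :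
    0 < (1 - t) * M + t * M' := by
  rcases eq_or_lt_of_le ht with h | h
  · rw [← h]; linarith
  · have h1 : 0 < t * M' := mul_pos h hM'
    have h2 : 0 ≤ (1 - t) * M := mul_nonneg (by linarith) hM.le
    linarith

lemma sqrt_le_of {u r : ℝ} (hr : 0 < r) (hu : 0 ≤ u) : Real.sqrt u ≤ (u + r ^ 2) / (2 * r) := by
  rw [le_div_iff₀ (by positivity)]
  have h := Real.sq_sqrt hu
  nlinarith [sq_nonneg (Real.sqrt u - r)]

/-- Concavity of `(A, M) ↦ A √(1 - (k A / M)²)`. -/
lemma conc {k A M A' M' t : ℝ} (hk : 0 ≤ k) (hA : 0 ≤ A) (hM : 0 < M) (hA' : 0 ≤ A') (hM' : 0 < M')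
    (h1 : k * A ≤ M) (h2 : k * A' ≤ M') (ht : 0 ≤ t) (ht1 : t ≤ 1) :
    (1 - t) * (A * Real.sqrt (1 - (k * A / M) ^ 2)) + t * (A' * Real.sqrt (1 - (k * A' / M') ^ 2)) ≤
      ((1 - t) * A + t * A') *
        Real.sqrt (1 - (k * ((1 - t) * A + t * A') / ((1 - t) * M + t * M')) ^ 2) := by
  have hMM : 0 < (1 - t) * M + t * M' := mid_pos hM hM' ht ht1
  set N := (1 - t) * M + t * M' with hN
  set B := (1 - t) * A + t * A' with hB
  have hB0 : 0 ≤ B := add_nonneg (mul_nonneg (by linarith) hA) (mul_nonneg ht hA')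
  have hkB : k * B ≤ N := by
    have e1 : (1 - t) * (k * A) ≤ (1 - t) * M := mul_le_mul_of_nonneg_left h1 (by linarith)
    have e2 : t * (k * A') ≤ t * M' := mul_le_mul_of_nonneg_left h2 ht
    have e3 : k * B = (1 - t) * (k * A) + t * (k * A') := by rw [hB]; ring
    rw [e3, hN]; linarith
  have hy1 : k * A / M ≤ 1 := by rw [div_le_one hM]; exact h1
  have hy2 : k * A' / M' ≤ 1 := by rw [div_le_one hM']; exact h2
  have hy10 : 0 ≤ k * A / M := by positivity
  have hy20 : 0 ≤ k * A' / M' := by positivity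
  have hy0 : 0 ≤ k * B / N := by positivity
  rcases eq_or_lt_of_le hkB with he | hlt
  · -- the case `y = 1`
    have e0 : (1 - t) * (M - k * A) + t * (M' - k * A') = 0 := by
      have : (1 - t) * (M - k * A) + t * (M' - k * A') = N - k * B := by rw [hN, hB]; ring
      rw [this, he]; ring
    have e1 : 0 ≤ (1 - t) * (M - k * A) := mul_nonneg (by linarith) (by linarith)
    have e2 : 0 ≤ t * (M' - k * A') := mul_nonneg ht (by linarith)
    have e3 : (1 - t) * (M - k * A) = 0 := by linarith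
    have e4 : t * (M' - k * A') = 0 := by linarith
    have f1 : (1 - t) * (A * Real.sqrt (1 - (k * A / M) ^ 2)) = 0 := by
      rcases mul_eq_zero.1 e3 with h | h
      · rw [h, zero_mul]
      · have : k * A / M = 1 := by
          rw [div_eq_one_iff_eq hM.ne']; linarith
        rw [this]; norm_num
    have f2 : t * (A' * Real.sqrt (1 - (k * A' / M') ^ 2)) = 0 := by
      rcases mul_eq_zero.1 e4 with h | h
      · rw [h, zero_mul]
      · have : k * A' / M' = 1 := by
          rw [div_eq_one_iff_eq hM'.ne']; linarith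
        rw [this]; norm_num
    rw [f1, f2]
    have := mul_nonneg hB0 (Real.sqrt_nonneg (1 - (k * B / N) ^ 2))
    linarith
  · -- the case `y < 1`
    have hy : k * B / N < 1 := by rw [div_lt_one hMM]; exact hlt
    have hr2 : 0 < 1 - (k * B / N) ^ 2 := by nlinarith
    set r := Real.sqrt (1 - (k * B / N) ^ 2) with hr
    have hr0 : 0 < r := Real.sqrt_pos.2 hr2
    have hrr : r ^ 2 = 1 - (k * B / N) ^ 2 := Real.sq_sqrt hr2.le
    have g1 : Real.sqrt (1 - (k * A / M) ^ 2) ≤ ((1 - (k * A / M) ^ 2) + r ^ 2) / (2 * r) :=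
      sqrt_le_of hr0 (by nlinarith)
    have g2 : Real.sqrt (1 - (k * A' / M') ^ 2) ≤ ((1 - (k * A' / M') ^ 2) + r ^ 2) / (2 * r) :=
      sqrt_le_of hr0 (by nlinarith)
    have g3 : (1 - t) * (A * Real.sqrt (1 - (k * A / M) ^ 2)) ≤
        (1 - t) * (A * (((1 - (k * A / M) ^ 2) + r ^ 2) / (2 * r))) :=
      mul_le_mul_of_nonneg_left (mul_le_mul_of_nonneg_left g1 hA) (by linarith)
    have g4 : t * (A' * Real.sqrt (1 - (k * A' / M') ^ 2)) ≤
        t * (A' * (((1 - (k * A' / M') ^ 2) + r ^ 2) / (2 * r))) :=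
      mul_le_mul_of_nonneg_left (mul_le_mul_of_nonneg_left g2 hA') ht
    have hu : 0 ≤ B / N := by positivity
    have c1 := cube_ineq hA hM hu
    have c2 := cube_ineq hA' hM' hu
    have key : B ^ 3 / N ^ 2 ≤ (1 - t) * (A ^ 3 / M ^ 2) + t * (A' ^ 3 / M' ^ 2) := by
      have d1 : (1 - t) * (3 * (B / N) ^ 2 * A - 2 * (B / N) ^ 3 * M) ≤ (1 - t) * (A ^ 3 / M ^ 2) :=
        mul_le_mul_of_nonneg_left c1 (by linarith)
      have d2 : t * (3 * (B / N) ^ 2 * A' - 2 * (B / N) ^ 3 * M') ≤ t * (A' ^ 3 / M' ^ 2) :=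
        mul_le_mul_of_nonneg_left c2 ht
      have d3 : (1 - t) * (3 * (B / N) ^ 2 * A - 2 * (B / N) ^ 3 * M) +
          t * (3 * (B / N) ^ 2 * A' - 2 * (B / N) ^ 3 * M') =
          3 * (B / N) ^ 2 * B - 2 * (B / N) ^ 3 * N := by
        rw [hB, hN]; ring
      have d4 : 3 * (B / N) ^ 2 * B - 2 * (B / N) ^ 3 * N = B ^ 3 / N ^ 2 := by
        field_simp
        ring
      linarith
    have key2 : B * (k * B / N) ^ 2 ≤ (1 - t) * (A * (k * A / M) ^ 2) + t * (A' * (k * A' / M') ^ 2) := by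
      have d1 : B * (k * B / N) ^ 2 = k ^ 2 * (B ^ 3 / N ^ 2) := by field_simp
      have d2 : A * (k * A / M) ^ 2 = k ^ 2 * (A ^ 3 / M ^ 2) := by field_simp
      have d3 : A' * (k * A' / M') ^ 2 = k ^ 2 * (A' ^ 3 / M' ^ 2) := by field_simp
      rw [d1, d2, d3]
      have := mul_le_mul_of_nonneg_left key (sq_nonneg k)
      linarith
    have fin : (1 - t) * (A * (((1 - (k * A / M) ^ 2) + r ^ 2) / (2 * r))) +
        t * (A' * (((1 - (k * A' / M') ^ 2) + r ^ 2) / (2 * r))) ≤ B * r := by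
      have e1 : (1 - t) * (A * (((1 - (k * A / M) ^ 2) + r ^ 2) / (2 * r))) +
          t * (A' * (((1 - (k * A' / M') ^ 2) + r ^ 2) / (2 * r))) =
          ((1 - t) * (A * ((1 - (k * A / M) ^ 2) + r ^ 2)) +
            t * (A' * ((1 - (k * A' / M') ^ 2) + r ^ 2))) / (2 * r) := by ring
      rw [e1, div_le_iff₀ (by positivity)]
      have e2 : B * r * (2 * r) = 2 * B * r ^ 2 := by ring
      rw [e2]
      have e3 : (1 - t) * (A * ((1 - (k * A / M) ^ 2) + r ^ 2)) +
            t * (A' * ((1 - (k * A' / M') ^ 2) + r ^ 2)) =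
          B * (1 + r ^ 2) - ((1 - t) * (A * (k * A / M) ^ 2) + t * (A' * (k * A' / M') ^ 2)) := by
        rw [hB]; ring
      rw [e3]
      have e4 : B * (1 + r ^ 2) - 2 * B * r ^ 2 = B * (k * B / N) ^ 2 := by
        rw [hrr]; ring
      linarith
    linarith

end M_CONV

open M_CONV in
/-- CONV: `Good` is a convex condition. -/
theorem t_CONV : Stmt_CONV := by
  intro a b C1 S1 C2 S2 A1 A2 M r1 r2 A1' A2' M' r1' r2' t ha hb hs ht ht1 hG hG'
  obtain ⟨hA1, hA2, hM, hs1, hs2, hg⟩ := hG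
  obtain ⟨hA1', hA2', hM', hs1', hs2', hg'⟩ := hG'
  have ht2 : 0 ≤ 1 - t := by linarith
  set s := a * S1 + b * S2 with hsdef
  have hMM := mid_pos hM hM' ht ht1
  refine ⟨add_nonneg (mul_nonneg ht2 hA1) (mul_nonneg ht hA1'),
    add_nonneg (mul_nonneg ht2 hA2) (mul_nonneg ht hA2'), hMM, ?_, ?_, ?_⟩
  · have e1 := mul_le_mul_of_nonneg_left hs1 ht2
    have e2 := mul_le_mul_of_nonneg_left hs1' ht
    linarith
  · have e1 := mul_le_mul_of_nonneg_left hs2 ht2
    have e2 := mul_le_mul_of_nonneg_left hs2' ht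
    linarith
  · -- the first term
    have ra : ∀ x y : ℝ, s * x / (a * y) = (s / a) * x / y := by
      intro x y
      rw [mul_comm a y, ← div_div, div_right_comm, div_mul_eq_mul_div, div_right_comm]
    have c1 : (1 - t) * (A1 * Real.sqrt (1 - (s * A1 / (a * M)) ^ 2)) +
        t * (A1' * Real.sqrt (1 - (s * A1' / (a * M')) ^ 2)) ≤
        ((1 - t) * A1 + t * A1') * Real.sqrt (1 - (s * ((1 - t) * A1 + t * A1') /
          (a * ((1 - t) * M + t * M'))) ^ 2) := by
      rw [ra, ra, ra]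
      refine conc (by positivity) hA1 hM hA1' hM' ?_ ?_ ht ht1
      · rw [div_mul_eq_mul_div, div_le_iff₀ ha]; linarith
      · rw [div_mul_eq_mul_div, div_le_iff₀ ha]; linarith
    have c2 : (1 - t) * (A2 * Real.sqrt (1 - (s * A2 / (b * M)) ^ 2)) +
        t * (A2' * Real.sqrt (1 - (s * A2' / (b * M')) ^ 2)) ≤
        ((1 - t) * A2 + t * A2') * Real.sqrt (1 - (s * ((1 - t) * A2 + t * A2') /
          (b * ((1 - t) * M + t * M'))) ^ 2) := by
      rcases eq_or_lt_of_le hb with h0 | hb0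
      · have z1 : A2 = 0 := by
          rw [← h0, zero_mul] at hs2
          nlinarith
        have z2 : A2' = 0 := by
          rw [← h0, zero_mul] at hs2'
          nlinarith
        rw [z1, z2]; simp
      · have rb : ∀ x y : ℝ, s * x / (b * y) = (s / b) * x / y := by
          intro x y
          rw [mul_comm b y, ← div_div, div_right_comm, div_mul_eq_mul_div, div_right_comm]
        rw [rb, rb, rb]
        refine conc (by positivity) hA2 hM hA2' hM' ?_ ?_ ht ht1
        · rw [div_mul_eq_mul_div, div_le_iff₀ hb0]; linarith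
        · rw [div_mul_eq_mul_div, div_le_iff₀ hb0]; linarith
    have d1 : g0 * ((1 - t) * M + t * M') ^ 2 ≤ (1 - t) * (g0 * M ^ 2) + t * (g0 * M' ^ 2) := by
      have e : (1 - t) * (g0 * M ^ 2) + t * (g0 * M' ^ 2) - g0 * ((1 - t) * M + t * M') ^ 2 =
          g0 * (t * (1 - t) * (M - M') ^ 2) := by ring
      have e2 : 0 ≤ g0 * (t * (1 - t) * (M - M') ^ 2) :=
        mul_nonneg g0_nonneg (mul_nonneg (mul_nonneg ht ht2) (sq_nonneg _))
      linarith
    have d2 := mul_le_mul_of_nonneg_left hg ht2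
    have d3 := mul_le_mul_of_nonneg_left hg' ht
    refine d1.trans ((add_le_add d2 d3).trans ?_)
    have e : (1 - t) * (s ^ 2 * (A1 * Real.sqrt (1 - (s * A1 / (a * M)) ^ 2)
          + A2 * Real.sqrt (1 - (s * A2 / (b * M)) ^ 2) + r1 * C1 + r2 * C2)) +
        t * (s ^ 2 * (A1' * Real.sqrt (1 - (s * A1' / (a * M')) ^ 2)
          + A2' * Real.sqrt (1 - (s * A2' / (b * M')) ^ 2) + r1' * C1 + r2' * C2)) =
        s ^ 2 * (((1 - t) * (A1 * Real.sqrt (1 - (s * A1 / (a * M)) ^ 2)) +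
          t * (A1' * Real.sqrt (1 - (s * A1' / (a * M')) ^ 2))) +
          ((1 - t) * (A2 * Real.sqrt (1 - (s * A2 / (b * M)) ^ 2)) +
          t * (A2' * Real.sqrt (1 - (s * A2' / (b * M')) ^ 2))) +
          ((1 - t) * r1 + t * r1') * C1 + ((1 - t) * r2 + t * r2') * C2) := by ring
    rw [e]
    refine mul_le_mul_of_nonneg_left ?_ (sq_nonneg s)
    linarith

end Pool.Agent.ICL
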