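import Pool.Agent.ICL.StmtsP

/-!
# Module KEY of the parallel links project (MP_fa01f0_gt)
-/

set_option autoImplicit false

namespace Pool.Agent.ICL

namespace M_KEY

theorem cau (x y c s : ℝ) (h : c ^ 2 + s ^ 2 ≤ 1) : x * c + y * s ≤ Real.sqrt (x ^ 2 + y ^ 2) := by
  apply Real.le_sqrt_of_sq_le
  have h1 : 0 ≤ (x ^ 2 + y ^ 2) * (1 - (c ^ 2 + s ^ 2)) :=
    mul_nonneg (by positivity) (by linarith)
  nlinarith [sq_nonneg (x * s - y * c)]

theorem cub (u v : ℝ) (hu : 0 ≤ u) (hv : 0 ≤ v) : 27 * (u * v ^ 2) ≤ 4 * (u + v) ^ 3 := by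
  have h : 0 ≤ (v - 2 * u) ^ 2 * (4 * v + u) := mul_nonneg (sq_nonneg _) (by linarith)
  nlinarith [h]

theorem sn_pos : 0 < sn := by
  have h5 : Real.sqrt 5 < 3 := by
    rw [show (3 : ℝ) = Real.sqrt (3 ^ 2) from (Real.sqrt_sq (by norm_num)).symm]
    exact Real.sqrt_lt_sqrt (by norm_num) (by norm_num)
  exact Real.sqrt_pos.mpr (by linarith)

theorem g0_pos : 0 < g0 := by
  have h5 : 15 / 7 < Real.sqrt 5 := by
    apply Real.lt_sqrt_of_sq_lt
    norm_num
  have h3 : 0 < Real.sqrt 3 := Real.sqrt_pos.mpr (by norm_num)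
  have hs := sn_pos
  unfold g0
  apply div_pos (by linarith)
  positivity

/-- One cap term. -/
theorem cap (a M s A p : ℝ) (ha : 0 ≤ a) (hM : 0 < M) (hs : 0 < s) (hA : 0 ≤ A) (h : s * A ≤ a * M) :
    A * Real.sqrt (1 - (s * A / (a * M)) ^ 2) + s / M * (p * A)
      ≤ Real.sqrt (A ^ 2 + (p * a) ^ 2) := by
  rcases ha.eq_or_lt with h0 | h0
  · subst h0
    have hA0 : A = 0 := by
      have h1 : s * A ≤ 0 := by linarith
      have h2 : 0 ≤ s * A := mul_nonneg hs.le hA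
      have h3 : s * A = 0 := le_antisymm h1 h2
      rcases mul_eq_zero.mp h3 with h4 | h4
      · exact absurd h4 hs.ne'
      · exact h4
    subst hA0
    simp
  · have haM : 0 < a * M := mul_pos h0 hM
    have hσ0 : 0 ≤ s * A / (a * M) := div_nonneg (mul_nonneg hs.le hA) haM.le
    have hσ1 : s * A / (a * M) ≤ 1 := (div_le_one haM).mpr h
    have hsq : Real.sqrt (1 - (s * A / (a * M)) ^ 2) ^ 2 = 1 - (s * A / (a * M)) ^ 2 :=
      Real.sq_sqrt (by nlinarith)
    have hc := cau A (p * a) (Real.sqrt (1 - (s * A / (a * M)) ^ 2)) (s * A / (a * M)) (by rw [hsq]; linarith)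
    have he : p * a * (s * A / (a * M)) = s / M * (p * A) := by
      field_simp
    rw [he] at hc
    exact hc

end M_KEY

open M_KEY in
theorem t_KEY : Stmt_KEY := by
  intro a b C1 S1 C2 S2 A1 A2 M r1 r2 ha hb h1 h2 hs hG p q h hp hq hh
  obtain ⟨hA1, hA2, hM, hs1, hs2, hg⟩ := hG
  set s := a * S1 + b * S2 with hsdef
  set E := A1 * Real.sqrt (1 - (s * A1 / (a * M)) ^ 2) + A2 * Real.sqrt (1 - (s * A2 / (b * M)) ^ 2)
    + r1 * C1 + r2 * C2 with hE
  have c1 := cap a M s A1 p ha.le hM hs hA1 hs1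
  have c2 := cap b M s A2 q hb hM hs hA2 hs2
  have c3 := cau r1 (h * a) C1 S1 h1
  have c4 := cau r2 (h * b) C2 S2 h2
  set V := p * A1 + q * A2 + h * M with hV
  have hV0 : 0 ≤ V := by
    have := mul_nonneg hp hA1
    have := mul_nonneg hq hA2
    have := mul_nonneg hh hM.le
    rw [hV]; linarith
  have hyM : s / M * (h * M) = h * s := by field_simp
  have hyV : s / M * V = s / M * (p * A1) + s / M * (q * A2) + h * s := by
    rw [hV, mul_add, mul_add, hyM]
  have hAg : E + s / M * V ≤ Ag a b A1 A2 r1 r2 p q h := by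
    unfold Ag
    rw [hyV, hE, hsdef]
    rw [hsdef] at c1 c2
    nlinarith [c1, c2, c3, c4]
  have hy0 : 0 < s / M := div_pos hs hM
  have hg0 := g0_pos
  have hgE : g0 ≤ (s / M) ^ 2 * E := by
    rw [div_pow, div_mul_eq_mul_div, le_div_iff₀ (by positivity)]
    exact hg
  have hE0 : 0 ≤ E := by
    by_contra hneg
    push Not at hneg
    have : (s / M) ^ 2 * E < 0 := mul_neg_of_pos_of_neg (by positivity) hneg
    linarith
  have hyV0 : 0 ≤ s / M * V := mul_nonneg hy0.le hV0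
  calc 27 * g0 * V ^ 2 ≤ 27 * ((s / M) ^ 2 * E) * V ^ 2 := by
        apply mul_le_mul_of_nonneg_right _ (sq_nonneg V)
        linarith
    _ = 27 * (E * (s / M * V) ^ 2) := by ring
    _ ≤ 4 * (E + s / M * V) ^ 3 := cub _ _ hE0 hyV0
    _ ≤ 4 * Ag a b A1 A2 r1 r2 p q h ^ 3 := by
        have : (E + s / M * V) ^ 3 ≤ Ag a b A1 A2 r1 r2 p q h ^ 3 :=
          pow_le_pow_left₀ (by linarith) hAg 3
        linarith

end Pool.Agent.ICL
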