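import Pool.Agent.ICL.Defs

/-!
# Vertex checks: general lemmas
-/

set_option autoImplicit false

namespace Pool.Agent.ICL

lemma sqrt5_sq : Real.sqrt 5 ^ 2 = 5 := Real.sq_sqrt (by norm_num)

lemma sqrt5_lb : (2236067 / 1000000 : ℝ) ≤ Real.sqrt 5 := Real.le_sqrt_of_sq_le (by norm_num)

lemma sqrt5_ub : Real.sqrt 5 ≤ (2236068 / 1000000 : ℝ) := by
  rw [Real.sqrt_le_left (by norm_num)]
  norm_num

lemma sn_sq : sn ^ 2 = (5 - Real.sqrt 5) / 8 := by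
  rw [sn, Real.sq_sqrt]
  have := sqrt5_ub
  linarith

lemma sn_lb : (587 / 1000 : ℝ) ≤ sn := by
  refine Real.le_sqrt_of_sq_le ?_
  have := sqrt5_ub
  norm_num
  linarith

lemma sn_lb' : (58778 / 100000 : ℝ) ≤ sn := by
  refine Real.le_sqrt_of_sq_le ?_
  have := sqrt5_ub
  norm_num
  linarith

lemma sn_pos : 0 < sn := lt_of_lt_of_le (by norm_num) sn_lb

lemma cs_pos : 0 < cs := by
  have := sqrt5_lb
  unfold cs
  linarith

lemma g0_den_pos : 0 < 3 * Real.sqrt 3 * sn ^ 3 := by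
  have := sn_pos
  positivity

lemma g0_pos : 0 < g0 := by
  have := sqrt5_lb
  exact div_pos (by linarith) g0_den_pos

lemma g0_le : g0 ≤ 6184 / 10000 := by
  rw [g0, div_le_iff₀ g0_den_pos]
  have h3 : (173205 / 100000 : ℝ) ≤ Real.sqrt 3 := Real.le_sqrt_of_sq_le (by norm_num)
  have hs : (58778 / 100000 : ℝ) ^ 3 ≤ sn ^ 3 := pow_le_pow_left₀ (by norm_num) sn_lb' 3
  have h5 := sqrt5_ub
  have : (173205 / 100000 : ℝ) * (58778 / 100000 : ℝ) ^ 3 ≤ Real.sqrt 3 * sn ^ 3 :=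
    mul_le_mul h3 hs (by norm_num) (by positivity)
  norm_num at this ⊢
  nlinarith

/-- Lower bound of `√(1 - Y)` by a chord. -/
lemma sqrt_chord {yl yu α β z M : ℝ} (hM : 0 < M) (hyl : 0 ≤ yl) (hl : yl * M ≤ z) (hu : z ≤ yu * M)
    (cl : (α - β * yl ^ 2) ^ 2 ≤ 1 - yl ^ 2) (cu : (α - β * yu ^ 2) ^ 2 ≤ 1 - yu ^ 2) :
    α * M ^ 2 - β * z ^ 2 ≤ Real.sqrt (1 - (z / M) ^ 2) * M ^ 2 := by
  set y : ℝ := z / M with hy
  have hz : z = y * M := by rw [hy]; field_simp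
  have h1 : yl ≤ y := by
    rw [hz] at hl
    exact le_of_mul_le_mul_right hl hM
  have h2 : y ≤ yu := by
    rw [hz] at hu
    exact le_of_mul_le_mul_right hu hM
  have hy0 : 0 ≤ y := hyl.trans h1
  have e1 : yl ^ 2 ≤ y ^ 2 := pow_le_pow_left₀ hyl h1 2
  have e2 : y ^ 2 ≤ yu ^ 2 := pow_le_pow_left₀ hy0 h2 2
  have key : (α - β * y ^ 2) ^ 2 ≤ 1 - y ^ 2 := by
    rcases eq_or_lt_of_le (e1.trans e2) with h | h
    · have : y ^ 2 = yl ^ 2 := le_antisymm (by rw [h]; exact e2) e1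
      rw [this]
      exact cl
    · have h3 : 0 ≤ (yu ^ 2 - y ^ 2) * (1 - yl ^ 2 - (α - β * yl ^ 2) ^ 2)
          + (y ^ 2 - yl ^ 2) * (1 - yu ^ 2 - (α - β * yu ^ 2) ^ 2)
          + β ^ 2 * ((y ^ 2 - yl ^ 2) * (yu ^ 2 - y ^ 2)) * (yu ^ 2 - yl ^ 2) := by
        have a1 := sub_nonneg.2 cl
        have a2 := sub_nonneg.2 cu
        have a3 := sub_nonneg.2 e1
        have a4 := sub_nonneg.2 e2
        have a5 := sub_nonneg.2 h.le
        positivity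
      have h4 : (yu ^ 2 - yl ^ 2) * (1 - y ^ 2 - (α - β * y ^ 2) ^ 2)
          = (yu ^ 2 - y ^ 2) * (1 - yl ^ 2 - (α - β * yl ^ 2) ^ 2)
          + (y ^ 2 - yl ^ 2) * (1 - yu ^ 2 - (α - β * yu ^ 2) ^ 2)
          + β ^ 2 * ((y ^ 2 - yl ^ 2) * (yu ^ 2 - y ^ 2)) * (yu ^ 2 - yl ^ 2) := by ring
      rw [← h4] at h3
      have := nonneg_of_mul_nonneg_right h3 (sub_pos.2 h)
      linarith
  have h5 : α - β * y ^ 2 ≤ Real.sqrt (1 - y ^ 2) := Real.le_sqrt_of_sq_le key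
  calc α * M ^ 2 - β * z ^ 2 = (α - β * y ^ 2) * M ^ 2 := by rw [hz]; ring
    _ ≤ _ := mul_le_mul_of_nonneg_right h5 (by positivity)

lemma good_of {C1 S1 C2 S2 f g x σ M r1 r2 α1 β1 α2 β2 : ℝ} (hσ : 1 * S1 + x * S2 = σ)
    (hσ0 : 0 < σ) (hM0 : 0 < M) (hx : 0 ≤ x) (hf : 0 ≤ f) (hg : 0 ≤ g) (hd1 : σ * f ≤ M)
    (hd2 : σ * g * x ≤ M)
    (h1 : f * (α1 * M ^ 2 - β1 * (σ * f) ^ 2) ≤ f * (Real.sqrt (1 - (σ * f / M) ^ 2) * M ^ 2))
    (h2 : g * (α2 * M ^ 2 - β2 * (σ * g * x) ^ 2)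
      ≤ g * (Real.sqrt (1 - (σ * g * x / M) ^ 2) * M ^ 2))
    (hP : 0 ≤ σ ^ 2 * (f * (α1 * M ^ 2 - β1 * (σ * f) ^ 2)
      + x ^ 2 * (g * (α2 * M ^ 2 - β2 * (σ * g * x) ^ 2)) + M ^ 2 * (r1 * C1 + r2 * C2))
        - 6184 / 10000 * M ^ 4) :
    Good 1 x C1 S1 C2 S2 f (g * x ^ 2) M r1 r2 := by
  unfold Good
  rw [hσ]
  refine ⟨hf, by positivity, hM0, by linarith, ?_, ?_⟩
  · nlinarith
  · have e2 : σ * (g * x ^ 2) / (x * M) = σ * g * x / M := by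
      rcases eq_or_lt_of_le hx with h | h
      · rw [← h]; simp
      · field_simp
    rw [e2, one_mul]
    have hM2 : 0 < M ^ 2 := by positivity
    have hσ2 : 0 < σ ^ 2 := by positivity
    have k : g0 * M ^ 2 * M ^ 2 ≤ σ ^ 2 * (f * Real.sqrt (1 - (σ * f / M) ^ 2)
        + g * x ^ 2 * Real.sqrt (1 - (σ * g * x / M) ^ 2) + r1 * C1 + r2 * C2) * M ^ 2 := by
      have a1 : g0 * M ^ 2 * M ^ 2 ≤ 6184 / 10000 * M ^ 4 := by
        have : 0 < M ^ 4 := by positivity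
        nlinarith [g0_le]
      have a2 := mul_le_mul_of_nonneg_left h2 (sq_nonneg x)
      have a3 := mul_le_mul_of_nonneg_left (add_le_add h1 a2) hσ2.le
      nlinarith
    exact le_of_mul_le_mul_right k hM2

end Pool.Agent.ICL
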