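import Pool.Agent.ICL.StmtsP

/-!
# NN: the nonnegative case of the reduced inequality from the faces FA, FB and the reduction W2
-/

set_option autoImplicit false

namespace Pool.Agent.ICL

namespace M_NN

theorem Ag_nonneg (a b A1 A2 r1 r2 p q h : ℝ) : 0 ≤ Ag a b A1 A2 r1 r2 p q h := by
  unfold Ag
  positivity

theorem sqrt_mono_aux {A c a a' : ℝ} (hc : 0 ≤ c) (ha' : 0 ≤ a') (h : a' ≤ a) :
    Real.sqrt (A ^ 2 + (c * a') ^ 2) ≤ Real.sqrt (A ^ 2 + (c * a) ^ 2) := by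
  apply Real.sqrt_le_sqrt
  have h1 : c * a' ≤ c * a := mul_le_mul_of_nonneg_left h hc
  have h2 : 0 ≤ c * a' := mul_nonneg hc ha'
  have h3 : (c * a') ^ 2 ≤ (c * a) ^ 2 := pow_le_pow_left₀ h2 h1 2
  linarith

theorem mono {a b a' b' A1 A2 M r1 r2 : ℝ} (ha0 : 0 ≤ a') (ha : a' ≤ a) (hb0 : 0 ≤ b')
    (hb : b' ≤ b) (H : Ineq a' b' A1 A2 M r1 r2) : Ineq a b A1 A2 M r1 r2 := by
  intro p q h hp hq hh
  have h1 := H p q h hp hq hh
  have h2 : Ag a' b' A1 A2 r1 r2 p q h ≤ Ag a b A1 A2 r1 r2 p q h := by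
    unfold Ag
    have e1 := sqrt_mono_aux (A := A1) hp ha0 ha
    have e2 := sqrt_mono_aux (A := A2) hq hb0 hb
    have e3 := sqrt_mono_aux (A := r1) hh ha0 ha
    have e4 := sqrt_mono_aux (A := r2) hh hb0 hb
    linarith
  have h3 := pow_le_pow_left₀ (Ag_nonneg a' b' A1 A2 r1 r2 p q h) h2 3
  linarith

theorem symm {a b A1 A2 M r1 r2 : ℝ} (H : Ineq b a A2 A1 M r2 r1) : Ineq a b A1 A2 M r1 r2 := by
  intro p q h hp hq hh
  have h1 := H q p h hq hp hh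
  have e1 : Ag b a A2 A1 r2 r1 q p h = Ag a b A1 A2 r1 r2 p q h := by
    unfold Ag
    ring
  have e2 : q * A2 + p * A1 + h * M = p * A1 + q * A2 + h * M := by ring
  rw [e1, e2] at h1
  exact h1

theorem minkowski (x y u v : ℝ) :
    Real.sqrt ((x + u) ^ 2 + (y + v) ^ 2) ≤ Real.sqrt (x ^ 2 + y ^ 2) + Real.sqrt (u ^ 2 + v ^ 2) := by
  have h1 : 0 ≤ Real.sqrt (x ^ 2 + y ^ 2) := Real.sqrt_nonneg _
  have h2 : 0 ≤ Real.sqrt (u ^ 2 + v ^ 2) := Real.sqrt_nonneg _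
  have s1 : Real.sqrt (x ^ 2 + y ^ 2) ^ 2 = x ^ 2 + y ^ 2 := Real.sq_sqrt (by positivity)
  have s2 : Real.sqrt (u ^ 2 + v ^ 2) ^ 2 = u ^ 2 + v ^ 2 := Real.sq_sqrt (by positivity)
  have h3 : x * u + y * v ≤ Real.sqrt (x ^ 2 + y ^ 2) * Real.sqrt (u ^ 2 + v ^ 2) := by
    apply le_of_sq_le_sq' (by positivity)
    rw [mul_pow, s1, s2]
    nlinarith [sq_nonneg (x * v - y * u)]
  apply Real.sqrt_le_iff.2
  refine ⟨by positivity, ?_⟩
  nlinarith
where
  le_of_sq_le_sq' {s t : ℝ} (ht : 0 ≤ t) (h : s ^ 2 ≤ t ^ 2) : s ≤ t := abs_le_of_sq_le_sq' h ht |>.2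

theorem sqrt_factor {c d h : ℝ} (hc : 0 ≤ c) :
    Real.sqrt ((c * d) ^ 2 + (h * c) ^ 2) = c * Real.sqrt (d ^ 2 + h ^ 2) := by
  have e : (c * d) ^ 2 + (h * c) ^ 2 = c ^ 2 * (d ^ 2 + h ^ 2) := by ring
  rw [e, Real.sqrt_mul (sq_nonneg c), Real.sqrt_sq hc]

theorem sqrt5_ge : 2 ≤ Real.sqrt 5 := by
  rw [show (2 : ℝ) = Real.sqrt (2 ^ 2) by rw [Real.sqrt_sq (by norm_num)]]
  exact Real.sqrt_le_sqrt (by norm_num)

/-- both pentagons regular, `b ≤ a` -/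
theorem case1 (hFA : FA) {a b t : ℝ} (hb : 0 ≤ b) (hba : b ≤ a) (ht : 0 ≤ t)
    (ht2 : t ≤ (Real.sqrt 5 - 1) * (a * b)) :
    Ineq a b (a ^ 2) (b ^ 2) (a ^ 2 + b ^ 2 + t) (t - a ^ 2) (t - b ^ 2) := by
  have ha : 0 ≤ a := le_trans hb hba
  rcases ha.eq_or_lt with h0 | h0
  · subst h0
    have hb0 : b = 0 := le_antisymm hba hb
    subst hb0
    have ht0 : t = 0 := by
      apply le_antisymm _ ht
      simpa using ht2
    subst ht0
    intro p q h hp hq hh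
    have h1 := pow_nonneg (Ag_nonneg 0 0 (0 ^ 2) (0 ^ 2) (0 - 0 ^ 2) (0 - 0 ^ 2) p q h) 3
    have e : 27 * g0 * (p * 0 ^ 2 + q * 0 ^ 2 + h * (0 ^ 2 + 0 ^ 2 + 0)) ^ 2 = 0 := by ring
    rw [e]
    linarith
  · rcases le_or_gt (a * b) t with hab | hab
    · exact hFA a b t h0 hb hba hab ht2
    · intro p q h hp hq hh
      have h5 := sqrt5_ge
      have hab0 : 0 ≤ a * b := mul_nonneg ha hb
      have hF := hFA a b (a * b) h0 hb hba le_rfl (by nlinarith) p q h hp hq hh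
      set A' := Ag a b (a ^ 2) (b ^ 2) (a * b - a ^ 2) (a * b - b ^ 2) p q h with hA'
      set A := Ag a b (a ^ 2) (b ^ 2) (t - a ^ 2) (t - b ^ 2) p q h with hA
      have hAA : A' ≤ A := by
        rw [hA', hA]
        unfold Ag
        have e1 : Real.sqrt ((a * b - a ^ 2) ^ 2 + (h * a) ^ 2) =
            a * Real.sqrt ((a - b) ^ 2 + h ^ 2) := by
          rw [← sqrt_factor ha]
          congr 1
          ring
        have e2 : Real.sqrt ((a * b - b ^ 2) ^ 2 + (h * b) ^ 2) =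
            b * Real.sqrt ((a - b) ^ 2 + h ^ 2) := by
          rw [← sqrt_factor hb]
          congr 1
          ring
        have e3 : Real.sqrt (((a ^ 2 - t) + (t - b ^ 2)) ^ 2 + (h * a + h * b) ^ 2) =
            (a + b) * Real.sqrt ((a - b) ^ 2 + h ^ 2) := by
          rw [← sqrt_factor (add_nonneg ha hb)]
          congr 1
          ring
        have e4 := minkowski (a ^ 2 - t) (h * a) (t - b ^ 2) (h * b)
        rw [e3] at e4
        have e5 : (a ^ 2 - t) ^ 2 = (t - a ^ 2) ^ 2 := by ring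
        rw [e5] at e4
        rw [e1, e2]
        linarith
      have hA0 : 0 ≤ A' := Ag_nonneg _ _ _ _ _ _ _ _ _
      have hcube := pow_le_pow_left₀ hA0 hAA 3
      rcases le_or_gt 0 g0 with hg | hg
      · have hV0 : 0 ≤ p * a ^ 2 + q * b ^ 2 + h * (a ^ 2 + b ^ 2 + t) := by positivity
        have hV : p * a ^ 2 + q * b ^ 2 + h * (a ^ 2 + b ^ 2 + t) ≤
            p * a ^ 2 + q * b ^ 2 + h * (a ^ 2 + b ^ 2 + a * b) := by
          have : h * t ≤ h * (a * b) := mul_le_mul_of_nonneg_left hab.le hh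
          nlinarith
        have hV2 := pow_le_pow_left₀ hV0 hV 2
        have hV3 := mul_le_mul_of_nonneg_left hV2 (by positivity : 0 ≤ 27 * g0)
        linarith
      · have hA3 : 0 ≤ A ^ 3 := pow_nonneg (le_trans hA0 hAA) 3
        have hneg : 27 * g0 * (p * a ^ 2 + q * b ^ 2 + h * (a ^ 2 + b ^ 2 + t)) ^ 2 ≤ 0 := by
          apply mul_nonpos_of_nonpos_of_nonneg _ (sq_nonneg _)
          linarith
        linarith

/-- the case `t ≤ (√5 - 1) √A1 √A2` -/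
theorem case1' (hFA : FA) {a b A1 A2 t : ℝ} (ha : 0 ≤ a) (hb : 0 ≤ b) (hA1 : 0 ≤ A1)
    (hA1a : A1 ≤ a ^ 2) (hA2 : 0 ≤ A2) (hA2b : A2 ≤ b ^ 2) (ht : 0 ≤ t)
    (ht2 : t ≤ (Real.sqrt 5 - 1) * (Real.sqrt A1 * Real.sqrt A2)) :
    Ineq a b A1 A2 (A1 + A2 + t) (t - A1) (t - A2) := by
  have ha1 : Real.sqrt A1 ≤ a := by
    rw [← Real.sqrt_sq ha]
    exact Real.sqrt_le_sqrt hA1a
  have hb1 : Real.sqrt A2 ≤ b := by
    rw [← Real.sqrt_sq hb]
    exact Real.sqrt_le_sqrt hA2b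
  have ha0 := Real.sqrt_nonneg A1
  have hb0 := Real.sqrt_nonneg A2
  have s1 : Real.sqrt A1 ^ 2 = A1 := Real.sq_sqrt hA1
  have s2 : Real.sqrt A2 ^ 2 = A2 := Real.sq_sqrt hA2
  refine mono ha0 ha1 hb0 hb1 ?_
  rcases le_total (Real.sqrt A2) (Real.sqrt A1) with hle | hle
  · have h1 := case1 hFA hb0 hle ht ht2
    rw [s1, s2] at h1
    exact h1
  · have h1 := case1 hFA ha0 hle ht (by rw [mul_comm (Real.sqrt A2)]; exact ht2)
    rw [s1, s2] at h1
    have h2 := symm h1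
    rw [show A2 + A1 + t = A1 + A2 + t by ring] at h2
    exact h2

end M_NN

open M_NN

theorem t_NN : Stmt_NN := by
  intro hFA hFB hW2 a b A1 A2 t ha hb hA1 hA1a hA2 hA2b ht hc ht5
  have hs0 : 0 ≤ (Real.sqrt 5 - 1) * (Real.sqrt A1 * Real.sqrt A2) := by
    have := sqrt5_ge
    have h1 := mul_nonneg (Real.sqrt_nonneg A1) (Real.sqrt_nonneg A2)
    exact mul_nonneg (by linarith) h1
  rcases ha.eq_or_lt with h0 | h0
  · subst h0
    have ht0 : t ≤ 0 := by simpa using ht5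
    exact case1' hFA ha hb hA1 hA1a hA2 hA2b ht (le_trans ht0 hs0)
  rcases hb.eq_or_lt with h1 | h1
  · subst h1
    have ht0 : t ≤ 0 := by simpa using ht5
    exact case1' hFA ha hb hA1 hA1a hA2 hA2b ht (le_trans ht0 hs0)
  rcases hW2 a b A1 A2 t h0 h1 hA1 hA1a hA2 hA2b ht hc with hw | ⟨a', b', ha', haa, hb', hbb, h1', h2', he⟩
  · exact case1' hFA ha hb hA1 hA1a hA2 hA2b ht hw
  · refine mono ha'.le haa hb'.le hbb ?_
    rcases le_total b' a' with hle | hle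
    · exact hFB a' b' A1 A2 t hb' hle hA1 h1' hA2 h2' he
    · have h3 := hFB b' a' A2 A1 t ha' hle hA2 h2' hA1 h1' (by
        rw [mul_comm b' a']
        linarith)
      have h4 := symm h3
      rw [show A2 + A1 + t = A1 + A2 + t by ring] at h4
      exact h4

end Pool.Agent.ICL
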