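import Pool.Agent.ICL.StmtsP

set_option autoImplicit false

namespace Pool.Agent.ICL

namespace M_W2

/-- The convex combination from `a` to `a0`. -/
noncomputable def seg (a a0 r : ℝ) : ℝ := a + r * (a0 - a)

theorem seg_cont (a a0 : ℝ) : Continuous (seg a a0) := by
  unfold seg
  fun_prop

theorem seg_zero (a a0 : ℝ) : seg a a0 0 = a := by
  unfold seg
  ring

theorem seg_one (a a0 : ℝ) : seg a a0 1 = a0 := by
  unfold seg
  ring

theorem seg_pos {a a0 r : ℝ} (ha : 0 < a) (ha0 : 0 ≤ a0) (hr : 0 ≤ r) (hr1 : r < 1) :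
    0 < seg a a0 r := by
  unfold seg
  nlinarith [mul_nonneg hr ha0, mul_pos (sub_pos.2 hr1) ha]

theorem seg_le {a a0 r : ℝ} (h : a0 ≤ a) (hr : 0 ≤ r) : seg a a0 r ≤ a := by
  unfold seg
  nlinarith [mul_nonneg hr (sub_nonneg.2 h)]

theorem le_seg {a a0 r : ℝ} (h : a0 ≤ a) (hr1 : r ≤ 1) : a0 ≤ seg a a0 r := by
  unfold seg
  nlinarith [mul_nonneg (sub_nonneg.2 hr1) (sub_nonneg.2 h)]

/-- The slack of the constraint. -/
noncomputable def G (A1 A2 t a b : ℝ) : ℝ :=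
  Real.sqrt 5 * (a * b) ^ 2 - (t * (a * b) + (A1 * b ^ 2 + A2 * a ^ 2) / 2)

theorem G_cont (A1 A2 t a b a0 b0 : ℝ) :
    Continuous (fun r => G A1 A2 t (seg a a0 r) (seg b b0 r)) := by
  have h1 := seg_cont a a0
  have h2 := seg_cont b b0
  unfold G
  fun_prop

end M_W2

open M_W2 in
theorem t_W2 : Stmt_W2 := by
  intro a b A1 A2 t ha hb hA1 hA1a hA2 hA2b ht hcon
  by_cases hcase : t ≤ (Real.sqrt 5 - 1) * (Real.sqrt A1 * Real.sqrt A2)
  · exact Or.inl hcase
  right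
  rw [not_le] at hcase
  set a0 := Real.sqrt A1 with ha0d
  set b0 := Real.sqrt A2 with hb0d
  have ha0 : 0 ≤ a0 := Real.sqrt_nonneg _
  have hb0 : 0 ≤ b0 := Real.sqrt_nonneg _
  have ha0s : a0 ^ 2 = A1 := Real.sq_sqrt hA1
  have hb0s : b0 ^ 2 = A2 := Real.sq_sqrt hA2
  have ha0a : a0 ≤ a := by
    rw [ha0d]
    exact Real.sqrt_le_iff.2 ⟨ha.le, hA1a⟩
  have hb0b : b0 ≤ b := by
    rw [hb0d]
    exact Real.sqrt_le_iff.2 ⟨hb.le, hA2b⟩
  have h5 : 1 < Real.sqrt 5 := by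
    rw [show (1 : ℝ) = Real.sqrt 1 from Real.sqrt_one.symm]
    exact Real.sqrt_lt_sqrt (by norm_num) (by norm_num)
  have hg0 : 0 ≤ G A1 A2 t (seg a a0 0) (seg b b0 0) := by
    rw [seg_zero, seg_zero]
    unfold G
    linarith
  have hgc := G_cont A1 A2 t a b a0 b0
  have key : ∃ r : ℝ, 0 ≤ r ∧ r < 1 ∧ G A1 A2 t (seg a a0 r) (seg b b0 r) ≤ 0 := by
    by_cases hp : 0 < a0 * b0
    · have hg1 : G A1 A2 t (seg a a0 1) (seg b b0 1) < 0 := by
        rw [seg_one, seg_one]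
        unfold G
        rw [← ha0s, ← hb0s]
        nlinarith [mul_pos hp (sub_pos.2 hcase)]
      obtain ⟨r, ⟨hr0, hr1⟩, hr⟩ := intermediate_value_Icc' (zero_le_one' ℝ) hgc.continuousOn
        (show (0 : ℝ) ∈ Set.Icc _ _ from ⟨hg1.le, hg0⟩)
      refine ⟨r, hr0, lt_of_le_of_ne hr1 ?_, le_of_eq hr⟩
      intro h
      subst h
      linarith
    · have hp0 : a0 * b0 = 0 := le_antisymm (not_lt.1 hp) (mul_nonneg ha0 hb0)
      have ht0 : 0 < t := by
        rw [hp0, mul_zero] at hcase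
        exact hcase
      have hk : ∀ r : ℝ, 0 ≤ r → r < 1 →
          Real.sqrt 5 * (seg a a0 r * seg b b0 r) ≤ t →
          G A1 A2 t (seg a a0 r) (seg b b0 r) ≤ 0 := by
        intro r hr hr1 hle
        have h1 := seg_pos ha ha0 hr hr1
        have h2 := seg_pos hb hb0 hr hr1
        unfold G
        nlinarith [mul_nonneg (mul_pos h1 h2).le (sub_nonneg.2 hle),
          mul_nonneg hA1 (sq_nonneg (seg b b0 r)), mul_nonneg hA2 (sq_nonneg (seg a a0 r))]
      by_cases hk0 : Real.sqrt 5 * (seg a a0 0 * seg b b0 0) ≤ t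
      · exact ⟨0, le_refl _, one_pos, hk 0 (le_refl _) one_pos hk0⟩
      · rw [not_le] at hk0
        have hkc : Continuous (fun r => Real.sqrt 5 * (seg a a0 r * seg b b0 r)) := by
          have h1 := seg_cont a a0
          have h2 := seg_cont b b0
          fun_prop
        have hk1 : Real.sqrt 5 * (seg a a0 1 * seg b b0 1) < t := by
          rw [seg_one, seg_one, hp0, mul_zero]
          exact ht0
        obtain ⟨r, ⟨hr0, hr1⟩, hr⟩ := intermediate_value_Icc' (zero_le_one' ℝ) hkc.continuousOn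
          (show t ∈ Set.Icc _ _ from ⟨hk1.le, hk0.le⟩)
        have hrlt : r < 1 := by
          refine lt_of_le_of_ne hr1 ?_
          intro h
          subst h
          simp only at hr
          linarith
        exact ⟨r, hr0, hrlt, hk r hr0 hrlt (le_of_eq hr)⟩
  obtain ⟨r1, hr10, hr11, hr1g⟩ := key
  obtain ⟨r, ⟨hr0, hr1⟩, hr⟩ := intermediate_value_Icc' hr10 hgc.continuousOn
    (show (0 : ℝ) ∈ Set.Icc _ _ from ⟨hr1g, hg0⟩)
  have hrlt : r < 1 := lt_of_le_of_lt hr1 hr11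
  have hA : a0 ≤ seg a a0 r := le_seg ha0a hrlt.le
  have hB : b0 ≤ seg b b0 r := le_seg hb0b hrlt.le
  refine ⟨seg a a0 r, seg b b0 r, seg_pos ha ha0 hr0 hrlt, seg_le ha0a hr0,
    seg_pos hb hb0 hr0 hrlt, seg_le hb0b hr0, ?_, ?_, ?_⟩
  · rw [← ha0s]
    exact pow_le_pow_left₀ ha0 hA 2
  · rw [← hb0s]
    exact pow_le_pow_left₀ hb0 hB 2
  · simp only [G] at hr
    linarith

end Pool.Agent.ICL
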