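import Pool.Agent.ICL.VA

/-!
# Vertex checks in the region `1/2 ≤ b/a`
-/

set_option autoImplicit false

namespace Pool.Agent.ICL

lemma affine_pos {s R0 R1 : ℝ} (hl : (2236067 / 1000000 : ℝ) ≤ s) (hu : s ≤ (2236068 / 1000000 : ℝ))
    (h1 : 0 ≤ R0 + 2236067 / 1000000 * R1) (h2 : 0 ≤ R0 + 2236068 / 1000000 * R1) : 0 ≤ R0 + s * R1 := by
  have h3 := add_nonneg (mul_nonneg (sub_nonneg.2 hu) h1) (mul_nonneg (sub_nonneg.2 hl) h2)
  have h4 : (2236068 / 1000000 - s) * (R0 + 2236067 / 1000000 * R1) + (s - 2236067 / 1000000) *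
      (R0 + 2236068 / 1000000 * R1) = 1 / 1000000 * (R0 + s * R1) := by ring
  rw [h4] at h3
  linarith

lemma Ap_11 {d s : ℝ} (h5 : s ^ 2 = 5) (hl : (2236067 / 1000000 : ℝ) ≤ s) (hu : s ≤ (2236068 / 1000000 : ℝ))
    (h1 : -(1 / 3) ≤ d) (h2 : d ≤ 1 / 3) :
    (7 * s - 15) * ((1 + 169 / 200 * d ^ 2) * (1 * (1 + d) ^ 2 + 1 * (1 - d) ^ 2 + (s - 1) * ((1 + d) * (1 - d)))) ^ 4
      ≤ (2 + 13 / 5 * ((3 - s) / 4) * d ^ 2) ^ 2 *
        (1 * (1 + d) ^ 2 * ((29 / 10 * s - 57 / 10) * ((1 + 169 / 200 * d ^ 2) * (1 * (1 + d) ^ 2 + 1 * (1 - d) ^ 2 + (s - 1) * ((1 + d) * (1 - d)))) ^ 2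
            + (23 / 10 * s - 43 / 10) * ((2 + 13 / 5 * ((3 - s) / 4) * d ^ 2) * (1 * (1 + d))) * ((1 + 169 / 200 * d ^ 2) * (1 * (1 + d) ^ 2 + 1 * (1 - d) ^ 2 + (s - 1) * ((1 + d) * (1 - d))))
            - 13 / 10 * ((2 + 13 / 5 * ((3 - s) / 4) * d ^ 2) * (1 * (1 + d))) ^ 2)
          + 1 * (1 - d) ^ 2 * ((29 / 10 * s - 57 / 10) * ((1 + 169 / 200 * d ^ 2) * (1 * (1 + d) ^ 2 + 1 * (1 - d) ^ 2 + (s - 1) * ((1 + d) * (1 - d)))) ^ 2
            + (23 / 10 * s - 43 / 10) * ((2 + 13 / 5 * ((3 - s) / 4) * d ^ 2) * (1 * (1 - d))) * ((1 + 169 / 200 * d ^ 2) * (1 * (1 + d) ^ 2 + 1 * (1 - d) ^ 2 + (s - 1) * ((1 + d) * (1 - d))))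
            - 13 / 10 * ((2 + 13 / 5 * ((3 - s) / 4) * d ^ 2) * (1 * (1 - d))) ^ 2)
          + (1 + 169 / 200 * d ^ 2) * (1 * (1 + d) ^ 2 + 1 * (1 - d) ^ 2 + (s - 1) * ((1 + d) * (1 - d))) ^ 2 * (((s - 1) * ((1 + d) * (1 - d)) - 1 * (1 + d) ^ 2) * ((3 - s) / 4 - 13 / 10 * d)
            + ((s - 1) * ((1 + d) * (1 - d)) - 1 * (1 - d) ^ 2) * ((3 - s) / 4 + 13 / 10 * d))) := by
  have blo : ∀ A B : ℝ, 0 ≤ A → 0 ≤ B → 0 ≤ (2372445848848779 / 12500000) * B ^ 7 + (3473287029430470063 / 2500000000) * A ^ 1 * B ^ 6 + (1087087521342331128339 / 250000000000) * A ^ 2 * B ^ 5 + (377204498148227414696433 / 50000000000000) * A ^ 3 * B ^ 4 + (97953197929132400777079 / 12500000000000) * A ^ 4 * B ^ 3 + (30460712185657337959089 / 6250000000000) * A ^ 5 * B ^ 2 + (5251840612911377279199 / 3125000000000) * A ^ 6 * B ^ 1 + (1549199119917637151341 / 6250000000000) * A ^ 7 := by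
    intro A B hA hB
    positivity
  have bhi : ∀ A B : ℝ, 0 ≤ A → 0 ≤ B → 0 ≤ (593111310352929 / 3125000) * B ^ 7 + (868321290304547613 / 625000000) * A ^ 1 * B ^ 6 + (271771683985449888489 / 62500000000) * A ^ 2 * B ^ 5 + (94301048541577333998483 / 12500000000000) * A ^ 3 * B ^ 4 + (24488280302562552236229 / 3125000000000) * A ^ 4 * B ^ 3 + (7615173105300675356739 / 1562500000000) * A ^ 5 * B ^ 2 + (1312959632712411800349 / 781250000000) * A ^ 6 * B ^ 1 + (387299772582484759191 / 1562500000000) * A ^ 7 := by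
    intro A B hA hB
    positivity
  have hA : 0 ≤ d ^ 2 := sq_nonneg d
  have hB : 0 ≤ 1 / 9 - d ^ 2 := by nlinarith
  have plo : 0 ≤ ((312 / 5) * d ^ 2 + (22841037 / 12500) * d ^ 4 + (-(3052457077 / 250000)) * d ^ 6 + (-(25619295379 / 625000)) * d ^ 8 + (-(38030340569 / 1250000)) * d ^ 10 + (3180467277 / 312500) * d ^ 12 + (3045716479 / 156250) * d ^ 14 + (7341576489 / 1250000) * d ^ 16) + 2236067 / 1000000 * ((-(254 / 25)) * d ^ 2 + (-(1915171 / 2500)) * d ^ 4 + (1361636433 / 250000) * d ^ 6 + (913903129459 / 50000000) * d ^ 8 + (84842836611 / 6250000) * d ^ 10 + (-(113992006297 / 25000000)) * d ^ 12 + (-(54489846801 / 6250000)) * d ^ 14 + (-(131332646081 / 50000000)) * d ^ 16) :=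
    le_of_le_of_eq (mul_nonneg (pow_nonneg hA 1) (blo (d ^ 2) (1 / 9 - d ^ 2) hA hB)) (by ring)
  have phi : 0 ≤ ((312 / 5) * d ^ 2 + (22841037 / 12500) * d ^ 4 + (-(3052457077 / 250000)) * d ^ 6 + (-(25619295379 / 625000)) * d ^ 8 + (-(38030340569 / 1250000)) * d ^ 10 + (3180467277 / 312500) * d ^ 12 + (3045716479 / 156250) * d ^ 14 + (7341576489 / 1250000) * d ^ 16) + 2236068 / 1000000 * ((-(254 / 25)) * d ^ 2 + (-(1915171 / 2500)) * d ^ 4 + (1361636433 / 250000) * d ^ 6 + (913903129459 / 50000000) * d ^ 8 + (84842836611 / 6250000) * d ^ 10 + (-(113992006297 / 25000000)) * d ^ 12 + (-(54489846801 / 6250000)) * d ^ 14 + (-(131332646081 / 50000000)) * d ^ 16) :=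
    le_of_le_of_eq (mul_nonneg (pow_nonneg hA 1) (bhi (d ^ 2) (1 / 9 - d ^ 2) hA hB)) (by ring)
  have hR := affine_pos hl hu plo phi
  rw [← sub_nonneg]
  refine le_of_le_of_eq hR ?_
  linear_combination (-((153 / 5) + (61 / 5) * s + (-15) * s ^ 2 + (-7) * s ^ 3 + (37141 / 125) * d ^ 2 + (-(35621 / 500)) * d ^ 2 * s + (-(12251 / 100)) * d ^ 2 * s ^ 2 + (141 / 25) * d ^ 2 * s ^ 3 + (127364097 / 100000) * d ^ 4 + (-(51241061 / 50000)) * d ^ 4 * s + (36961 / 10000) * d ^ 4 * s ^ 2 + (60503 / 2500) * d ^ 4 * s ^ 3 + (-(169 / 800)) * d ^ 4 * s ^ 4 + (-(158616289 / 125000)) * d ^ 6 + (-(5108370139 / 4000000)) * d ^ 6 * s + (1592843073 / 4000000) * d ^ 6 * s ^ 2 + (-(60921021 / 4000000)) * d ^ 6 * s ^ 3 + (72839 / 160000) * d ^ 6 * s ^ 4 + (-(12901380534503 / 1600000000)) * d ^ 8 + (2083170350643 / 1600000000) * d ^ 8 * s + (245874078887 / 1600000000) * d ^ 8 * s ^ 2 + (-(51808634027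 / 1600000000)) * d ^ 8 * s ^ 3 + (-(15717 / 160000)) * d ^ 8 * s ^ 4 + (-(1477803986503 / 200000000)) * d ^ 10 + (523634693829 / 200000000) * d ^ 10 * s + (-(14610998259 / 40000000)) * d ^ 10 * s ^ 2 + (2023463871 / 200000000) * d ^ 10 * s ^ 3 + (-(51883 / 160000)) * d ^ 10 * s ^ 4 + (434684510793 / 800000000) * d ^ 12 + (460768529507 / 800000000) * d ^ 12 * s + (-(171176383521 / 800000000)) * d ^ 12 * s ^ 2 + (15271823749 / 800000000) * d ^ 12 * s ^ 3 + (28561 / 160000) * d ^ 12 * s ^ 4 + (6405175543 / 2000000) * d ^ 14 + (-(1114992879 / 1562500)) * d ^ 14 * s + (1742478049 / 25000000) * d ^ 14 * s ^ 2 + (-(43441281 / 50000000)) * d ^ 14 * s ^ 3 + (1681221015981 / 1600000000) * d ^ 16 + (-(483728317553 / 1600000000)) * d ^ 16 * s + (80757341379 / 1600000000) * d ^ 16 * s ^ 2 + (-(5710115047 / 1600000000)) * d ^ 16 * s ^ 3)) * h5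

lemma Az1_11 {d s : ℝ} (h5 : s ^ 2 = 5) (hl : (2236067 / 1000000 : ℝ) ≤ s) (hu : s ≤ (2236068 / 1000000 : ℝ))
    (h1 : -(1 / 3) ≤ d) (h2 : d ≤ 1 / 3) :
    (2 + 13 / 5 * ((3 - s) / 4) * d ^ 2) * (1 * (1 + d))
      ≤ 838 / 1000 * ((1 + 169 / 200 * d ^ 2) * (1 * (1 + d) ^ 2 + 1 * (1 - d) ^ 2 + (s - 1) * ((1 + d) * (1 - d)))) := by
  have blo : ∀ A B : ℝ, 0 ≤ A → 0 ≤ B → 0 ≤ (1695054637987 / 200000000000) * B ^ 4 + (8337197255437 / 400000000000) * A ^ 1 * B ^ 3 + (3817002900039 / 200000000000) * A ^ 2 * B ^ 2 + (3086164190437 / 400000000000) * A ^ 3 * B ^ 1 + (307812904237 / 200000000000) * A ^ 4 := by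
    intro A B hA hB
    positivity
  have bhi : ∀ A B : ℝ, 0 ≤ A → 0 ≤ B → 0 ≤ (423763877937 / 50000000000) * B ^ 4 + (2084301052887 / 100000000000) * A ^ 1 * B ^ 3 + (954251955189 / 50000000000) * A ^ 2 * B ^ 2 + (771542737887 / 100000000000) * A ^ 3 * B ^ 1 + (76953456687 / 50000000000) * A ^ 4 := by
    intro A B hA hB
    positivity
  have hA : 0 ≤ d + 1 / 3 := by linarith
  have hB : 0 ≤ 1 / 3 - d := by linarith
  have plo : 0 ≤ ((-(581 / 500)) + (-2) * d ^ 1 + (127211 / 100000) * d ^ 2 + (-(39 / 20)) * d ^ 3 + (212433 / 100000) * d ^ 4) + 2236067 / 1000000 * ((419 / 500) + (52011 / 100000) * d ^ 2 + (13 / 20) * d ^ 3 + (-(70811 / 100000)) * d ^ 4) :=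
    le_of_le_of_eq (blo (d + 1 / 3) (1 / 3 - d) hA hB) (by ring)
  have phi : 0 ≤ ((-(581 / 500)) + (-2) * d ^ 1 + (127211 / 100000) * d ^ 2 + (-(39 / 20)) * d ^ 3 + (212433 / 100000) * d ^ 4) + 2236068 / 1000000 * ((419 / 500) + (52011 / 100000) * d ^ 2 + (13 / 20) * d ^ 3 + (-(70811 / 100000)) * d ^ 4) :=
    le_of_le_of_eq (bhi (d + 1 / 3) (1 / 3 - d) hA hB) (by ring)
  have hR := affine_pos hl hu plo phi
  rw [← sub_nonneg]
  refine le_of_le_of_eq hR ?_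
  linear_combination (-(0)) * h5

lemma Az2_11 {d s : ℝ} (h5 : s ^ 2 = 5) (hl : (2236067 / 1000000 : ℝ) ≤ s) (hu : s ≤ (2236068 / 1000000 : ℝ))
    (h1 : -(1 / 3) ≤ d) (h2 : d ≤ 1 / 3) :
    (2 + 13 / 5 * ((3 - s) / 4) * d ^ 2) * (1 * (1 - d))
      ≤ 838 / 1000 * ((1 + 169 / 200 * d ^ 2) * (1 * (1 + d) ^ 2 + 1 * (1 - d) ^ 2 + (s - 1) * ((1 + d) * (1 - d)))) := by
  have blo : ∀ A B : ℝ, 0 ≤ A → 0 ≤ B → 0 ≤ (307812904237 / 200000000000) * B ^ 4 + (3086164190437 / 400000000000) * A ^ 1 * B ^ 3 + (3817002900039 / 200000000000) * A ^ 2 * B ^ 2 + (8337197255437 / 400000000000) * A ^ 3 * B ^ 1 + (1695054637987 / 200000000000) * A ^ 4 := by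
    intro A B hA hB
    positivity
  have bhi : ∀ A B : ℝ, 0 ≤ A → 0 ≤ B → 0 ≤ (76953456687 / 50000000000) * B ^ 4 + (771542737887 / 100000000000) * A ^ 1 * B ^ 3 + (954251955189 / 50000000000) * A ^ 2 * B ^ 2 + (2084301052887 / 100000000000) * A ^ 3 * B ^ 1 + (423763877937 / 50000000000) * A ^ 4 := by
    intro A B hA hB
    positivity
  have hA : 0 ≤ d + 1 / 3 := by linarith
  have hB : 0 ≤ 1 / 3 - d := by linarith
  have plo : 0 ≤ ((-(581 / 500)) + 2 * d ^ 1 + (127211 / 100000) * d ^ 2 + (39 / 20) * d ^ 3 + (212433 / 100000) * d ^ 4) + 2236067 / 1000000 * ((419 / 500) + (52011 / 100000) * d ^ 2 + (-(13 / 20)) * d ^ 3 + (-(70811 / 100000)) * d ^ 4) :=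
    le_of_le_of_eq (blo (d + 1 / 3) (1 / 3 - d) hA hB) (by ring)
  have phi : 0 ≤ ((-(581 / 500)) + 2 * d ^ 1 + (127211 / 100000) * d ^ 2 + (39 / 20) * d ^ 3 + (212433 / 100000) * d ^ 4) + 2236068 / 1000000 * ((419 / 500) + (52011 / 100000) * d ^ 2 + (-(13 / 20)) * d ^ 3 + (-(70811 / 100000)) * d ^ 4) :=
    le_of_le_of_eq (bhi (d + 1 / 3) (1 / 3 - d) hA hB) (by ring)
  have hR := affine_pos hl hu plo phi
  rw [← sub_nonneg]
  refine le_of_le_of_eq hR ?_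
  linear_combination (-(0)) * h5

lemma A_11 {d : ℝ} (h1 : -(1 / 3) ≤ d) (h2 : d ≤ 1 / 3) :
    Good (1 + d) (1 - d) (C1A d) (S1A d) (C2A d) (S2A d) (1 * (1 + d) ^ 2) (1 * (1 - d) ^ 2)
      (1 * (1 + d) ^ 2 + 1 * (1 - d) ^ 2 + (Real.sqrt 5 - 1) * ((1 + d) * (1 - d)))
      ((Real.sqrt 5 - 1) * ((1 + d) * (1 - d)) - 1 * (1 + d) ^ 2)
      ((Real.sqrt 5 - 1) * ((1 + d) * (1 - d)) - 1 * (1 - d) ^ 2) := by
  have hab : 0 < (1 + d) * (1 - d) := mul_pos (by linarith) (by linarith)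
  have ht : 0 < (Real.sqrt 5 - 1) := by
    have := sqrt5_lb
    linarith
  exact good_hat h1 h2 (by norm_num) (by norm_num) (by positivity)
    (Az1_11 sqrt5_sq sqrt5_lb sqrt5_ub h1 h2) (Az2_11 sqrt5_sq sqrt5_lb sqrt5_ub h1 h2)
    (Ap_11 sqrt5_sq sqrt5_lb sqrt5_ub h1 h2)

end Pool.Agent.ICL
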