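import Pool.Agent.ICL.Stmts

/-!
# Area of an icosahedron with two opposite vertex links in parallel planes: Minkowski
-/

set_option autoImplicit false

namespace Pool.Agent.ICL

open Pool.Agent.Results.MP_fa01f0_gt.CentrallySymmetric

open scoped RealInnerProductSpace

namespace M_AREA

lemma triArea_coord (x y z : E3) :
    triArea x y z = 1 / 2 * Real.sqrt (((y 0 - x 0) * (z 1 - x 1) - (y 1 - x 1) * (z 0 - x 0)) ^ 2
      + ((y 1 - x 1) * (z 2 - x 2) - (y 2 - x 2) * (z 1 - x 1)) ^ 2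
      + ((y 2 - x 2) * (z 0 - x 0) - (y 0 - x 0) * (z 2 - x 2)) ^ 2) := by
  have h1 : ∀ a b : E3, ⟪a, b⟫ = a 0 * b 0 + a 1 * b 1 + a 2 * b 2 := by
    intro a b
    rw [PiLp.inner_apply]
    simp [Fin.sum_univ_three, mul_comm]
  have h2 : ∀ a : E3, ‖a‖ ^ 2 = a 0 * a 0 + a 1 * a 1 + a 2 * a 2 := by
    intro a
    rw [← h1, real_inner_self_eq_norm_sq]
  unfold triArea
  rw [h2, h2, h1]
  simp only [PiLp.sub_apply]
  congr 2
  ring

lemma triArea_rot (x y z : E3) : triArea x y z = triArea y z x := by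
  rw [triArea_coord, triArea_coord]
  congr 2
  ring

lemma triArea_swap (x y z : E3) : triArea x y z = triArea x z y := by
  rw [triArea_coord, triArea_coord]
  congr 2
  ring

lemma triArea_flat (A U V : E3) (z : ℝ) (hU : U 2 = z) (hV : V 2 = z) :
    triArea A U V = Real.sqrt ((1 / 2 * ((U 0 - A 0) * (V 1 - A 1) - (V 0 - A 0) * (U 1 - A 1))) ^ 2
      + ((A 2 - z) * (Real.sqrt ((V 0 - U 0) ^ 2 + (V 1 - U 1) ^ 2) / 2)) ^ 2) := by
  rw [triArea_coord, hU, hV]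
  have h3 : (1 / 2 : ℝ) = Real.sqrt ((1 / 2) ^ 2) := (Real.sqrt_sq (by norm_num)).symm
  conv_lhs => rw [h3]
  rw [← Real.sqrt_mul (by positivity)]
  congr 1
  rw [mul_pow (A 2 - z), div_pow (Real.sqrt _), Real.sq_sqrt (by positivity)]
  ring

lemma mink {ι : Type} (s : Finset ι) (a b : ι → ℝ) :
    Real.sqrt ((∑ k ∈ s, a k) ^ 2 + (∑ k ∈ s, b k) ^ 2)
      ≤ ∑ k ∈ s, Real.sqrt (a k ^ 2 + b k ^ 2) := by
  have h : ∀ u v : ℝ, Real.sqrt (u ^ 2 + v ^ 2) = ‖(⟨u, v⟩ : ℂ)‖ := by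
    intro u v
    rw [Complex.norm_def, Complex.normSq_mk, sq, sq]
  have hs : (⟨∑ k ∈ s, a k, ∑ k ∈ s, b k⟩ : ℂ) = ∑ k ∈ s, (⟨a k, b k⟩ : ℂ) := by
    apply Complex.ext
    · rw [Complex.re_sum]
    · rw [Complex.im_sum]
  rw [h, hs]
  simp only [h]
  exact norm_sum_le _ _

/-- One group of five triangles. -/
lemma group (A U : Fin 5 → E3) (z a : ℝ) (hU : ∀ k, U k 2 = z) (hA : ∀ k, A k 2 = a)
    (x y : Fin 5 → ℝ) (hx : ∀ k, x k = U k 0) (hy : ∀ k, y k = U k 1) (S : ℝ)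
    (hS : ∑ k, (1 / 2 * ((x k - A k 0) * (y (k + 1) - A k 1)
      - (x (k + 1) - A k 0) * (y k - A k 1))) = S) :
    Real.sqrt (S ^ 2 + ((a - z) * (Pe x y / 2)) ^ 2) ≤ ∑ k, triArea (A k) (U k) (U (k + 1)) := by
  have h := mink Finset.univ (fun k => 1 / 2 * ((x k - A k 0) * (y (k + 1) - A k 1)
      - (x (k + 1) - A k 0) * (y k - A k 1)))
    (fun k => (a - z) * (Real.sqrt ((x (k + 1) - x k) ^ 2 + (y (k + 1) - y k) ^ 2) / 2))
  rw [hS, ← Finset.mul_sum, ← Finset.sum_div] at h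
  refine h.trans (le_of_eq ?_)
  refine Finset.sum_congr rfl fun k _ => ?_
  rw [triArea_flat _ _ _ z (hU k) (hU (k + 1)), hx, hy, hx, hy, hA]

lemma area_groups (w : Fin 12 → E3) :
    area w = ∑ k, triArea (w 0) (w (iu k)) (w (iu (k + 1)))
      + ∑ k, triArea (w 6) (w (il k)) (w (il (k + 1)))
      + ∑ k, triArea (w (il k)) (w (iu k)) (w (iu (k + 1)))
      + ∑ k, triArea (w (iu (k + 1))) (w (il k)) (w (il (k + 1))) := by
  have hL : area w = triArea (w 0) (w 2) (w 4) + triArea (w 6) (w 9) (w 5)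
      + triArea (w 1) (w 8) (w 11) + triArea (w 7) (w 3) (w 10) + triArea (w 1) (w 0) (w 4)
      + triArea (w 0) (w 1) (w 11) + triArea (w 3) (w 2) (w 0) + triArea (w 2) (w 3) (w 7)
      + triArea (w 5) (w 4) (w 2) + triArea (w 4) (w 5) (w 9) + triArea (w 6) (w 10) (w 8)
      + triArea (w 0) (w 11) (w 3) + triArea (w 7) (w 5) (w 2) + triArea (w 1) (w 4) (w 9)
      + triArea (w 7) (w 10) (w 6) + triArea (w 6) (w 5) (w 7) + triArea (w 9) (w 6) (w 8)
      + triArea (w 8) (w 1) (w 9) + triArea (w 11) (w 8) (w 10) + triArea (w 10) (w 3) (w 11) := by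
    unfold area
    simp only [Fin.sum_univ_succ, Fin.sum_univ_zero]
    simp only [add_assoc, add_zero]
    rfl
  have hR1 : ∑ k, triArea (w 0) (w (iu k)) (w (iu (k + 1))) = triArea (w 0) (w 2) (w 4)
      + triArea (w 0) (w 4) (w 1) + triArea (w 0) (w 1) (w 11) + triArea (w 0) (w 11) (w 3)
      + triArea (w 0) (w 3) (w 2) := by
    rw [Fin.sum_univ_five]; rfl
  have hR2 : ∑ k, triArea (w 6) (w (il k)) (w (il (k + 1))) = triArea (w 6) (w 5) (w 9)
      + triArea (w 6) (w 9) (w 8) + triArea (w 6) (w 8) (w 10) + triArea (w 6) (w 10) (w 7)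
      + triArea (w 6) (w 7) (w 5) := by
    rw [Fin.sum_univ_five]; rfl
  have hR3 : ∑ k, triArea (w (il k)) (w (iu k)) (w (iu (k + 1))) = triArea (w 5) (w 2) (w 4)
      + triArea (w 9) (w 4) (w 1) + triArea (w 8) (w 1) (w 11) + triArea (w 10) (w 11) (w 3)
      + triArea (w 7) (w 3) (w 2) := by
    rw [Fin.sum_univ_five]; rfl
  have hR4 : ∑ k, triArea (w (iu (k + 1))) (w (il k)) (w (il (k + 1)))
      = triArea (w 4) (w 5) (w 9) + triArea (w 1) (w 9) (w 8) + triArea (w 11) (w 8) (w 10)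
      + triArea (w 3) (w 10) (w 7) + triArea (w 2) (w 7) (w 5) := by
    rw [Fin.sum_univ_five]; rfl
  rw [hL, hR1, hR2, hR3, hR4]
  rw [triArea_swap (w 6) (w 9) (w 5), triArea_rot (w 1) (w 8) (w 11),
    triArea_swap (w 8) (w 11) (w 1), triArea_rot (w 7) (w 3) (w 10), triArea_rot (w 1) (w 0) (w 4),
    triArea_rot (w 3) (w 2) (w 0), triArea_rot (w 2) (w 0) (w 3), triArea_rot (w 2) (w 3) (w 7),
    triArea_rot (w 3) (w 7) (w 2), triArea_swap (w 7) (w 2) (w 3), triArea_swap (w 5) (w 4) (w 2),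
    triArea_swap (w 6) (w 10) (w 8), triArea_rot (w 7) (w 5) (w 2), triArea_rot (w 5) (w 2) (w 7),
    triArea_rot (w 1) (w 4) (w 9), triArea_rot (w 4) (w 9) (w 1), triArea_swap (w 9) (w 1) (w 4),
    triArea_rot (w 7) (w 10) (w 6), triArea_rot (w 10) (w 6) (w 7), triArea_swap (w 6) (w 7) (w 10),
    triArea_swap (w 6) (w 5) (w 7), triArea_rot (w 9) (w 6) (w 8), triArea_swap (w 6) (w 8) (w 9),
    triArea_rot (w 8) (w 1) (w 9), triArea_swap (w 1) (w 9) (w 8), triArea_swap (w 10) (w 3) (w 11)]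
  ring

end M_AREA

open M_AREA in
theorem t_AREA : Stmt_AREA := by
  intro w zu zl hu hl x y x' y' hx hy hx' hy'
  rw [area_groups]
  have g1 := group (fun _ => w 0) (fun k => w (iu k)) zu (w 0 2) hu (fun _ => rfl) x y hx hy
    (Fa x y) (by
      unfold Fa
      rw [Fin.sum_univ_five, Fin.sum_univ_five]
      simp only [Fin.reduceAdd, Fin.isValue]
      ring)
  have g2 := group (fun _ => w 6) (fun k => w (il k)) zl (w 6 2) hl (fun _ => rfl) x' y' hx' hy'
    (Fa x' y') (by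
      unfold Fa
      rw [Fin.sum_univ_five, Fin.sum_univ_five]
      simp only [Fin.reduceAdd, Fin.isValue]
      ring)
  have g3 := group (fun k => w (il k)) (fun k => w (iu k)) zu zl hu hl x y hx hy
    (Fa x y - Wa x y x' y') (by
      simp only [← hx', ← hy']
      unfold Fa Wa
      rw [Fin.sum_univ_five, Fin.sum_univ_five, Fin.sum_univ_five]
      simp only [Fin.reduceAdd, Fin.isValue]
      ring)
  have g4 := group (fun k => w (iu (k + 1))) (fun k => w (il k)) zl zu hl (fun k => hu (k + 1))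
    x' y' hx' hy' (Fa x' y' - Wa x y x' y') (by
      simp only [← hx, ← hy]
      unfold Fa Wa
      rw [Fin.sum_univ_five, Fin.sum_univ_five, Fin.sum_univ_five]
      simp only [Fin.reduceAdd, Fin.isValue]
      ring)
  have e2 : Fa x' y' ^ 2 + ((zl - w 6 2) * (Pe x' y' / 2)) ^ 2
      = Fa x' y' ^ 2 + ((w 6 2 - zl) * (Pe x' y' / 2)) ^ 2 := by ring
  have e3 : (Wa x y x' y' - Fa x y) ^ 2 + ((zu - zl) * (Pe x y / 2)) ^ 2
      = (Fa x y - Wa x y x' y') ^ 2 + ((zl - zu) * (Pe x y / 2)) ^ 2 := by ring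
  have e4 : (Wa x y x' y' - Fa x' y') ^ 2 + ((zu - zl) * (Pe x' y' / 2)) ^ 2
      = (Fa x' y' - Wa x y x' y') ^ 2 + ((zu - zl) * (Pe x' y' / 2)) ^ 2 := by ring
  rw [e2, e3, e4]
  linarith

end Pool.Agent.ICL
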