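import Pool.Agent.ICL.StmtsP

set_option autoImplicit false

namespace Pool.Agent.ICL

namespace M_CON

theorem s5 : Real.sqrt 5 ^ 2 = 5 := Real.sq_sqrt (by norm_num)

theorem s5pos : 0 < Real.sqrt 5 := Real.sqrt_pos.mpr (by norm_num)

theorem s5lt : Real.sqrt 5 < 5 := by
  have h := s5
  have h2 := s5pos
  nlinarith

theorem cspos : 0 < cs := by
  unfold cs
  have := s5pos
  linarith

theorem snpos : 0 < sn := by
  unfold sn
  apply Real.sqrt_pos.mpr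
  have := s5lt
  linarith

theorem csid : 1 + cs = Real.sqrt 5 * cs := by
  unfold cs
  have := s5
  nlinarith

theorem Fa_neg {n : ℕ} [NeZero n] (x y : Fin n → ℝ) : Fa x (fun k => - y k) = - Fa x y := by
  unfold Fa
  rw [← mul_neg, ← Finset.sum_neg_distrib]
  congr 1
  apply Finset.sum_congr rfl
  intro k _
  ring

theorem Pe_neg {n : ℕ} [NeZero n] (x y : Fin n → ℝ) : Pe x (fun k => - y k) = Pe x y := by
  unfold Pe
  apply Finset.sum_congr rfl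
  intro k _
  congr 1
  ring

theorem Fa_neg' {n : ℕ} [NeZero n] (x y : Fin n → ℝ) : Fa (fun k => - x k) y = - Fa x y := by
  unfold Fa
  rw [← mul_neg, ← Finset.sum_neg_distrib]
  congr 1
  apply Finset.sum_congr rfl
  intro k _
  ring

theorem Pe_neg' {n : ℕ} [NeZero n] (x y : Fin n → ℝ) : Pe (fun k => - x k) y = Pe x y := by
  unfold Pe
  apply Finset.sum_congr rfl
  intro k _
  congr 1
  ring

theorem Pe_nonneg {n : ℕ} [NeZero n] (x y : Fin n → ℝ) : 0 ≤ Pe x y :=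
  Finset.sum_nonneg (fun _ _ => Real.sqrt_nonneg _)

theorem Pe_zero {n : ℕ} [NeZero n] (x y : Fin n → ℝ) (h : Pe x y = 0) :
    ∀ k, x (k + 1) = x k ∧ y (k + 1) = y k := by
  intro k
  unfold Pe at h
  have h1 := (Finset.sum_eq_zero_iff_of_nonneg (fun _ _ => Real.sqrt_nonneg _)).mp h k
    (Finset.mem_univ k)
  have h2 : (x (k + 1) - x k) ^ 2 + (y (k + 1) - y k) ^ 2 = 0 := by
    have h3 : 0 ≤ (x (k + 1) - x k) ^ 2 + (y (k + 1) - y k) ^ 2 := by positivity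
    exact (Real.sqrt_eq_zero h3).mp h1
  have h4 : (x (k + 1) - x k) ^ 2 = 0 := by
    nlinarith [sq_nonneg (x (k + 1) - x k), sq_nonneg (y (k + 1) - y k)]
  have h5 : (y (k + 1) - y k) ^ 2 = 0 := by
    nlinarith [sq_nonneg (x (k + 1) - x k), sq_nonneg (y (k + 1) - y k)]
  have h6 := pow_eq_zero_iff (n := 2) (by norm_num) |>.mp h4
  have h7 := pow_eq_zero_iff (n := 2) (by norm_num) |>.mp h5
  exact ⟨by linarith, by linarith⟩

/-- the sum polygon -/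
noncomputable def zz (X Y : ℝ) (x x' : Fin 5 → ℝ) : Fin 10 → ℝ :=
  ![X * x 0 + Y * x' 4, X * x 0 + Y * x' 0, X * x 1 + Y * x' 0, X * x 1 + Y * x' 1,
    X * x 2 + Y * x' 1, X * x 2 + Y * x' 2, X * x 3 + Y * x' 2, X * x 3 + Y * x' 3,
    X * x 4 + Y * x' 3, X * x 4 + Y * x' 4]

theorem sum10 (f : Fin 10 → ℝ) : ∑ k, f k = f 0 + f 1 + f 2 + f 3 + f 4 + f 5 + f 6 + f 7 + f 8 + f 9 := by
  simp [Fin.sum_univ_succ]
  ring_nf

theorem sum5 (f : Fin 5 → ℝ) : ∑ k, f k = f 0 + f 1 + f 2 + f 3 + f 4 := by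
  simp [Fin.sum_univ_succ]
  ring_nf

theorem a5 : ((0 : Fin 5) + 1 = 1) ∧ ((1 : Fin 5) + 1 = 2) ∧ ((2 : Fin 5) + 1 = 3) ∧
    ((3 : Fin 5) + 1 = 4) ∧ ((4 : Fin 5) + 1 = 0) := by decide

theorem a10 : ((0 : Fin 10) + 1 = 1) ∧ ((1 : Fin 10) + 1 = 2) ∧ ((2 : Fin 10) + 1 = 3) ∧
    ((3 : Fin 10) + 1 = 4) ∧ ((4 : Fin 10) + 1 = 5) ∧ ((5 : Fin 10) + 1 = 6) ∧
    ((6 : Fin 10) + 1 = 7) ∧ ((7 : Fin 10) + 1 = 8) ∧ ((8 : Fin 10) + 1 = 9) ∧
    ((9 : Fin 10) + 1 = 0) := by decide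

theorem zz0 (X Y : ℝ) (x x' : Fin 5 → ℝ) : zz X Y x x' 0 = X * x 0 + Y * x' 4 := rfl
theorem zz1 (X Y : ℝ) (x x' : Fin 5 → ℝ) : zz X Y x x' 1 = X * x 0 + Y * x' 0 := rfl
theorem zz2 (X Y : ℝ) (x x' : Fin 5 → ℝ) : zz X Y x x' 2 = X * x 1 + Y * x' 0 := rfl
theorem zz3 (X Y : ℝ) (x x' : Fin 5 → ℝ) : zz X Y x x' 3 = X * x 1 + Y * x' 1 := rfl
theorem zz4 (X Y : ℝ) (x x' : Fin 5 → ℝ) : zz X Y x x' 4 = X * x 2 + Y * x' 1 := rfl
theorem zz5 (X Y : ℝ) (x x' : Fin 5 → ℝ) : zz X Y x x' 5 = X * x 2 + Y * x' 2 := rfl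
theorem zz6 (X Y : ℝ) (x x' : Fin 5 → ℝ) : zz X Y x x' 6 = X * x 3 + Y * x' 2 := rfl
theorem zz7 (X Y : ℝ) (x x' : Fin 5 → ℝ) : zz X Y x x' 7 = X * x 3 + Y * x' 3 := rfl
theorem zz8 (X Y : ℝ) (x x' : Fin 5 → ℝ) : zz X Y x x' 8 = X * x 4 + Y * x' 3 := rfl
theorem zz9 (X Y : ℝ) (x x' : Fin 5 → ℝ) : zz X Y x x' 9 = X * x 4 + Y * x' 4 := rfl

theorem Fa_zz (X Y : ℝ) (x y x' y' : Fin 5 → ℝ) :
    Fa (zz X Y x x') (zz X Y y y') = X ^ 2 * Fa x y + Y ^ 2 * Fa x' y' + 2 * X * Y * Wa x y x' y' := by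
  unfold Fa Wa
  rw [sum10, sum5, sum5, sum5]
  obtain ⟨p0, p1, p2, p3, p4⟩ := a5
  obtain ⟨q0, q1, q2, q3, q4, q5, q6, q7, q8, q9⟩ := a10
  simp only [p0, p1, p2, p3, p4, q0, q1, q2, q3, q4, q5, q6, q7, q8, q9, zz0, zz1, zz2, zz3, zz4, zz5,
    zz6, zz7, zz8, zz9]
  ring

theorem sq_scal (X u v : ℝ) (hX : 0 ≤ X) :
    Real.sqrt ((X * u) ^ 2 + (X * v) ^ 2) = X * Real.sqrt (u ^ 2 + v ^ 2) := by
  have h : (X * u) ^ 2 + (X * v) ^ 2 = X ^ 2 * (u ^ 2 + v ^ 2) := by ring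
  rw [h, Real.sqrt_mul (by positivity), Real.sqrt_sq hX]

theorem Pe_zz (X Y : ℝ) (hX : 0 ≤ X) (hY : 0 ≤ Y) (x y x' y' : Fin 5 → ℝ) :
    Pe (zz X Y x x') (zz X Y y y') = X * Pe x y + Y * Pe x' y' := by
  unfold Pe
  rw [sum10, sum5, sum5]
  obtain ⟨p0, p1, p2, p3, p4⟩ := a5
  obtain ⟨q0, q1, q2, q3, q4, q5, q6, q7, q8, q9⟩ := a10
  simp only [p0, p1, p2, p3, p4, q0, q1, q2, q3, q4, q5, q6, q7, q8, q9, zz0, zz1, zz2, zz3, zz4, zz5,
    zz6, zz7, zz8, zz9]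
  have eX : ∀ a b c a2 b2 c2 : ℝ, Real.sqrt ((X * b + Y * a - (X * c + Y * a)) ^ 2 +
      (X * b2 + Y * a2 - (X * c2 + Y * a2)) ^ 2) = X * Real.sqrt ((b - c) ^ 2 + (b2 - c2) ^ 2) := by
    intro a b c a2 b2 c2
    rw [← sq_scal X (b - c) (b2 - c2) hX]
    congr 1
    ring
  have eY : ∀ a b c a2 b2 c2 : ℝ, Real.sqrt ((X * a + Y * b - (X * a + Y * c)) ^ 2 +
      (X * a2 + Y * b2 - (X * a2 + Y * c2)) ^ 2) = Y * Real.sqrt ((b - c) ^ 2 + (b2 - c2) ^ 2) := by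
    intro a b c a2 b2 c2
    rw [← sq_scal Y (b - c) (b2 - c2) hY]
    congr 1
    ring
  rw [eY, eX, eY, eX, eY, eX, eY, eX, eY, eX]
  ring

theorem Wa_n1 (x y x' y' : Fin 5 → ℝ) :
    Wa x y (fun k => - x' k) (fun k => - y' k) = - Wa x y x' y' := by
  unfold Wa
  rw [sum5, sum5]
  ring

theorem Wa_n2 (x y x' y' : Fin 5 → ℝ) :
    Wa x (fun k => - y k) x' (fun k => - y' k) = - Wa x y x' y' := by
  unfold Wa
  rw [sum5, sum5]
  ring

theorem Wa_n3 (x y x' y' : Fin 5 → ℝ) :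
    Wa x (fun k => - y k) (fun k => - x' k) y' = Wa x y x' y' := by
  unfold Wa
  rw [sum5, sum5]
  ring

theorem Wa_zero1 (x y x' y' : Fin 5 → ℝ) (h : Pe x y = 0) : Wa x y x' y' = 0 := by
  have hk := Pe_zero x y h
  obtain ⟨p0, p1, p2, p3, p4⟩ := a5
  have h0 := hk 0
  have h1 := hk 1
  have h2 := hk 2
  have h3 := hk 3
  have h4 := hk 4
  rw [p0] at h0
  rw [p1] at h1
  rw [p2] at h2
  rw [p3] at h3
  rw [p4] at h4
  unfold Wa
  rw [sum5]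
  rw [p0, p1, p2, p3, p4]
  have e1 : x 1 = x 0 := h0.1
  have e2 : x 2 = x 0 := by rw [h1.1, e1]
  have e3 : x 3 = x 0 := by rw [h2.1, e2]
  have e4 : x 4 = x 0 := by rw [h3.1, e3]
  have f1 : y 1 = y 0 := h0.2
  have f2 : y 2 = y 0 := by rw [h1.2, f1]
  have f3 : y 3 = y 0 := by rw [h2.2, f2]
  have f4 : y 4 = y 0 := by rw [h3.2, f3]
  rw [e1, e2, e3, e4, f1, f2, f3, f4]
  ring

theorem Wa_zero2 (x y x' y' : Fin 5 → ℝ) (h : Pe x' y' = 0) : Wa x y x' y' = 0 := by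
  have hk := Pe_zero x' y' h
  obtain ⟨p0, p1, p2, p3, p4⟩ := a5
  have h0 := hk 0
  have h1 := hk 1
  have h2 := hk 2
  have h3 := hk 3
  have h4 := hk 4
  rw [p0] at h0
  rw [p1] at h1
  rw [p2] at h2
  rw [p3] at h3
  rw [p4] at h4
  unfold Wa
  rw [sum5]
  rw [p0, p1, p2, p3, p4]
  have e1 : x' 1 = x' 0 := h0.1
  have e2 : x' 2 = x' 0 := by rw [h1.1, e1]
  have e3 : x' 3 = x' 0 := by rw [h2.1, e2]
  have e4 : x' 4 = x' 0 := by rw [h3.1, e3]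
  have f1 : y' 1 = y' 0 := h0.2
  have f2 : y' 2 = y' 0 := by rw [h1.2, f1]
  have f3 : y' 3 = y' 0 := by rw [h2.2, f2]
  have f4 : y' 4 = y' 0 := by rw [h3.2, f3]
  rw [e1, e2, e3, e4, f1, f2, f3, f4]
  ring

theorem half1 (h5 : ∀ x y : Fin 5 → ℝ, 20 * (sn / cs) * Fa x y ≤ Pe x y ^ 2) (x y : Fin 5 → ℝ)
    (a A : ℝ) (ha : a = Pe x y / (10 * sn)) (hA : A = Fa x y / (5 * sn * cs)) : |A| ≤ a ^ 2 := by
  have hc := cspos
  have hs := snpos
  have h1 := h5 x y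
  have h2 := h5 x (fun k => - y k)
  rw [Fa_neg, Pe_neg] at h2
  have hP : Pe x y = 10 * sn * a := by rw [ha]; field_simp
  have hF : Fa x y = 5 * sn * cs * A := by rw [hA]; field_simp
  rw [hP, hF] at h1 h2
  have e1 : 20 * (sn / cs) * (5 * sn * cs * A) = 100 * sn ^ 2 * A := by
    field_simp
    ring
  have e2 : 20 * (sn / cs) * -(5 * sn * cs * A) = 100 * sn ^ 2 * (- A) := by
    field_simp
    ring
  rw [e1] at h1
  rw [e2] at h2
  have hpos : 0 < 100 * sn ^ 2 := by positivity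
  have k1 : A ≤ a ^ 2 := by
    have : 100 * sn ^ 2 * A ≤ 100 * sn ^ 2 * a ^ 2 := by nlinarith
    exact le_of_mul_le_mul_left this hpos
  have k2 : - A ≤ a ^ 2 := by
    have : 100 * sn ^ 2 * (- A) ≤ 100 * sn ^ 2 * a ^ 2 := by nlinarith
    exact le_of_mul_le_mul_left this hpos
  exact abs_le.mpr ⟨by linarith, k1⟩

theorem half2 (h10 : ∀ x y : Fin 10 → ℝ, 40 * (sn / (1 + cs)) * Fa x y ≤ Pe x y ^ 2)
    (x y x' y' : Fin 5 → ℝ) (a b A1 A2 t : ℝ) (ha : a = Pe x y / (10 * sn))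
    (hb : b = Pe x' y' / (10 * sn)) (hA1 : A1 = Fa x y / (5 * sn * cs))
    (hA2 : A2 = Fa x' y' / (5 * sn * cs)) (ht : t = Wa x y x' y' / (5 * sn * cs)) :
    A1 * b ^ 2 + A2 * a ^ 2 + 2 * t * (a * b) ≤ 2 * Real.sqrt 5 * (a * b) ^ 2 := by
  have hc := cspos
  have hs := snpos
  have hP : Pe x y = 10 * sn * a := by rw [ha]; field_simp
  have hP' : Pe x' y' = 10 * sn * b := by rw [hb]; field_simp
  have hF : Fa x y = 5 * sn * cs * A1 := by rw [hA1]; field_simp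
  have hF' : Fa x' y' = 5 * sn * cs * A2 := by rw [hA2]; field_simp
  have hW : Wa x y x' y' = 5 * sn * cs * t := by rw [ht]; field_simp
  have ha0 : 0 ≤ a := by rw [ha]; have := Pe_nonneg x y; positivity
  have hb0 : 0 ≤ b := by rw [hb]; have := Pe_nonneg x' y'; positivity
  have h := h10 (zz b a x x') (zz b a y y')
  rw [Fa_zz, Pe_zz b a hb0 ha0, hP, hP', hF, hF', hW, csid] at h
  have h5 := s5pos
  have e1 : 40 * (sn / (Real.sqrt 5 * cs)) *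
      (b ^ 2 * (5 * sn * cs * A1) + a ^ 2 * (5 * sn * cs * A2) + 2 * b * a * (5 * sn * cs * t))
      = 200 * sn ^ 2 / Real.sqrt 5 * (A1 * b ^ 2 + A2 * a ^ 2 + 2 * t * (a * b)) := by
    field_simp
    ring
  have e2 : (b * (10 * sn * a) + a * (10 * sn * b)) ^ 2
      = 200 * sn ^ 2 / Real.sqrt 5 * (2 * Real.sqrt 5 * (a * b) ^ 2) := by
    field_simp
    ring
  rw [e1, e2] at h
  have hpos : 0 < 200 * sn ^ 2 / Real.sqrt 5 := by positivity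
  exact le_of_mul_le_mul_left h hpos

end M_CON

open M_CON in
theorem t_CON : Stmt_CON := by
  intro h5 h10 x y x' y' a b A1 A2 t ha hb hA1 hA2 ht
  have hc := cspos
  have hs := snpos
  have ha0 : 0 ≤ a := by rw [ha]; have := Pe_nonneg x y; positivity
  have hb0 : 0 ≤ b := by rw [hb]; have := Pe_nonneg x' y'; positivity
  have c1 := half1 h5 x y a A1 ha hA1
  have c2 := half1 h5 x' y' b A2 hb hA2
  have d1 := half2 h10 x y x' y' a b A1 A2 t ha hb hA1 hA2 ht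
  have d2 := half2 h10 x y (fun k => - x' k) (fun k => - y' k) a b A1 A2 (-t) ha
    (by rw [Pe_neg, Pe_neg', hb]) hA1 (by rw [Fa_neg, Fa_neg', neg_neg, hA2])
    (by rw [Wa_n1, ht]; ring)
  have d3 := half2 h10 x (fun k => - y k) x' (fun k => - y' k) a b (-A1) (-A2) (-t)
    (by rw [Pe_neg, ha]) (by rw [Pe_neg, hb]) (by rw [Fa_neg, hA1]; ring)
    (by rw [Fa_neg, hA2]; ring) (by rw [Wa_n2, ht]; ring)
  have d4 := half2 h10 x (fun k => - y k) (fun k => - x' k) y' a b (-A1) (-A2) t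
    (by rw [Pe_neg, ha]) (by rw [Pe_neg', hb]) (by rw [Fa_neg, hA1]; ring)
    (by rw [Fa_neg', hA2]; ring) (by rw [Wa_n3, ht])
  have hab : 0 ≤ a * b := mul_nonneg ha0 hb0
  have c3 : 2 * |t| * (a * b) + |A1 * b ^ 2 + A2 * a ^ 2| ≤ 2 * Real.sqrt 5 * (a * b) ^ 2 := by
    rcases abs_cases t with ⟨e, _⟩ | ⟨e, _⟩ <;>
      rcases abs_cases (A1 * b ^ 2 + A2 * a ^ 2) with ⟨f, _⟩ | ⟨f, _⟩ <;> rw [e, f] <;> linarith
  refine ⟨c1, c2, c3, ?_⟩
  rcases ha0.eq_or_lt with h0 | hapos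
  · have hP : Pe x y = 0 := by
      rw [← h0] at ha
      have h1 : Pe x y / (10 * sn) = 0 := ha.symm
      rcases div_eq_zero_iff.mp h1 with h2 | h2
      · exact h2
      · exfalso
        have : 0 < 10 * sn := by positivity
        linarith
    rw [ht, Wa_zero1 x y x' y' hP]
    simp only [zero_div, abs_zero]
    positivity
  · rcases hb0.eq_or_lt with h0 | hbpos
    · have hP : Pe x' y' = 0 := by
        rw [← h0] at hb
        have h1 : Pe x' y' / (10 * sn) = 0 := hb.symm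
        rcases div_eq_zero_iff.mp h1 with h2 | h2
        · exact h2
        · exfalso
          have : 0 < 10 * sn := by positivity
          linarith
      rw [ht, Wa_zero2 x y x' y' hP]
      simp only [zero_div, abs_zero]
      positivity
    · have hp : 0 < 2 * (a * b) := by positivity
      have h1 : 2 * (a * b) * |t| ≤ 2 * (a * b) * (Real.sqrt 5 * (a * b)) := by
        have h2 := abs_nonneg (A1 * b ^ 2 + A2 * a ^ 2)
        nlinarith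
      exact le_of_mul_le_mul_left h1 hp

end Pool.Agent.ICL
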