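import Pool.Agent.ICL.StmtsP

/-!
# EXT: existence of an extremal polygon
-/

set_option autoImplicit false

namespace Pool.Agent.ICL

namespace M_EXT

variable {n : ℕ} [NeZero n]

theorem sum_shift (f : Fin n → ℝ) : ∑ k, f (k + 1) = ∑ k, f k :=
  Equiv.sum_comp (Equiv.addRight (1 : Fin n)) f

theorem Pe_shift (x y : Fin n → ℝ) (c d : ℝ) :
    Pe (fun k => x k - c) (fun k => y k - d) = Pe x y := by
  unfold Pe
  refine Finset.sum_congr rfl fun k _ => ?_
  congr 1
  ring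

theorem Qe_shift (x y : Fin n → ℝ) (c d : ℝ) :
    Qe (fun k => x k - c) (fun k => y k - d) = Qe x y := by
  unfold Qe
  refine Finset.sum_congr rfl fun k _ => ?_
  ring

theorem Fa_shift (x y : Fin n → ℝ) (c d : ℝ) :
    Fa (fun k => x k - c) (fun k => y k - d) = Fa x y := by
  unfold Fa
  congr 1
  have h1 : ∀ k : Fin n, ((x k - c) * (y (k + 1) - d) - (x (k + 1) - c) * (y k - d)) =
      (x k * y (k + 1) - x (k + 1) * y k) + (c * y k - c * y (k + 1)) +
        (d * x (k + 1) - d * x k) := by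
    intro k
    ring
  rw [Finset.sum_congr rfl fun k _ => h1 k, Finset.sum_add_distrib, Finset.sum_add_distrib,
    Finset.sum_sub_distrib, Finset.sum_sub_distrib (f := fun k => c * y k),
    Finset.sum_sub_distrib (f := fun k => d * x (k + 1))]
  rw [sum_shift (fun k => c * y k), sum_shift (fun k => d * x k)]
  ring

theorem cont_Pe : Continuous fun p : (Fin n → ℝ) × (Fin n → ℝ) => Pe p.1 p.2 := by
  unfold Pe
  fun_prop

theorem cont_Qe : Continuous fun p : (Fin n → ℝ) × (Fin n → ℝ) => Qe p.1 p.2 := by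
  unfold Qe
  fun_prop

theorem cont_Fa : Continuous fun p : (Fin n → ℝ) × (Fin n → ℝ) => Fa p.1 p.2 := by
  unfold Fa
  fun_prop

theorem ofNat_succ (m : ℕ) : Fin.ofNat n (m + 1) = Fin.ofNat n m + 1 := by
  ext
  rw [Fin.val_add, Fin.val_ofNat, Fin.val_ofNat, Fin.val_one', Nat.add_mod]

theorem ofNat_val (k : Fin n) : Fin.ofNat n k.val = k := by
  ext
  rw [Fin.val_ofNat]
  exact Nat.mod_eq_of_lt k.isLt

theorem tele (z : Fin n → ℝ) (e : Fin n → ℝ) (he : ∀ k, |z (k + 1) - z k| ≤ e k) (m : ℕ) :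
    |z (Fin.ofNat n m) - z 0| ≤ ∑ i ∈ Finset.range m, e (Fin.ofNat n i) := by
  induction m with
  | zero =>
    have h0 : Fin.ofNat n 0 = 0 := rfl
    rw [h0]
    simp
  | succ m ih =>
    rw [Finset.sum_range_succ]
    have h1 := he (Fin.ofNat n m)
    rw [ofNat_succ]
    have h3 : z (Fin.ofNat n m + 1) - z 0 =
        (z (Fin.ofNat n m + 1) - z (Fin.ofNat n m)) + (z (Fin.ofNat n m) - z 0) := by
      ring
    rw [h3]
    exact (abs_add_le _ _).trans (by linarith)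

theorem bound (z e : Fin n → ℝ) (he : ∀ k, |z (k + 1) - z k| ≤ e k) (hz : z 0 = 0) (k : Fin n) :
    |z k| ≤ ∑ i, e i := by
  have he0 : ∀ i, 0 ≤ e i := fun i => (abs_nonneg _).trans (he i)
  have h1 := tele z e he k.val
  rw [hz, sub_zero, ofNat_val] at h1
  have h2 : ∑ i ∈ Finset.range k.val, e (Fin.ofNat n i) ≤
      ∑ i ∈ Finset.range n, e (Fin.ofNat n i) := by
    refine Finset.sum_le_sum_of_subset_of_nonneg ?_ (fun i _ _ => he0 _)
    exact Finset.range_subset_range.2 k.isLt.le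
  have h3 : ∑ i ∈ Finset.range n, e (Fin.ofNat n i) = ∑ i : Fin n, e i := by
    rw [Finset.sum_range]
    exact Finset.sum_congr rfl fun i _ => by rw [ofNat_val]
  linarith

theorem bound_x (x y : Fin n → ℝ) (hx : x 0 = 0) (k : Fin n) : |x k| ≤ Pe x y := by
  refine bound x (fun k => Real.sqrt ((x (k + 1) - x k) ^ 2 + (y (k + 1) - y k) ^ 2)) ?_ hx k
  intro k
  exact Real.abs_le_sqrt (by nlinarith [sq_nonneg (y (k + 1) - y k)])

theorem bound_y (x y : Fin n → ℝ) (hy : y 0 = 0) (k : Fin n) : |y k| ≤ Pe x y := by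
  refine bound y (fun k => Real.sqrt ((x (k + 1) - x k) ^ 2 + (y (k + 1) - y k) ^ 2)) ?_ hy k
  intro k
  exact Real.abs_le_sqrt (by nlinarith [sq_nonneg (x (k + 1) - x k)])

end M_EXT

open M_EXT in
theorem t_EXT : Stmt_EXT := by
  intro n _
  let K : Set ((Fin n → ℝ) × (Fin n → ℝ)) := {p | p.1 0 = 0 ∧ p.2 0 = 0 ∧ Pe p.1 p.2 ≤ 1}
  have hKc : IsClosed K := by
    have h1 : IsClosed {p : (Fin n → ℝ) × (Fin n → ℝ) | p.1 0 = 0} :=
      isClosed_eq (by fun_prop) (by fun_prop)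
    have h2 : IsClosed {p : (Fin n → ℝ) × (Fin n → ℝ) | p.2 0 = 0} :=
      isClosed_eq (by fun_prop) (by fun_prop)
    have h3 : IsClosed {p : (Fin n → ℝ) × (Fin n → ℝ) | Pe p.1 p.2 ≤ 1} :=
      isClosed_le cont_Pe continuous_const
    exact h1.inter (h2.inter h3)
  have hKb : Bornology.IsBounded K := by
    refine (Metric.isBounded_closedBall (x := (0 : (Fin n → ℝ) × (Fin n → ℝ))) (r := 1)).subset ?_
    rintro ⟨x, y⟩ ⟨hx, hy, hp⟩
    rw [Metric.mem_closedBall, dist_zero_right, Prod.norm_def, max_le_iff]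
    refine ⟨(pi_norm_le_iff_of_nonneg zero_le_one).2 fun k => ?_,
      (pi_norm_le_iff_of_nonneg zero_le_one).2 fun k => ?_⟩
    · rw [Real.norm_eq_abs]
      exact (bound_x x y hx k).trans hp
    · rw [Real.norm_eq_abs]
      exact (bound_y x y hy k).trans hp
  have hK : IsCompact K := Metric.isCompact_of_isClosed_isBounded hKc hKb
  have hK0 : K.Nonempty := by
    refine ⟨(0, 0), rfl, rfl, ?_⟩
    simp [Pe]
  obtain ⟨p, hpK, hpmax⟩ := hK.exists_isMaxOn hK0 cont_Fa.continuousOn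
  let S : Set ((Fin n → ℝ) × (Fin n → ℝ)) := K ∩ {q | Fa q.1 q.2 = Fa p.1 p.2}
  have hS : IsCompact S := hK.inter_right (isClosed_eq cont_Fa continuous_const)
  obtain ⟨q, hqS, hqmin⟩ := hS.exists_isMinOn ⟨p, hpK, rfl⟩ cont_Qe.continuousOn
  have htr : ∀ x y : Fin n → ℝ, Pe x y ≤ 1 →
      ((fun k => x k - x 0), (fun k => y k - y 0)) ∈ K := by
    intro x y h
    refine ⟨sub_self _, sub_self _, ?_⟩
    show Pe (fun k => x k - x 0) (fun k => y k - y 0) ≤ 1
    rw [Pe_shift]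
    exact h
  refine ⟨q.1, q.2, hqS.1.2.2, ?_, ?_⟩
  · intro x' y' h
    have h1 := hpmax (htr x' y' h)
    have h2 : Fa q.1 q.2 = Fa p.1 p.2 := hqS.2
    rw [h2]
    have h3 : Fa (fun k => x' k - x' 0) (fun k => y' k - y' 0) ≤ Fa p.1 p.2 := h1
    rwa [Fa_shift] at h3
  · intro x' y' h he
    have h2 : Fa q.1 q.2 = Fa p.1 p.2 := hqS.2
    have h4 : ((fun k => x' k - x' 0), (fun k => y' k - y' 0)) ∈ S := by
      refine ⟨htr x' y' h, ?_⟩
      show Fa (fun k => x' k - x' 0) (fun k => y' k - y' 0) = Fa p.1 p.2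
      rw [Fa_shift, he, h2]
    have h5 := hqmin h4
    have h6 : Qe q.1 q.2 ≤ Qe (fun k => x' k - x' 0) (fun k => y' k - y' 0) := h5
    rwa [Qe_shift] at h6

end Pool.Agent.ICL
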