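import Pool.Agent.ICL.StmtsP

/-!
# GEO: the isosceles point
-/

set_option autoImplicit false

namespace Pool.Agent.ICL

theorem M_GEO.key {X Y P Q l1 l2 : ℝ} (h1 : 0 ≤ l1) (h2 : 0 ≤ l2)
    (e1 : l1 ^ 2 = (P + X / 2) ^ 2 + (Q + Y / 2) ^ 2)
    (e2 : l2 ^ 2 = (X / 2 - P) ^ 2 + (Y / 2 - Q) ^ 2) :
    4 * (P * Y - Q * X) ^ 2 + (X ^ 2 + Y ^ 2) ^ 2 ≤ (l1 + l2) ^ 2 * (X ^ 2 + Y ^ 2) := by
  set H := P * Y - Q * X with hH
  set D := P * X + Q * Y with hD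
  set d := X ^ 2 + Y ^ 2 with hd
  have hd0 : 0 ≤ d := by positivity
  have hDH : D ^ 2 + H ^ 2 = (P ^ 2 + Q ^ 2) * d := by rw [hD, hH, hd]; ring
  have e1' : l1 ^ 2 = P ^ 2 + Q ^ 2 + D + d / 4 := by rw [e1, hD, hd]; ring
  have e2' : l2 ^ 2 = P ^ 2 + Q ^ 2 - D + d / 4 := by rw [e2, hD, hd]; ring
  have hK : (l1 * l2 * d) ^ 2 = (D ^ 2 + H ^ 2 + d ^ 2 / 4) ^ 2 - D ^ 2 * d ^ 2 := by
    have : (l1 * l2 * d) ^ 2 = l1 ^ 2 * l2 ^ 2 * d ^ 2 := by ring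
    rw [this, e1', e2', hDH]
    ring
  have hT : (H ^ 2 + d ^ 2 / 4 - D ^ 2) ^ 2 ≤ (l1 * l2 * d) ^ 2 := by
    rw [hK]
    have h4 : 0 ≤ 4 * D ^ 2 * H ^ 2 := by positivity
    have e : (D ^ 2 + H ^ 2 + d ^ 2 / 4) ^ 2 - D ^ 2 * d ^ 2 =
        (H ^ 2 + d ^ 2 / 4 - D ^ 2) ^ 2 + 4 * D ^ 2 * H ^ 2 := by ring
    rw [e]
    linarith
  have hKn : 0 ≤ l1 * l2 * d := by positivity
  have hle := (abs_le_of_sq_le_sq' hT hKn).2
  have e3 : (l1 + l2) ^ 2 * d = 2 * (D ^ 2 + H ^ 2) + d ^ 2 / 2 + 2 * (l1 * l2 * d) := by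
    have : (l1 + l2) ^ 2 = l1 ^ 2 + l2 ^ 2 + 2 * (l1 * l2) := by ring
    rw [this, e1', e2', hDH]
    ring
  rw [e3]
  linarith

theorem t_GEO : Stmt_GEO := by
  intro a1 a2 b1 b2 z1 z2 l1 l2 h1 h2 hne
  have hl1 : 0 ≤ l1 := by rw [h1]; exact Real.sqrt_nonneg _
  have hl2 : 0 ≤ l2 := by rw [h2]; exact Real.sqrt_nonneg _
  have s1 : l1 ^ 2 = (z1 - a1) ^ 2 + (z2 - a2) ^ 2 := by rw [h1]; exact Real.sq_sqrt (by positivity)
  have s2 : l2 ^ 2 = (b1 - z1) ^ 2 + (b2 - z2) ^ 2 := by rw [h2]; exact Real.sq_sqrt (by positivity)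
  set X := b1 - a1 with hX
  set Y := b2 - a2 with hY
  set P := z1 - (a1 + b1) / 2 with hP
  set Q := z2 - (a2 + b2) / 2 with hQ
  have e1 : l1 ^ 2 = (P + X / 2) ^ 2 + (Q + Y / 2) ^ 2 := by rw [s1, hP, hQ, hX, hY]; ring
  have e2 : l2 ^ 2 = (X / 2 - P) ^ 2 + (Y / 2 - Q) ^ 2 := by rw [s2, hP, hQ, hX, hY]; ring
  have key := M_GEO.key hl1 hl2 e1 e2
  have hdpos : 0 < X ^ 2 + Y ^ 2 := by
    rcases (add_nonneg (sq_nonneg X) (sq_nonneg Y)).lt_or_eq with h | h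
    · exact h
    · exfalso
      have hX0 : X = 0 := by
        have : X ^ 2 = 0 := le_antisymm (by linarith [sq_nonneg Y]) (sq_nonneg X)
        exact pow_eq_zero_iff (two_ne_zero) |>.1 this
      have hY0 : Y = 0 := by
        have : Y ^ 2 = 0 := le_antisymm (by linarith [sq_nonneg X]) (sq_nonneg Y)
        exact pow_eq_zero_iff (two_ne_zero) |>.1 this
      apply hne
      have : l1 ^ 2 = l2 ^ 2 := by rw [e1, e2, hX0, hY0]; ring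
      exact (pow_left_inj₀ hl1 hl2 (by norm_num)).1 this
  set d := Real.sqrt (X ^ 2 + Y ^ 2) with hd
  have hd0 : 0 < d := Real.sqrt_pos.2 hdpos
  have hd2 : d ^ 2 = X ^ 2 + Y ^ 2 := Real.sq_sqrt hdpos.le
  have hs : X ^ 2 + Y ^ 2 ≤ (l1 + l2) ^ 2 := by
    have h3 : (X ^ 2 + Y ^ 2) * (X ^ 2 + Y ^ 2) ≤ (l1 + l2) ^ 2 * (X ^ 2 + Y ^ 2) := by
      have e : (X ^ 2 + Y ^ 2) * (X ^ 2 + Y ^ 2) = (X ^ 2 + Y ^ 2) ^ 2 := by ring
      rw [e]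
      linarith [sq_nonneg (P * Y - Q * X)]
    exact le_of_mul_le_mul_right h3 hdpos
  set η := Real.sqrt ((l1 + l2) ^ 2 - (X ^ 2 + Y ^ 2)) / 2 with hη
  have hη0 : 0 ≤ η := by positivity
  have hη2 : η ^ 2 = ((l1 + l2) ^ 2 - (X ^ 2 + Y ^ 2)) / 4 := by
    rw [hη, div_pow, Real.sq_sqrt (by linarith)]
    norm_num
  have hc : (X / d) ^ 2 + (Y / d) ^ 2 = 1 := by
    rw [div_pow, div_pow, ← add_div, hd2]
    exact div_self hdpos.ne'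
  have hXd : X = X / d * d := by field_simp
  have hYd : Y = Y / d * d := by field_simp
  refine ⟨(a1 + b1) / 2 + η * (Y / d), (a2 + b2) / 2 - η * (X / d), ?_, ?_, ?_⟩
  · have q1 : ((a1 + b1) / 2 + η * (Y / d) - a1) ^ 2 + ((a2 + b2) / 2 - η * (X / d) - a2) ^ 2 =
        ((l1 + l2) / 2) ^ 2 := by
      have : ((a1 + b1) / 2 + η * (Y / d) - a1) ^ 2 + ((a2 + b2) / 2 - η * (X / d) - a2) ^ 2 =
          (X ^ 2 + Y ^ 2) / 4 + η ^ 2 * ((X / d) ^ 2 + (Y / d) ^ 2) +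
            η * (X * (Y / d) - Y * (X / d)) := by
        rw [hX, hY]; ring
      rw [this, hc, hη2]
      have : X * (Y / d) - Y * (X / d) = 0 := by ring
      rw [this]
      ring
    have q2 : (b1 - ((a1 + b1) / 2 + η * (Y / d))) ^ 2 +
        (b2 - ((a2 + b2) / 2 - η * (X / d))) ^ 2 = ((l1 + l2) / 2) ^ 2 := by
      have : (b1 - ((a1 + b1) / 2 + η * (Y / d))) ^ 2 +
          (b2 - ((a2 + b2) / 2 - η * (X / d))) ^ 2 =
          (X ^ 2 + Y ^ 2) / 4 + η ^ 2 * ((X / d) ^ 2 + (Y / d) ^ 2) -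
            η * (X * (Y / d) - Y * (X / d)) := by
        rw [hX, hY]; ring
      rw [this, hc, hη2]
      have : X * (Y / d) - Y * (X / d) = 0 := by ring
      rw [this]
      ring
    rw [q1, q2, Real.sqrt_sq (by positivity)]
    ring
  · have q : ((a1 + b1) / 2 + η * (Y / d) - a1) ^ 2 + ((a2 + b2) / 2 - η * (X / d) - a2) ^ 2 +
        ((b1 - ((a1 + b1) / 2 + η * (Y / d))) ^ 2 +
          (b2 - ((a2 + b2) / 2 - η * (X / d))) ^ 2) =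
        (X ^ 2 + Y ^ 2) / 2 + 2 * η ^ 2 * ((X / d) ^ 2 + (Y / d) ^ 2) := by
      rw [hX, hY]; ring
    rw [q, hc, hη2]
    have hne' : l1 - l2 ≠ 0 := sub_ne_zero.2 hne
    have h5 : 0 < (l1 - l2) ^ 2 := by positivity
    have e : (X ^ 2 + Y ^ 2) / 2 + 2 * (((l1 + l2) ^ 2 - (X ^ 2 + Y ^ 2)) / 4) * 1 =
        l1 ^ 2 + l2 ^ 2 - (l1 - l2) ^ 2 / 2 := by ring
    rw [e]
    linarith
  · have hH : (P * Y - Q * X) ^ 2 ≤ (η * d) ^ 2 := by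
      have e : ((l1 + l2) ^ 2 - (X ^ 2 + Y ^ 2)) / 4 * (X ^ 2 + Y ^ 2) =
          ((l1 + l2) ^ 2 * (X ^ 2 + Y ^ 2) - (X ^ 2 + Y ^ 2) ^ 2) / 4 := by ring
      rw [mul_pow, hη2, hd2, e]
      linarith
    have hle := (abs_le_of_sq_le_sq' hH (by positivity)).2
    have q : ((a1 + b1) / 2 + η * (Y / d)) * Y - ((a2 + b2) / 2 - η * (X / d)) * X =
        ((a1 + b1) * Y - (a2 + b2) * X) / 2 + η * d * ((X / d) ^ 2 + (Y / d) ^ 2) := by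
      have r1 : Y / d * Y = d * (Y / d) ^ 2 := by
        conv_lhs => rw [hYd]
        field_simp
      have r2 : X / d * X = d * (X / d) ^ 2 := by
        conv_lhs => rw [hXd]
        field_simp
      calc _ = ((a1 + b1) * Y - (a2 + b2) * X) / 2 + η * (Y / d * Y + X / d * X) := by ring
        _ = _ := by rw [r1, r2]; ring
    rw [q, hc]
    have : z1 * Y - z2 * X = (P * Y - Q * X) + ((a1 + b1) * Y - (a2 + b2) * X) / 2 := by
      rw [hP, hQ]; ring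
    rw [this]
    linarith

end Pool.Agent.ICL
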