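import Pool.Agent.ICL.StmtsP

set_option autoImplicit false

namespace Pool.Agent.ICL

namespace M_L5

/-- The Wirtinger inequality for five numbers. -/
theorem wirt (x0 x1 x2 x3 x4 q : ℝ) (hq : q ^ 2 + q - 1 = 0) (hq0 : 1 / 3 ≤ q) :
    (3 - 4 * q) * ((x0 + x1 - 2 * ((x0 + x1 + x2 + x3 + x4) / 5)) ^ 2
      + (x1 + x2 - 2 * ((x0 + x1 + x2 + x3 + x4) / 5)) ^ 2
      + (x2 + x3 - 2 * ((x0 + x1 + x2 + x3 + x4) / 5)) ^ 2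
      + (x3 + x4 - 2 * ((x0 + x1 + x2 + x3 + x4) / 5)) ^ 2
      + (x4 + x0 - 2 * ((x0 + x1 + x2 + x3 + x4) / 5)) ^ 2)
    ≤ (x1 - x0) ^ 2 + (x2 - x1) ^ 2 + (x3 - x2) ^ 2 + (x4 - x3) ^ 2 + (x0 - x4) ^ 2 := by
  obtain ⟨g, hg⟩ : ∃ g, g = (x0 + x1 + x2 + x3 + x4) / 5 := ⟨_, rfl⟩
  have key : (x1 - x0) ^ 2 + (x2 - x1) ^ 2 + (x3 - x2) ^ 2 + (x4 - x3) ^ 2 + (x0 - x4) ^ 2
      - (3 - 4 * q) * ((x0 + x1 - 2 * g) ^ 2 + (x1 + x2 - 2 * g) ^ 2 + (x2 + x3 - 2 * g) ^ 2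
      + (x3 + x4 - 2 * g) ^ 2 + (x4 + x0 - 2 * g) ^ 2)
      = (12 * q - 4) / 5 * ((x1 + x4 - 2 * g - q * (x0 - g)) ^ 2
        + (x2 + x0 - 2 * g - q * (x1 - g)) ^ 2 + (x3 + x1 - 2 * g - q * (x2 - g)) ^ 2
        + (x4 + x2 - 2 * g - q * (x3 - g)) ^ 2 + (x0 + x3 - 2 * g - q * (x4 - g)) ^ 2) := by
    subst hg
    linear_combination (-((12 * q - 4) / 5) * ((x0 - (x0 + x1 + x2 + x3 + x4) / 5) ^ 2
      + (x1 - (x0 + x1 + x2 + x3 + x4) / 5) ^ 2 + (x2 - (x0 + x1 + x2 + x3 + x4) / 5) ^ 2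
      + (x3 - (x0 + x1 + x2 + x3 + x4) / 5) ^ 2 + (x4 - (x0 + x1 + x2 + x3 + x4) / 5) ^ 2)
      - 12 / 5 * (-2 * ((x1 + x4 - 2 * ((x0 + x1 + x2 + x3 + x4) / 5))
          * (x0 - (x0 + x1 + x2 + x3 + x4) / 5)
        + (x2 + x0 - 2 * ((x0 + x1 + x2 + x3 + x4) / 5)) * (x1 - (x0 + x1 + x2 + x3 + x4) / 5)
        + (x3 + x1 - 2 * ((x0 + x1 + x2 + x3 + x4) / 5)) * (x2 - (x0 + x1 + x2 + x3 + x4) / 5)
        + (x4 + x2 - 2 * ((x0 + x1 + x2 + x3 + x4) / 5)) * (x3 - (x0 + x1 + x2 + x3 + x4) / 5)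
        + (x0 + x3 - 2 * ((x0 + x1 + x2 + x3 + x4) / 5)) * (x4 - (x0 + x1 + x2 + x3 + x4) / 5))
        - ((x0 - (x0 + x1 + x2 + x3 + x4) / 5) ^ 2
      + (x1 - (x0 + x1 + x2 + x3 + x4) / 5) ^ 2 + (x2 - (x0 + x1 + x2 + x3 + x4) / 5) ^ 2
      + (x3 - (x0 + x1 + x2 + x3 + x4) / 5) ^ 2 + (x4 - (x0 + x1 + x2 + x3 + x4) / 5) ^ 2))) * hq
  rw [← hg]
  have h1 : 0 ≤ (12 * q - 4) / 5 * ((x1 + x4 - 2 * g - q * (x0 - g)) ^ 2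
        + (x2 + x0 - 2 * g - q * (x1 - g)) ^ 2 + (x3 + x1 - 2 * g - q * (x2 - g)) ^ 2
        + (x4 + x2 - 2 * g - q * (x3 - g)) ^ 2 + (x0 + x3 - 2 * g - q * (x4 - g)) ^ 2) := by
    apply mul_nonneg
    · linarith
    · positivity
  linarith

end M_L5

theorem t_L5 : Stmt_L5 := by
  intro x y
  have h5 : Real.sqrt 5 ^ 2 = 5 := Real.sq_sqrt (by norm_num)
  have h5a : (2 : ℝ) ≤ Real.sqrt 5 := by
    rw [show (2 : ℝ) = Real.sqrt 4 by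
      rw [show (4 : ℝ) = 2 ^ 2 by norm_num]
      exact (Real.sqrt_sq (by norm_num)).symm]
    exact Real.sqrt_le_sqrt (by norm_num)
  have h5b : Real.sqrt 5 ≤ 3 := by nlinarith
  obtain ⟨r, hr⟩ : ∃ r, r = Real.sqrt 5 := ⟨_, rfl⟩
  rw [← hr] at h5 h5a h5b
  have hcs : cs = (1 + r) / 4 := by rw [cs, hr]
  have hcs0 : cs ≠ 0 := by rw [hcs]; linarith
  have hsn : sn ^ 2 = (5 - r) / 8 := by
    rw [sn, ← hr]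
    exact Real.sq_sqrt (by linarith)
  obtain ⟨T, hT⟩ : ∃ T, T = sn / cs := ⟨_, rfl⟩
  have hT2 : T ^ 2 = 5 - 2 * r := by
    rw [hT, div_pow, hsn, hcs, div_eq_iff (by positivity)]
    nlinarith
  rw [← hT]
  obtain ⟨q, hq⟩ : ∃ q, q = (r - 1) / 2 := ⟨_, rfl⟩
  have hq1 : q ^ 2 + q - 1 = 0 := by
    rw [hq]
    nlinarith
  have hq2 : T ^ 2 = 3 - 4 * q := by rw [hT2, hq]; ring
  have hx := M_L5.wirt (x 0) (x 1) (x 2) (x 3) (x 4) q hq1 (by rw [hq]; linarith)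
  have hy := M_L5.wirt (y 0) (y 1) (y 2) (y 3) (y 4) q hq1 (by rw [hq]; linarith)
  rw [← hq2] at hx hy
  have e0 : (0 : Fin 5) + 1 = 1 := rfl
  have e1 : (1 : Fin 5) + 1 = 2 := rfl
  have e2 : (2 : Fin 5) + 1 = 3 := rfl
  have e3 : (3 : Fin 5) + 1 = 4 := rfl
  have e4 : (4 : Fin 5) + 1 = 0 := rfl
  rw [Fa, Qe, Fin.sum_univ_five, Fin.sum_univ_five, e0, e1, e2, e3, e4]
  generalize x 0 = x0 at *
  generalize x 1 = x1 at *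
  generalize x 2 = x2 at *
  generalize x 3 = x3 at *
  generalize x 4 = x4 at *
  generalize y 0 = y0 at *
  generalize y 1 = y1 at *
  generalize y 2 = y2 at *
  generalize y 3 = y3 at *
  generalize y 4 = y4 at *
  obtain ⟨g, hg⟩ : ∃ g, g = (x0 + x1 + x2 + x3 + x4) / 5 := ⟨_, rfl⟩
  obtain ⟨h, hh⟩ : ∃ h, h = (y0 + y1 + y2 + y3 + y4) / 5 := ⟨_, rfl⟩
  have hS : 0 ≤ ((x1 - x0) + T * (y0 + y1 - 2 * h)) ^ 2 + ((y1 - y0) - T * (x0 + x1 - 2 * g)) ^ 2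
      + (((x2 - x1) + T * (y1 + y2 - 2 * h)) ^ 2 + ((y2 - y1) - T * (x1 + x2 - 2 * g)) ^ 2)
      + (((x3 - x2) + T * (y2 + y3 - 2 * h)) ^ 2 + ((y3 - y2) - T * (x2 + x3 - 2 * g)) ^ 2)
      + (((x4 - x3) + T * (y3 + y4 - 2 * h)) ^ 2 + ((y4 - y3) - T * (x3 + x4 - 2 * g)) ^ 2)
      + (((x0 - x4) + T * (y4 + y0 - 2 * h)) ^ 2 + ((y0 - y4) - T * (x4 + x0 - 2 * g)) ^ 2) := by
    positivity
  subst hg
  subst hh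
  linarith

end Pool.Agent.ICL
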