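import Pool.Agent.IcoLocal.Nbhd
import Pool.Agent.ICL.Stmts

/-!
# ROT: turn a direction into the third axis
-/

set_option autoImplicit false

open Matrix
open scoped RealInnerProductSpace

namespace Pool.Agent.ICL

open Pool.Agent.Results.MP_fa01f0_gt.CentrallySymmetric
open Pool.Agent.IcoLocal

namespace M_ROT

/-- An orthogonal matrix with given last column. -/
theorem exists_orth (u : E3) (hu : ‖u‖ = 1) :
    ∃ R : Matrix (Fin 3) (Fin 3) ℝ, Rᵀ * R = 1 ∧ ∀ j, R j 2 = u j := by
  have hon : Orthonormal ℝ (({2} : Set (Fin 3)).domRestrict (fun _ : Fin 3 => u)) := by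
    constructor
    · intro i
      exact hu
    · intro i j hij
      exact absurd (Subsingleton.elim i j) hij
  obtain ⟨b, hb⟩ := hon.exists_orthonormalBasis_extension_of_card_eq (v := fun _ : Fin 3 => u)
    (s := {2}) (by simp)
  refine ⟨fun j i => b i j, ?_, fun j => ?_⟩
  · ext i k
    rw [Matrix.mul_apply, Matrix.one_apply]
    have h1 := orthonormal_iff_ite.1 b.orthonormal i k
    rw [PiLp.inner_apply] at h1
    simp only [Matrix.transpose_apply]
    rw [← h1]
    refine Finset.sum_congr rfl fun l _ => ?_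
    change b i l * b k l = inner ℝ (b i l) (b k l)
    rw [real_inner_comm]
    simp [mul_comm]
  · have h2 := hb 2 (Set.mem_singleton _)
    change b 2 j = u j
    rw [h2]

end M_ROT

open M_ROT in
theorem t_ROT : Stmt_ROT := by
  intro w n hn
  have hn0 : 0 < ‖n‖ := norm_pos_iff.2 hn
  obtain ⟨R, hR, hu⟩ := exists_orth (‖n‖⁻¹ • n) (by
    rw [norm_smul, norm_inv, norm_norm, inv_mul_cancel₀ hn0.ne'])
  refine ⟨fun i => simL 1 R (w i), ?_, ?_, fun i => ?_⟩
  · rw [simL_area 1 hR]
    ring
  · rw [simL_vol 1 R, mul_pow, mul_pow, det_sq hR]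
    ring
  · change (1 • (Rᵀ *ᵥ (w i).ofLp)) 2 = _
    rw [one_smul]
    have h1 : (inner ℝ n (w i) : ℝ) = ∑ j, n j * w i j := by
      rw [PiLp.inner_apply]
      refine Finset.sum_congr rfl fun j _ => ?_
      simp [mul_comm]
    rw [h1, Matrix.mulVec, dotProduct, div_eq_mul_inv, Finset.sum_mul]
    refine Finset.sum_congr rfl fun j _ => ?_
    rw [Matrix.transpose_apply, hu j]
    change ‖n‖⁻¹ * n j * w i j = _
    ring

end Pool.Agent.ICL
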