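import Pool.Agent.ICL.Stmts

set_option autoImplicit false

namespace Pool.Agent.ICL

open Pool.Agent.Results.MP_fa01f0_gt.CentrallySymmetric

namespace M_VOL

/-- The determinant of three vectors, written out. -/
noncomputable def D (p q r : E3) : ℝ :=
  p 0 * q 1 * r 2 - p 0 * q 2 * r 1 - p 1 * q 0 * r 2 + p 1 * q 2 * r 0 + p 2 * q 0 * r 1
    - p 2 * q 1 * r 0

lemma det_eq (w : Fin 12 → E3) (f : Fin 20) :
    (Matrix.of fun i j => w (tri f i) j).det = D (w (tri f 0)) (w (tri f 1)) (w (tri f 2)) := by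
  rw [Matrix.det_fin_three]
  simp only [Matrix.of_apply, D]

lemma vol_eq (w : Fin 12 → E3) :
    vol w = (D (w 0) (w 2) (w 4) + D (w 6) (w 9) (w 5) + D (w 1) (w 8) (w 11)
      + D (w 7) (w 3) (w 10) + D (w 1) (w 0) (w 4) + D (w 0) (w 1) (w 11) + D (w 3) (w 2) (w 0)
      + D (w 2) (w 3) (w 7) + D (w 5) (w 4) (w 2) + D (w 4) (w 5) (w 9) + D (w 6) (w 10) (w 8)
      + D (w 0) (w 11) (w 3) + D (w 7) (w 5) (w 2) + D (w 1) (w 4) (w 9) + D (w 7) (w 10) (w 6)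
      + D (w 6) (w 5) (w 7) + D (w 9) (w 6) (w 8) + D (w 8) (w 1) (w 9) + D (w 11) (w 8) (w 10)
      + D (w 10) (w 3) (w 11)) / 6 := by
  have h : ∀ f : Fin 20, (Matrix.of fun i j => w (tri f i) j).det / 6
      = D (w (tri f 0)) (w (tri f 1)) (w (tri f 2)) / 6 := fun f => by rw [det_eq]
  unfold vol
  rw [Finset.sum_congr rfl (fun f _ => h f)]
  simp only [Fin.sum_univ_succ, Fin.sum_univ_zero]
  change D (w 0) (w 2) (w 4) / 6 + (D (w 6) (w 9) (w 5) / 6 + (D (w 1) (w 8) (w 11) / 6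
      + (D (w 7) (w 3) (w 10) / 6 + (D (w 1) (w 0) (w 4) / 6 + (D (w 0) (w 1) (w 11) / 6
      + (D (w 3) (w 2) (w 0) / 6 + (D (w 2) (w 3) (w 7) / 6 + (D (w 5) (w 4) (w 2) / 6
      + (D (w 4) (w 5) (w 9) / 6 + (D (w 6) (w 10) (w 8) / 6 + (D (w 0) (w 11) (w 3) / 6
      + (D (w 7) (w 5) (w 2) / 6 + (D (w 1) (w 4) (w 9) / 6 + (D (w 7) (w 10) (w 6) / 6
      + (D (w 6) (w 5) (w 7) / 6 + (D (w 9) (w 6) (w 8) / 6 + (D (w 8) (w 1) (w 9) / 6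
      + (D (w 11) (w 8) (w 10) / 6 + (D (w 10) (w 3) (w 11) / 6 + 0))))))))))))))))))) = _
  ring

end M_VOL

open M_VOL in
theorem t_VOL : Stmt_VOL := by
  intro w zu zl hu hl x y x' y' hx hy hx' hy'
  have hu0 : w 2 2 = zu := hu 0
  have hu1 : w 4 2 = zu := hu 1
  have hu2 : w 1 2 = zu := hu 2
  have hu3 : w 11 2 = zu := hu 3
  have hu4 : w 3 2 = zu := hu 4
  have hl0 : w 5 2 = zl := hl 0
  have hl1 : w 9 2 = zl := hl 1
  have hl2 : w 8 2 = zl := hl 2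
  have hl3 : w 10 2 = zl := hl 3
  have hl4 : w 7 2 = zl := hl 4
  have hx0 : x 0 = w 2 0 := hx 0
  have hx1 : x 1 = w 4 0 := hx 1
  have hx2 : x 2 = w 1 0 := hx 2
  have hx3 : x 3 = w 11 0 := hx 3
  have hx4 : x 4 = w 3 0 := hx 4
  have hy0 : y 0 = w 2 1 := hy 0
  have hy1 : y 1 = w 4 1 := hy 1
  have hy2 : y 2 = w 1 1 := hy 2
  have hy3 : y 3 = w 11 1 := hy 3
  have hy4 : y 4 = w 3 1 := hy 4
  have hx0' : x' 0 = w 5 0 := hx' 0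
  have hx1' : x' 1 = w 9 0 := hx' 1
  have hx2' : x' 2 = w 8 0 := hx' 2
  have hx3' : x' 3 = w 10 0 := hx' 3
  have hx4' : x' 4 = w 7 0 := hx' 4
  have hy0' : y' 0 = w 5 1 := hy' 0
  have hy1' : y' 1 = w 9 1 := hy' 1
  have hy2' : y' 2 = w 8 1 := hy' 2
  have hy3' : y' 3 = w 10 1 := hy' 3
  have hy4' : y' 4 = w 7 1 := hy' 4
  have e0 : (0 : Fin 5) + 1 = 1 := rfl
  have e1 : (1 : Fin 5) + 1 = 2 := rfl
  have e2 : (2 : Fin 5) + 1 = 3 := rfl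
  have e3 : (3 : Fin 5) + 1 = 4 := rfl
  have e4 : (4 : Fin 5) + 1 = 0 := rfl
  rw [M_VOL.vol_eq]
  simp only [Fa, Wa, D, Fin.sum_univ_five, e0, e1, e2, e3, e4, hu0, hu1, hu2, hu3, hu4, hl0, hl1,
    hl2, hl3, hl4, hx0, hx1, hx2, hx3, hx4, hy0, hy1, hy2, hy3, hy4, hx0', hx1', hx2', hx3', hx4',
    hy0', hy1', hy2', hy3', hy4']
  ring

end Pool.Agent.ICL
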