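import Pool.Agent.ICL.Faces
import Pool.Agent.ICL.CONV
import Pool.Agent.ICL.GEO
import Pool.Agent.ICL.NN
import Pool.Agent.ICL.ROT
import Pool.Agent.ICL.AREA
import Pool.Agent.ICL.CONM
import Pool.Agent.ICL.EQE
import Pool.Agent.ICL.EXT
import Pool.Agent.ICL.L10
import Pool.Agent.ICL.L5
import Pool.Agent.ICL.MAX
import Pool.Agent.ICL.VOL
import Pool.Agent.ICL.W2
import Pool.Agent.ICL.SG

/-!
# Icosahedra whose two opposite vertex links lie in parallel planes: assembly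
-/

set_option autoImplicit false

namespace Pool.Agent.ICL

open Pool.Agent.Results.MP_fa01f0_gt.CentrallySymmetric

theorem t_RI (hK : Stmt_KEY) : RI :=
  t_SG (t_NN (t_FA hK t_CONV) (t_FB hK t_CONV) t_W2) (t_MX hK t_CONV) g0_pos.le

theorem t_PMAX : PMAX := t_MAX t_EXT (t_EQE t_GEO)

lemma sn_cs_pos : 0 < sn / cs := div_pos sn_pos cs_pos

lemma iso5 (x y : Fin 5 → ℝ) : 20 * (sn / cs) * Fa x y ≤ Pe x y ^ 2 := by
  have h := t_PMAX 5 (by norm_num) (sn / cs) sn_cs_pos (fun x y => t_L5 x y) x y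
  have e : (4 : ℝ) * (5 : ℕ) * (sn / cs) * Fa x y = 20 * (sn / cs) * Fa x y := by
    push_cast
    ring
  rwa [e] at h

lemma iso10 (x y : Fin 10 → ℝ) : 40 * (sn / (1 + cs)) * Fa x y ≤ Pe x y ^ 2 := by
  have hp : 0 < sn / (1 + cs) := div_pos sn_pos (by have := cs_pos; linarith)
  have h := t_PMAX 10 (by norm_num) (sn / (1 + cs)) hp (fun x y => t_L10 x y) x y
  have e : (4 : ℝ) * (10 : ℕ) * (sn / (1 + cs)) * Fa x y = 40 * (sn / (1 + cs)) * Fa x y := by
    push_cast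
    ring
  rwa [e] at h

lemma constants : area regular ^ 3 = 1215 / 4 * (sn / cs) * g0 * vol regular ^ 2 := by
  rw [area_regular, vol_regular]
  have h5 := sqrt5_sq
  have h3 : Real.sqrt 3 ^ 2 = 3 := Real.sq_sqrt (by norm_num)
  have hsn := sn_sq
  have hs := sn_pos.ne'
  have hc := cs_pos.ne'
  have h30 : Real.sqrt 3 ≠ 0 := by positivity
  have hg : g0 * (3 * Real.sqrt 3 * sn ^ 3) = 7 * Real.sqrt 5 - 15 := by
    rw [g0, div_mul_cancel₀ _ g0_den_pos.ne']
  have hcs : cs = (1 + Real.sqrt 5) / 4 := rfl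
  have h4 : sn ^ 2 * cs = Real.sqrt 5 / 8 := by
    rw [hsn, hcs]
    linear_combination (-(1 / 32 : ℝ)) * h5
  -- multiply by `√3 sn² cs`
  have key : (20 * Real.sqrt 3) ^ 3 * (Real.sqrt 3 * sn ^ 2 * cs)
      = 1215 / 4 * (sn / cs) * g0 * (10 / 3 * (3 + Real.sqrt 5)) ^ 2 * (Real.sqrt 3 * sn ^ 2 * cs) := by
    have e1 : 1215 / 4 * (sn / cs) * g0 * (10 / 3 * (3 + Real.sqrt 5)) ^ 2 * (Real.sqrt 3 * sn ^ 2 * cs)
        = 405 / 4 * (g0 * (3 * Real.sqrt 3 * sn ^ 3)) * (10 / 3 * (3 + Real.sqrt 5)) ^ 2 := by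
      field_simp
      ring
    have e2 : (20 * Real.sqrt 3) ^ 3 * (Real.sqrt 3 * sn ^ 2 * cs)
        = 8000 * (Real.sqrt 3 ^ 2) ^ 2 * (sn ^ 2 * cs) := by ring
    rw [e1, e2, hg, h4, h3]
    linear_combination (-(405 / 4 * (100 / 9)) * (7 * Real.sqrt 5 + 27)) * h5
  exact mul_right_cancel₀ (by positivity) key

/-- Steiner's inequality if the two planes are horizontal. -/
theorem ineq_z (hK : Stmt_KEY) (w : Fin 12 → E3) (zu zl : ℝ) (hu : ∀ k, w (iu k) 2 = zu)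
    (hl : ∀ k, w (il k) 2 = zl) :
    area regular ^ 3 * vol w ^ 2 ≤ area w ^ 3 * vol regular ^ 2 := by
  set x : Fin 5 → ℝ := fun k => w (iu k) 0 with hx
  set y : Fin 5 → ℝ := fun k => w (iu k) 1 with hy
  set x' : Fin 5 → ℝ := fun k => w (il k) 0 with hx'
  set y' : Fin 5 → ℝ := fun k => w (il k) 1 with hy'
  have hA := t_AREA w zu zl hu hl x y x' y' (fun _ => rfl) (fun _ => rfl) (fun _ => rfl) (fun _ => rfl)
  have hV := t_VOL w zu zl hu hl x y x' y' (fun _ => rfl) (fun _ => rfl) (fun _ => rfl) (fun _ => rfl)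
  have hsn := sn_pos
  have hcs := cs_pos
  have hP : 0 ≤ Pe x y := Finset.sum_nonneg fun _ _ => Real.sqrt_nonneg _
  have hP' : 0 ≤ Pe x' y' := Finset.sum_nonneg fun _ _ => Real.sqrt_nonneg _
  set a := Pe x y / (10 * sn) with ha
  set b := Pe x' y' / (10 * sn) with hb
  set A1 := Fa x y / (5 * sn * cs) with hA1
  set A2 := Fa x' y' / (5 * sn * cs) with hA2
  set t := Wa x y x' y' / (5 * sn * cs) with ht
  obtain ⟨c1, c2, c3, c4⟩ := t_CON iso5 iso10 x y x' y' a b A1 A2 t rfl rfl rfl rfl rfl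
  have ha0 : 0 ≤ a := by positivity
  have hb0 : 0 ≤ b := by positivity
  have hR := t_RI hK a b A1 A2 t ha0 hb0 c1 c2 c3 c4 ((w 0 2 - zu) / cs) ((zl - w 6 2) / cs)
    ((zu - zl) / cs)
  set p := (w 0 2 - zu) / cs with hp
  set q := (zl - w 6 2) / cs with hq
  set h := (zu - zl) / cs with hh
  have eP : Pe x y = 10 * sn * a := by rw [ha]; field_simp
  have eP' : Pe x' y' = 10 * sn * b := by rw [hb]; field_simp
  have eF : Fa x y = 5 * sn * cs * A1 := by rw [hA1]; field_simp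
  have eF' : Fa x' y' = 5 * sn * cs * A2 := by rw [hA2]; field_simp
  have eW : Wa x y x' y' = 5 * sn * cs * t := by rw [ht]; field_simp
  have ep : w 0 2 - zu = cs * p := by rw [hp]; field_simp
  have eq : zl - w 6 2 = cs * q := by rw [hq]; field_simp
  have eh : zu - zl = cs * h := by rw [hh]; field_simp
  rw [eP, eP', eF, eF', eW, ep, eq, eh] at hA
  rw [eF, eF', eW, ep, eq, eh] at hV
  have hk : 0 < 5 * sn * cs := by positivity
  have key : ∀ X Y Z : ℝ, Real.sqrt ((5 * sn * cs * X) ^ 2 + (cs * Z * (10 * sn * Y / 2)) ^ 2)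
      = 5 * sn * cs * Real.sqrt (X ^ 2 + (Z * Y) ^ 2) := by
    intro X Y Z
    have : (5 * sn * cs * X) ^ 2 + (cs * Z * (10 * sn * Y / 2)) ^ 2
        = (5 * sn * cs) ^ 2 * (X ^ 2 + (Z * Y) ^ 2) := by ring
    rw [this, Real.sqrt_mul (by positivity), Real.sqrt_sq hk.le]
  have e1 : 5 * sn * cs * t - 5 * sn * cs * A1 = 5 * sn * cs * (t - A1) := by ring
  have e2 : 5 * sn * cs * t - 5 * sn * cs * A2 = 5 * sn * cs * (t - A2) := by ring
  rw [e1, e2, key, key, key, key] at hA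
  have hA' : 5 * sn * cs * Ag a b A1 A2 (t - A1) (t - A2) p q h ≤ area w := by
    refine le_of_eq_of_le ?_ hA
    unfold Ag
    ring
  have hAg : 0 ≤ Ag a b A1 A2 (t - A1) (t - A2) p q h := by
    unfold Ag
    positivity
  have hA3 := pow_le_pow_left₀ (by positivity) hA' 3
  rw [constants]
  have hV2 : vol w ^ 2 = (5 * sn * cs ^ 2 / 3) ^ 2
      * (p * A1 + q * A2 + h * (A1 + A2 + t)) ^ 2 := by
    rw [hV]
    ring
  have hmain : 1215 / 4 * (sn / cs) * g0 * vol w ^ 2 ≤ area w ^ 3 := by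
    refine le_trans ?_ hA3
    rw [hV2]
    have e3 : 1215 / 4 * (sn / cs) * g0 * ((5 * sn * cs ^ 2 / 3) ^ 2
        * (p * A1 + q * A2 + h * (A1 + A2 + t)) ^ 2)
        = (5 * sn * cs) ^ 3 / 4 * (27 * g0 * (p * A1 + q * A2 + h * (A1 + A2 + t)) ^ 2) := by
      field_simp
      ring
    rw [e3]
    have := mul_le_mul_of_nonneg_left hR (show 0 ≤ (5 * sn * cs) ^ 3 / 4 by positivity)
    refine this.trans_eq ?_
    ring
  have := mul_le_mul_of_nonneg_right hmain (sq_nonneg (vol regular))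
  linarith

/-- Steiner's inequality if the neighbours of the vertices `0` and `6` lie in two parallel planes. -/
theorem ineq_planes (hK : Stmt_KEY) (w : Fin 12 → E3) (n : E3) (hn : n ≠ 0) (α β : ℝ)
    (hu : ∀ k, inner ℝ n (w (iu k)) = α) (hl : ∀ k, inner ℝ n (w (il k)) = β) :
    area regular ^ 3 * vol w ^ 2 ≤ area w ^ 3 * vol regular ^ 2 := by
  obtain ⟨w', h1, h2, h3⟩ := t_ROT w n hn
  have := ineq_z hK w' (α / ‖n‖) (β / ‖n‖) (fun k => by rw [h3, hu]) (fun k => by rw [h3, hl])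
  rwa [h1, h2] at this

end Pool.Agent.ICL
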