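import Mathlib

/-!
# Icosahedra whose two opposite vertex links lie in parallel planes (MP_fa01f0_gt): definitions
-/

set_option autoImplicit false

namespace Pool.Agent.ICL

/-- `cos 36`. -/
noncomputable def cs : ℝ := (1 + Real.sqrt 5) / 4

/-- `sin 36`. -/
noncomputable def sn : ℝ := Real.sqrt ((5 - Real.sqrt 5) / 8)

/-- The constant of the reduced inequality; `g0 = 0.6183388...`. -/
noncomputable def g0 : ℝ := (7 * Real.sqrt 5 - 15) / (3 * Real.sqrt 3 * sn ^ 3)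

section Polygon

variable {n : ℕ} [NeZero n]

/-- Signed area of a closed planar polygon. -/
noncomputable def Fa (x y : Fin n → ℝ) : ℝ := 1 / 2 * ∑ k, (x k * y (k + 1) - x (k + 1) * y k)

/-- Perimeter of a closed planar polygon. -/
noncomputable def Pe (x y : Fin n → ℝ) : ℝ :=
  ∑ k, Real.sqrt ((x (k + 1) - x k) ^ 2 + (y (k + 1) - y k) ^ 2)

/-- Sum of the squares of the edges of a closed planar polygon. -/
noncomputable def Qe (x y : Fin n → ℝ) : ℝ :=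
  ∑ k, ((x (k + 1) - x k) ^ 2 + (y (k + 1) - y k) ^ 2)

end Polygon

/-- Signed area of the decagon `u 0, l 0, u 1, l 1, ..., u 4, l 4` for two pentagons
`u = (x, y)`, `l = (x', y')`. -/
noncomputable def Wa (x y x' y' : Fin 5 → ℝ) : ℝ :=
  1 / 2 * ∑ k, ((x k * y' k - x' k * y k) + (x' k * y (k + 1) - x (k + 1) * y' k))

/-- The reduced area. -/
noncomputable def Ag (a b A1 A2 r1 r2 p q h : ℝ) : ℝ :=
  Real.sqrt (A1 ^ 2 + (p * a) ^ 2) + Real.sqrt (A2 ^ 2 + (q * b) ^ 2)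
    + Real.sqrt (r1 ^ 2 + (h * a) ^ 2) + Real.sqrt (r2 ^ 2 + (h * b) ^ 2)

/-- The reduced inequality for given planar data. -/
def Ineq (a b A1 A2 M r1 r2 : ℝ) : Prop :=
  ∀ p q h : ℝ, 0 ≤ p → 0 ≤ q → 0 ≤ h →
    27 * g0 * (p * A1 + q * A2 + h * M) ^ 2 ≤ 4 * Ag a b A1 A2 r1 r2 p q h ^ 3

/-- The planar data are handled by the test directions `(C1, S1)`, `(C2, S2)`. -/
def Good (a b C1 S1 C2 S2 A1 A2 M r1 r2 : ℝ) : Prop :=
  0 ≤ A1 ∧ 0 ≤ A2 ∧ 0 < M ∧ (a * S1 + b * S2) * A1 ≤ a * M ∧ (a * S1 + b * S2) * A2 ≤ b * M ∧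
  g0 * M ^ 2 ≤ (a * S1 + b * S2) ^ 2 *
    (A1 * Real.sqrt (1 - ((a * S1 + b * S2) * A1 / (a * M)) ^ 2)
      + A2 * Real.sqrt (1 - ((a * S1 + b * S2) * A2 / (b * M)) ^ 2) + r1 * C1 + r2 * C2)

/-- A vertex of the region, `a = 1`, `b = x`. -/
def Vt (C1 S1 C2 S2 f g t x : ℝ) : Prop :=
  Good 1 x C1 S1 C2 S2 f (g * x ^ 2) (f + g * x ^ 2 + t * x) (t * x - f) (t * x - g * x ^ 2)

/-- A vertex of the region in the mixed case, `a = 1`, `b = x`. -/
def Vm (C1 S1 C2 S2 f g t x : ℝ) : Prop :=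
  Good 1 x C1 S1 C2 S2 f (g * x ^ 2) (f + g * x ^ 2 + t * x) (t * x - f) (t * x + g * x ^ 2)

/-- The indices of the neighbours of the vertex `0`, in cyclic order. -/
def iu : Fin 5 → Fin 12 := ![2, 4, 1, 11, 3]

/-- The indices of the neighbours of the vertex `6`, in cyclic order, `il k` being adjacent to
`iu k` and `iu (k + 1)`. -/
def il : Fin 5 → Fin 12 := ![5, 9, 8, 10, 7]

end Pool.Agent.ICL
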