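import Pool.Agent.ICL.VA1

/-!
# Vertex checks in the region `1/2 ≤ b/a`
-/

set_option autoImplicit false

namespace Pool.Agent.ICL

lemma Ap_11c {d s : ℝ} (h5 : s ^ 2 = 5) (hl : (2236067 / 1000000 : ℝ) ≤ s) (hu : s ≤ (2236068 / 1000000 : ℝ))
    (h1 : -(1 / 3) ≤ d) (h2 : d ≤ 1 / 3) :
    (7 * s - 15) * ((1 + 169 / 200 * d ^ 2) * (1 * (1 + d) ^ 2 + 1 * (1 - d) ^ 2 + (1 : ℝ) * ((1 + d) * (1 - d)))) ^ 4
      ≤ (2 + 13 / 5 * ((3 - s) / 4) * d ^ 2) ^ 2 *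
        (1 * (1 + d) ^ 2 * ((29 / 10 * s - 57 / 10) * ((1 + 169 / 200 * d ^ 2) * (1 * (1 + d) ^ 2 + 1 * (1 - d) ^ 2 + (1 : ℝ) * ((1 + d) * (1 - d)))) ^ 2
            + (23 / 10 * s - 43 / 10) * ((2 + 13 / 5 * ((3 - s) / 4) * d ^ 2) * (1 * (1 + d))) * ((1 + 169 / 200 * d ^ 2) * (1 * (1 + d) ^ 2 + 1 * (1 - d) ^ 2 + (1 : ℝ) * ((1 + d) * (1 - d))))
            - 13 / 10 * ((2 + 13 / 5 * ((3 - s) / 4) * d ^ 2) * (1 * (1 + d))) ^ 2)
          + 1 * (1 - d) ^ 2 * ((29 / 10 * s - 57 / 10) * ((1 + 169 / 200 * d ^ 2) * (1 * (1 + d) ^ 2 + 1 * (1 - d) ^ 2 + (1 : ℝ) * ((1 + d) * (1 - d)))) ^ 2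
            + (23 / 10 * s - 43 / 10) * ((2 + 13 / 5 * ((3 - s) / 4) * d ^ 2) * (1 * (1 - d))) * ((1 + 169 / 200 * d ^ 2) * (1 * (1 + d) ^ 2 + 1 * (1 - d) ^ 2 + (1 : ℝ) * ((1 + d) * (1 - d))))
            - 13 / 10 * ((2 + 13 / 5 * ((3 - s) / 4) * d ^ 2) * (1 * (1 - d))) ^ 2)
          + (1 + 169 / 200 * d ^ 2) * (1 * (1 + d) ^ 2 + 1 * (1 - d) ^ 2 + (1 : ℝ) * ((1 + d) * (1 - d))) ^ 2 * (((1 : ℝ) * ((1 + d) * (1 - d)) - 1 * (1 + d) ^ 2) * ((3 - s) / 4 - 13 / 10 * d)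
            + ((1 : ℝ) * ((1 + d) * (1 - d)) - 1 * (1 - d) ^ 2) * ((3 - s) / 4 + 13 / 10 * d))) := by
  have blo : ∀ A B : ℝ, 0 ≤ A → 0 ≤ B → 0 ≤ (538643060265627 / 5000000) * B ^ 8 + (51833773883004399 / 50000000) * A ^ 1 * B ^ 7 + (431731903443723939339 / 100000000000) * A ^ 2 * B ^ 6 + (20333804886644095572939 / 2000000000000) * A ^ 3 * B ^ 5 + (23706361620735739889279211 / 1600000000000000) * A ^ 4 * B ^ 4 + (684617288817713368220343 / 50000000000000) * A ^ 5 * B ^ 3 + (98015016794620661570007 / 12500000000000) * A ^ 6 * B ^ 2 + (15911074407007818320931 / 6250000000000) * A ^ 7 * B ^ 1 + (2243566244407184578501 / 6250000000000) * A ^ 8 := by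
    intro A B hA hB
    positivity
  have bhi : ∀ A B : ℝ, 0 ≤ A → 0 ≤ B → 0 ≤ (134647431344577 / 1250000) * B ^ 8 + (12957363491895549 / 12500000) * A ^ 1 * B ^ 7 + (107925355162181049489 / 25000000000) * A ^ 2 * B ^ 6 + (5083145448735234043089 / 500000000000) * A ^ 3 * B ^ 5 + (5926285400165716980336561 / 400000000000000) * A ^ 4 * B ^ 4 + (171146765229903661525893 / 12500000000000) * A ^ 5 * B ^ 3 + (24502825051960846236957 / 3125000000000) * A ^ 6 * B ^ 2 + (3977639201309079400281 / 1562500000000) * A ^ 7 * B ^ 1 + (560875961117024952351 / 1562500000000) * A ^ 8 := by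
    intro A B hA hB
    positivity
  have hA : 0 ≤ d ^ 2 := sq_nonneg d
  have hB : 0 ≤ 1 / 9 - d ^ 2 := by nlinarith
  have plo : 0 ≤ ((2783 / 5) + (133319 / 250) * d ^ 2 + (-(526116121 / 100000)) * d ^ 4 + (-(30895974249 / 2000000)) * d ^ 6 + (-(5478433547389 / 320000000)) * d ^ 8 + (-(657720928059 / 80000000)) * d ^ 10 + (-(202566236327 / 160000000)) * d ^ 12 + (2186544477 / 80000000) * d ^ 14 + (2447192163 / 320000000) * d ^ 16) + 2236067 / 1000000 * ((-(1239 / 5)) + (-(11107 / 50)) * d ^ 2 + (241765337 / 100000) * d ^ 4 + (13822725273 / 2000000) * d ^ 6 + (12153139683353 / 1600000000) * d ^ 8 + (1452283923831 / 400000000) * d ^ 10 + (440947880971 / 800000000) * d ^ 12 + (-(5835612081 / 400000000)) * d ^ 14 + (-(5710115047 / 1600000000)) * d ^ 16) :=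
    le_of_le_of_eq (blo (d ^ 2) (1 / 9 - d ^ 2) hA hB) (by ring)
  have phi : 0 ≤ ((2783 / 5) + (133319 / 250) * d ^ 2 + (-(526116121 / 100000)) * d ^ 4 + (-(30895974249 / 2000000)) * d ^ 6 + (-(5478433547389 / 320000000)) * d ^ 8 + (-(657720928059 / 80000000)) * d ^ 10 + (-(202566236327 / 160000000)) * d ^ 12 + (2186544477 / 80000000) * d ^ 14 + (2447192163 / 320000000) * d ^ 16) + 2236068 / 1000000 * ((-(1239 / 5)) + (-(11107 / 50)) * d ^ 2 + (241765337 / 100000) * d ^ 4 + (13822725273 / 2000000) * d ^ 6 + (12153139683353 / 1600000000) * d ^ 8 + (1452283923831 / 400000000) * d ^ 10 + (440947880971 / 800000000) * d ^ 12 + (-(5835612081 / 400000000)) * d ^ 14 + (-(5710115047 / 1600000000)) * d ^ 16) :=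
    le_of_le_of_eq (bhi (d ^ 2) (1 / 9 - d ^ 2) hA hB) (by ring)
  have hR := affine_pos hl hu plo phi
  rw [← sub_nonneg]
  refine le_of_le_of_eq hR ?_
  linear_combination (-((-(6084 / 25)) * d ^ 2 + (-(14060631 / 10000)) * d ^ 4 + (4563 / 80) * d ^ 4 * s + (-(1590006769 / 500000)) * d ^ 6 + (27090869 / 100000) * d ^ 6 * s + (-(151593 / 40000)) * d ^ 6 * s ^ 2 + (-(274125466381 / 80000000)) * d ^ 8 + (35700121249 / 80000000) * d ^ 8 * s + (-(130394147 / 8000000)) * d ^ 8 * s ^ 2 + (-(27630041361 / 16000000)) * d ^ 10 + (4578596503 / 16000000) * d ^ 10 * s + (-(13799357 / 800000)) * d ^ 10 * s ^ 2 + (-(26113407983 / 80000000)) * d ^ 12 + (4569959927 / 80000000) * d ^ 12 * s + (-(29332147 / 8000000)) * d ^ 12 * s ^ 2 + (-(1114992879 / 80000000)) * d ^ 14 + (139977461 / 80000000) * d ^ 14 * s)) * h5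

lemma Az1_11c {d s : ℝ} (h5 : s ^ 2 = 5) (hl : (2236067 / 1000000 : ℝ) ≤ s) (hu : s ≤ (2236068 / 1000000 : ℝ))
    (h1 : -(1 / 3) ≤ d) (h2 : d ≤ 1 / 3) :
    (2 + 13 / 5 * ((3 - s) / 4) * d ^ 2) * (1 * (1 + d))
      ≤ 838 / 1000 * ((1 + 169 / 200 * d ^ 2) * (1 * (1 + d) ^ 2 + 1 * (1 - d) ^ 2 + (1 : ℝ) * ((1 + d) * (1 - d)))) := by
  have blo : ∀ A B : ℝ, 0 ≤ A → 0 ≤ B → 0 ≤ (1200237413 / 160000000) * B ^ 4 + (2687242213 / 160000000) * A ^ 1 * B ^ 3 + (2096687361 / 160000000) * A ^ 2 * B ^ 2 + (586828987 / 160000000) * A ^ 3 * B ^ 1 + (45222013 / 80000000) * A ^ 4 := by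
    intro A B hA hB
    positivity
  have bhi : ∀ A B : ℝ, 0 ≤ A → 0 ≤ B → 0 ≤ (300059363 / 40000000) * B ^ 4 + (671810563 / 40000000) * A ^ 1 * B ^ 3 + (524171811 / 40000000) * A ^ 2 * B ^ 2 + (146707237 / 40000000) * A ^ 3 * B ^ 1 + (11305513 / 20000000) * A ^ 4 := by
    intro A B hA hB
    positivity
  have hA : 0 ≤ d + 1 / 3 := by linarith
  have hB : 0 ≤ 1 / 3 - d := by linarith
  have plo : 0 ≤ ((257 / 500) + (-2) * d ^ 1 + (101233 / 100000) * d ^ 2 + (-(39 / 20)) * d ^ 3 + (70811 / 100000) * d ^ 4) + 2236067 / 1000000 * ((13 / 20) * d ^ 2 + (13 / 20) * d ^ 3) :=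
    le_of_le_of_eq (blo (d + 1 / 3) (1 / 3 - d) hA hB) (by ring)
  have phi : 0 ≤ ((257 / 500) + (-2) * d ^ 1 + (101233 / 100000) * d ^ 2 + (-(39 / 20)) * d ^ 3 + (70811 / 100000) * d ^ 4) + 2236068 / 1000000 * ((13 / 20) * d ^ 2 + (13 / 20) * d ^ 3) :=
    le_of_le_of_eq (bhi (d + 1 / 3) (1 / 3 - d) hA hB) (by ring)
  have hR := affine_pos hl hu plo phi
  rw [← sub_nonneg]
  refine le_of_le_of_eq hR ?_
  linear_combination (-(0)) * h5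

lemma Az2_11c {d s : ℝ} (h5 : s ^ 2 = 5) (hl : (2236067 / 1000000 : ℝ) ≤ s) (hu : s ≤ (2236068 / 1000000 : ℝ))
    (h1 : -(1 / 3) ≤ d) (h2 : d ≤ 1 / 3) :
    (2 + 13 / 5 * ((3 - s) / 4) * d ^ 2) * (1 * (1 - d))
      ≤ 838 / 1000 * ((1 + 169 / 200 * d ^ 2) * (1 * (1 + d) ^ 2 + 1 * (1 - d) ^ 2 + (1 : ℝ) * ((1 + d) * (1 - d)))) := by
  have blo : ∀ A B : ℝ, 0 ≤ A → 0 ≤ B → 0 ≤ (45222013 / 80000000) * B ^ 4 + (586828987 / 160000000) * A ^ 1 * B ^ 3 + (2096687361 / 160000000) * A ^ 2 * B ^ 2 + (2687242213 / 160000000) * A ^ 3 * B ^ 1 + (1200237413 / 160000000) * A ^ 4 := by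
    intro A B hA hB
    positivity
  have bhi : ∀ A B : ℝ, 0 ≤ A → 0 ≤ B → 0 ≤ (11305513 / 20000000) * B ^ 4 + (146707237 / 40000000) * A ^ 1 * B ^ 3 + (524171811 / 40000000) * A ^ 2 * B ^ 2 + (671810563 / 40000000) * A ^ 3 * B ^ 1 + (300059363 / 40000000) * A ^ 4 := by
    intro A B hA hB
    positivity
  have hA : 0 ≤ d + 1 / 3 := by linarith
  have hB : 0 ≤ 1 / 3 - d := by linarith
  have plo : 0 ≤ ((257 / 500) + 2 * d ^ 1 + (101233 / 100000) * d ^ 2 + (39 / 20) * d ^ 3 + (70811 / 100000) * d ^ 4) + 2236067 / 1000000 * ((13 / 20) * d ^ 2 + (-(13 / 20)) * d ^ 3) :=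
    le_of_le_of_eq (blo (d + 1 / 3) (1 / 3 - d) hA hB) (by ring)
  have phi : 0 ≤ ((257 / 500) + 2 * d ^ 1 + (101233 / 100000) * d ^ 2 + (39 / 20) * d ^ 3 + (70811 / 100000) * d ^ 4) + 2236068 / 1000000 * ((13 / 20) * d ^ 2 + (-(13 / 20)) * d ^ 3) :=
    le_of_le_of_eq (bhi (d + 1 / 3) (1 / 3 - d) hA hB) (by ring)
  have hR := affine_pos hl hu plo phi
  rw [← sub_nonneg]
  refine le_of_le_of_eq hR ?_
  linear_combination (-(0)) * h5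

lemma A_11c {d : ℝ} (h1 : -(1 / 3) ≤ d) (h2 : d ≤ 1 / 3) :
    Good (1 + d) (1 - d) (C1A d) (S1A d) (C2A d) (S2A d) (1 * (1 + d) ^ 2) (1 * (1 - d) ^ 2)
      (1 * (1 + d) ^ 2 + 1 * (1 - d) ^ 2 + (1 : ℝ) * ((1 + d) * (1 - d)))
      ((1 : ℝ) * ((1 + d) * (1 - d)) - 1 * (1 + d) ^ 2)
      ((1 : ℝ) * ((1 + d) * (1 - d)) - 1 * (1 - d) ^ 2) := by
  have hab : 0 < (1 + d) * (1 - d) := mul_pos (by linarith) (by linarith)
  have ht : 0 < (1 : ℝ) := by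
    have := sqrt5_lb
    linarith
  exact good_hat h1 h2 (by norm_num) (by norm_num) (by positivity)
    (Az1_11c sqrt5_sq sqrt5_lb sqrt5_ub h1 h2) (Az2_11c sqrt5_sq sqrt5_lb sqrt5_ub h1 h2)
    (Ap_11c sqrt5_sq sqrt5_lb sqrt5_ub h1 h2)

end Pool.Agent.ICL
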