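import Pool.Agent.ICL.Vert

/-!
# Vertex checks B1
-/

set_option autoImplicit false

namespace Pool.Agent.ICL

lemma B1_1h_a {x : ℝ} (hl : (1 / 2) ≤ x) (hu : x ≤ (3 / 4)) :
    Vt (17 / 1000) (4999 / 5000) (139 / 200) (719 / 1000) 1 (1 / 2) (743 / 500) x := by
  have hA : 0 ≤ x - (1 / 2) := by linarith
  have hB : 0 ≤ (3 / 4) - x := by linarith
  have hx : 0 ≤ x := by linarith
  have hM : 0 < 1 + (1 / 2) * x ^ 2 + (743 / 500) * x := by positivity
  have hs : 0 < (4999 / 5000) + x * (719 / 1000) := by positivity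
  have k1 : (641 / 1000) * (1 + (1 / 2) * x ^ 2 + (743 / 500) * x) ≤ ((4999 / 5000) + x * (719 / 1000)) * 1 := by
    have hb : 0 ≤ (40478 / 15625) * ((3 / 4) - x) ^ 2 + (74127 / 25000) * ((x - (1 / 2)) * ((3 / 4) - x)) + (13497 / 250000) * (x - (1 / 2)) ^ 2 := by
      have h1 := mul_nonneg hA hB
      positivity
    nlinarith [hb]
  have k2 : ((4999 / 5000) + x * (719 / 1000)) * 1 ≤ (729 / 1000) * (1 + (1 / 2) * x ^ 2 + (743 / 500) * x) := by
    have hb : 0 ≤ (618 / 15625) * ((3 / 4) - x) ^ 2 + (74857 / 25000) * ((x - (1 / 2)) * ((3 / 4) - x)) + (829807 / 250000) * (x - (1 / 2)) ^ 2 := by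
      have h1 := mul_nonneg hA hB
      positivity
    nlinarith [hb]
  have k3 : (9 / 50) * (1 + (1 / 2) * x ^ 2 + (743 / 500) * x) ≤ ((4999 / 5000) + x * (719 / 1000)) * (1 / 2) * x := by
    have hb : 0 ≤ (717 / 12500) * ((3 / 4) - x) ^ 2 + (2653 / 1250) * ((x - (1 / 2)) * ((3 / 4) - x)) + (116727 / 50000) * (x - (1 / 2)) ^ 2 := by
      have h1 := mul_nonneg hA hB
      positivity
    nlinarith [hb]
  have k4 : ((4999 / 5000) + x * (719 / 1000)) * (1 / 2) * x ≤ (121 / 500) * (1 + (1 / 2) * x ^ 2 + (743 / 500) * x) := by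
    have hb : 0 ≤ (112231 / 62500) * ((3 / 4) - x) ^ 2 + (25953 / 12500) * ((x - (1 / 2)) * ((3 / 4) - x)) + (10511 / 250000) * (x - (1 / 2)) ^ 2 := by
      have h1 := mul_nonneg hA hB
      positivity
    nlinarith [hb]
  refine good_of (σ := ((4999 / 5000) + x * (719 / 1000))) (α1 := (2101 / 2000)) (β1 := (6887 / 10000)) (α2 := (5001 / 5000)) (β2 := (2559 / 5000))
    (by ring) hs hM hx (by norm_num) (by norm_num) ?_ ?_ ?_ ?_ ?_
  · nlinarith [k2, hM]
  · nlinarith [k4, hM]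
  · exact mul_le_mul_of_nonneg_left (sqrt_chord hM (by norm_num) k1 k2 (by norm_num) (by norm_num)) (by norm_num)
  · exact mul_le_mul_of_nonneg_left (sqrt_chord hM (by norm_num) k3 k4 (by norm_num) (by norm_num)) (by norm_num)
  · have hb : ∀ A B : ℝ, 0 ≤ A → 0 ≤ B → 0 ≤ (2723714116202066200097 / 97656250000000000) * B ^ 8 + (1715162550930536173009 / 6103515625000000) * A ^ 1 * B ^ 7 + (118023625220907977524559 / 97656250000000000) * A ^ 2 * B ^ 6 + (71130114372885718937797 / 24414062500000000) * A ^ 3 * B ^ 5 + (3375950218401898853501603 / 781250000000000000) * A ^ 4 * B ^ 4 + (395256453872038666038411 / 97656250000000000) * A ^ 5 * B ^ 3 + (731791430574375697225923 / 312500000000000000) * A ^ 6 * B ^ 2 + (299224842003076474939247 / 390625000000000000) * A ^ 7 * B ^ 1 + (2713543800144958313857569 / 25000000000000000000) * A ^ 8 := by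
      intro A B hA hB
      positivity
    exact le_of_le_of_eq (hb (x - (1 / 2)) ((3 / 4) - x) hA hB) (by ring)

lemma B1_h1_a {x : ℝ} (hl : (1 / 2) ≤ x) (hu : x ≤ (3 / 4)) :
    Vt (17 / 1000) (4999 / 5000) (139 / 200) (719 / 1000) (1 / 2) 1 (743 / 500) x := by
  have hA : 0 ≤ x - (1 / 2) := by linarith
  have hB : 0 ≤ (3 / 4) - x := by linarith
  have hx : 0 ≤ x := by linarith
  have hM : 0 < (1 / 2) + 1 * x ^ 2 + (743 / 500) * x := by positivity
  have hs : 0 < (4999 / 5000) + x * (719 / 1000) := by positivity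
  have k1 : (44 / 125) * ((1 / 2) + 1 * x ^ 2 + (743 / 500) * x) ≤ ((4999 / 5000) + x * (719 / 1000)) * (1 / 2) := by
    have hb : 0 ≤ (77057 / 31250) * ((3 / 4) - x) ^ 2 + (35867 / 12500) * ((x - (1 / 2)) * ((3 / 4) - x)) + (3221 / 62500) * (x - (1 / 2)) ^ 2 := by
      have h1 := mul_nonneg hA hB
      positivity
    nlinarith [hb]
  have k2 : ((4999 / 5000) + x * (719 / 1000)) * (1 / 2) ≤ (457 / 1000) * ((1 / 2) + 1 * x ^ 2 + (743 / 500) * x) := by
    have hb : 0 ≤ (2651 / 62500) * ((3 / 4) - x) ^ 2 + (79781 / 25000) * ((x - (1 / 2)) * ((3 / 4) - x)) + (56341 / 15625) * (x - (1 / 2)) ^ 2 := by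
      have h1 := mul_nonneg hA hB
      positivity
    nlinarith [hb]
  have k3 : (227 / 500) * ((1 / 2) + 1 * x ^ 2 + (743 / 500) * x) ≤ ((4999 / 5000) + x * (719 / 1000)) * 1 * x := by
    have hb : 0 ≤ (457 / 15625) * ((3 / 4) - x) ^ 2 + (30239 / 12500) * ((x - (1 / 2)) * ((3 / 4) - x)) + (331859 / 125000) * (x - (1 / 2)) ^ 2 := by
      have h1 := mul_nonneg hA hB
      positivity
    nlinarith [hb]
  have k4 : ((4999 / 5000) + x * (719 / 1000)) * 1 * x ≤ (133 / 250) * ((1 / 2) + 1 * x ^ 2 + (743 / 500) * x) := by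
    have hb : 0 ≤ (57313 / 31250) * ((3 / 4) - x) ^ 2 + (13019 / 6250) * ((x - (1 / 2)) * ((3 / 4) - x)) + (7753 / 125000) * (x - (1 / 2)) ^ 2 := by
      have h1 := mul_nonneg hA hB
      positivity
    nlinarith [hb]
  refine good_of (σ := ((4999 / 5000) + x * (719 / 1000))) (α1 := (5019 / 5000)) (β1 := (5479 / 10000)) (α2 := (631 / 625)) (β2 := (1151 / 2000))
    (by ring) hs hM hx (by norm_num) (by norm_num) ?_ ?_ ?_ ?_ ?_
  · nlinarith [k2, hM]
  · nlinarith [k4, hM]
  · exact mul_le_mul_of_nonneg_left (sqrt_chord hM (by norm_num) k1 k2 (by norm_num) (by norm_num)) (by norm_num)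
  · exact mul_le_mul_of_nonneg_left (sqrt_chord hM (by norm_num) k3 k4 (by norm_num) (by norm_num)) (by norm_num)
  · have hb : ∀ A B : ℝ, 0 ≤ A → 0 ≤ B → 0 ≤ (1769002012222191431543 / 24414062500000000) * B ^ 8 + (3873099058765634148267 / 6103515625000000) * A ^ 1 * B ^ 7 + (29308642392808655003977 / 12207031250000000) * A ^ 2 * B ^ 6 + (124792812461505541370901 / 24414062500000000) * A ^ 3 * B ^ 5 + (32564805116778494100433 / 4882812500000000) * A ^ 4 * B ^ 4 + (264959631637672768989191 / 48828125000000000) * A ^ 5 * B ^ 3 + (1039430023916147508609903 / 390625000000000000) * A ^ 6 * B ^ 2 + (68919043594548986670481 / 97656250000000000) * A ^ 7 * B ^ 1 + (465940903827419066882501 / 6250000000000000000) * A ^ 8 := by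
      intro A B hA hB
      positivity
    exact le_of_le_of_eq (hb (x - (1 / 2)) ((3 / 4) - x) hA hB) (by ring)

lemma B1_10_a {x : ℝ} (hl : (1 / 2) ≤ x) (hu : x ≤ (3 / 4)) :
    Vt (17 / 1000) (4999 / 5000) (139 / 200) (719 / 1000) 1 0 (217 / 125) x := by
  have hA : 0 ≤ x - (1 / 2) := by linarith
  have hB : 0 ≤ (3 / 4) - x := by linarith
  have hx : 0 ≤ x := by linarith
  have hM : 0 < 1 + 0 * x ^ 2 + (217 / 125) * x := by positivity
  have hs : 0 < (4999 / 5000) + x * (719 / 1000) := by positivity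
  have k1 : (667 / 1000) * (1 + 0 * x ^ 2 + (217 / 125) * x) ≤ ((4999 / 5000) + x * (719 / 1000)) * 1 := by
    have hb : 0 ≤ (28336 / 15625) * ((3 / 4) - x) ^ 2 + (5848 / 3125) * ((x - (1 / 2)) * ((3 / 4) - x)) + (904 / 15625) * (x - (1 / 2)) ^ 2 := by
      have h1 := mul_nonneg hA hB
      positivity
    nlinarith [hb]
  have k2 : ((4999 / 5000) + x * (719 / 1000)) * 1 ≤ (729 / 1000) * (1 + 0 * x ^ 2 + (217 / 125) * x) := by
    have hb : 0 ≤ (618 / 15625) * ((3 / 4) - x) ^ 2 + (7079 / 3125) * ((x - (1 / 2)) * ((3 / 4) - x)) + (34777 / 15625) * (x - (1 / 2)) ^ 2 := by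
      have h1 := mul_nonneg hA hB
      positivity
    nlinarith [hb]
  refine good_of (σ := ((4999 / 5000) + x * (719 / 1000))) (α1 := (5281 / 5000)) (β1 := (1399 / 2000)) (α2 := 0) (β2 := 0)
    (by ring) hs hM hx (by norm_num) (by norm_num) ?_ ?_ ?_ ?_ ?_
  · nlinarith [k2, hM]
  · nlinarith [hM]
  · exact mul_le_mul_of_nonneg_left (sqrt_chord hM (by norm_num) k1 k2 (by norm_num) (by norm_num)) (by norm_num)
  · simp
  · have hb : ∀ A B : ℝ, 0 ≤ A → 0 ≤ B → 0 ≤ (76696018730884811021 / 97656250000000000) * B ^ 5 + (535700373614571362319 / 97656250000000000) * A ^ 1 * B ^ 4 + (2919703518596484916051 / 195312500000000000) * A ^ 2 * B ^ 3 + (488747341498059961373 / 24414062500000000) * A ^ 3 * B ^ 2 + (20687191719106085859461 / 1562500000000000000) * A ^ 4 * B ^ 1 + (5423929228380292132029 / 1562500000000000000) * A ^ 5 := by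
      intro A B hA hB
      positivity
    exact le_of_le_of_eq (hb (x - (1 / 2)) ((3 / 4) - x) hA hB) (by ring)

lemma B1_01_a {x : ℝ} (hl : (1 / 2) ≤ x) (hu : x ≤ (3 / 4)) :
    Vt (17 / 1000) (4999 / 5000) (139 / 200) (719 / 1000) 0 1 (217 / 125) x := by
  have hA : 0 ≤ x - (1 / 2) := by linarith
  have hB : 0 ≤ (3 / 4) - x := by linarith
  have hx : 0 ≤ x := by linarith
  have hx0 : 0 < x := by linarith
  have hM : 0 < 0 + 1 * x ^ 2 + (217 / 125) * x := by positivity
  have hs : 0 < (4999 / 5000) + x * (719 / 1000) := by positivity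
  have k3 : (303 / 500) * (0 + 1 * x ^ 2 + (217 / 125) * x) ≤ ((4999 / 5000) + x * (719 / 1000)) * 1 * x := by
    have hb : 0 ≤ (1071 / 31250) * ((3 / 4) - x) ^ 2 + (974 / 3125) * ((x - (1 / 2)) * ((3 / 4) - x)) + (48801 / 125000) * (x - (1 / 2)) ^ 2 := by
      have h1 := mul_nonneg hA hB
      positivity
    nlinarith [hb]
  have k4 : ((4999 / 5000) + x * (719 / 1000)) * 1 * x ≤ (621 / 1000) * (0 + 1 * x ^ 2 + (217 / 125) * x) := by
    have hb : 0 ≤ (3657 / 15625) * ((3 / 4) - x) ^ 2 + (1216 / 3125) * ((x - (1 / 2)) * ((3 / 4) - x)) + (3567 / 62500) * (x - (1 / 2)) ^ 2 := by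
      have h1 := mul_nonneg hA hB
      positivity
    nlinarith [hb]
  refine good_of (σ := ((4999 / 5000) + x * (719 / 1000))) (α1 := 0) (β1 := 0) (α2 := (10279 / 10000)) (β2 := (633 / 1000))
    (by ring) hs hM hx (by norm_num) (by norm_num) ?_ ?_ ?_ ?_ ?_
  · nlinarith [hM]
  · nlinarith [k4, hM]
  · simp
  · exact mul_le_mul_of_nonneg_left (sqrt_chord hM (by norm_num) k3 k4 (by norm_num) (by norm_num)) (by norm_num)
  · have hb : ∀ A B : ℝ, 0 ≤ A → 0 ≤ B → 0 ≤ (414643210508738328163 / 97656250000000000) * B ^ 5 + (775667261768112423521 / 39062500000000000) * A ^ 1 * B ^ 4 + (1397008780735146319647 / 39062500000000000) * A ^ 2 * B ^ 3 + (2372173015308762590909 / 78125000000000000) * A ^ 3 * B ^ 2 + (3629911043219330926683 / 312500000000000000) * A ^ 4 * B ^ 1 + (4386170723189191343641 / 3125000000000000000) * A ^ 5 := by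
      intro A B hA hB
      positivity
    exact le_of_le_of_eq (mul_nonneg (pow_nonneg hx 3) (hb (x - (1 / 2)) ((3 / 4) - x) hA hB)) (by ring)

lemma B1_00_a {x : ℝ} (hl : (1 / 2) ≤ x) (hu : x ≤ (3 / 4)) :
    Vt (17 / 1000) (4999 / 5000) (139 / 200) (719 / 1000) 0 0 (559 / 250) x := by
  have hA : 0 ≤ x - (1 / 2) := by linarith
  have hB : 0 ≤ (3 / 4) - x := by linarith
  have hx : 0 ≤ x := by linarith
  have hx0 : 0 < x := by linarith
  have hM : 0 < 0 + 0 * x ^ 2 + (559 / 250) * x := by positivity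
  have hs : 0 < (4999 / 5000) + x * (719 / 1000) := by positivity
  refine good_of (σ := ((4999 / 5000) + x * (719 / 1000))) (α1 := 0) (β1 := 0) (α2 := 0) (β2 := 0)
    (by ring) hs hM hx (by norm_num) (by norm_num) ?_ ?_ ?_ ?_ ?_
  · nlinarith [hM]
  · nlinarith [hM]
  · simp
  · simp
  · have hb : ∀ A B : ℝ, 0 ≤ A → 0 ≤ B → 0 ≤ (1362891677209786919 / 12207031250000000) * B ^ 2 + (2730687986851352723 / 12207031250000000) * A ^ 1 * B ^ 1 + (5672105261815762991 / 48828125000000000) * A ^ 2 := by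
      intro A B hA hB
      positivity
    exact le_of_le_of_eq (mul_nonneg (pow_nonneg hx 3) (hb (x - (1 / 2)) ((3 / 4) - x) hA hB)) (by ring)

lemma B1_1h_b {x : ℝ} (hl : (1 / 2) ≤ x) (hu : x ≤ (3 / 4)) :
    Vt (17 / 1000) (4999 / 5000) (139 / 200) (719 / 1000) 1 (1 / 2) (14861 / 10000) x := by
  have hA : 0 ≤ x - (1 / 2) := by linarith
  have hB : 0 ≤ (3 / 4) - x := by linarith
  have hx : 0 ≤ x := by linarith
  have hM : 0 < 1 + (1 / 2) * x ^ 2 + (14861 / 10000) * x := by positivity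
  have hs : 0 < (4999 / 5000) + x * (719 / 1000) := by positivity
  have k1 : (641 / 1000) * (1 + (1 / 2) * x ^ 2 + (14861 / 10000) * x) ≤ ((4999 / 5000) + x * (719 / 1000)) * 1 := by
    have hb : 0 ≤ (3237599 / 1250000) * ((3 / 4) - x) ^ 2 + (1481899 / 500000) * ((x - (1 / 2)) * ((3 / 4) - x)) + (133047 / 2500000) * (x - (1 / 2)) ^ 2 := by
      have h1 := mul_nonneg hA hB
      positivity
    nlinarith [hb]
  have k2 : ((4999 / 5000) + x * (719 / 1000)) * 1 ≤ (729 / 1000) * (1 + (1 / 2) * x ^ 2 + (14861 / 10000) * x) := by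
    have hb : 0 ≤ (50169 / 1250000) * ((3 / 4) - x) ^ 2 + (1497869 / 500000) * ((x - (1 / 2)) * ((3 / 4) - x)) + (8300257 / 2500000) * (x - (1 / 2)) ^ 2 := by
      have h1 := mul_nonneg hA hB
      positivity
    nlinarith [hb]
  have k3 : (9 / 50) * (1 + (1 / 2) * x ^ 2 + (14861 / 10000) * x) ≤ ((4999 / 5000) + x * (719 / 1000)) * (1 / 2) * x := by
    have hb : 0 ≤ (894 / 15625) * ((3 / 4) - x) ^ 2 + (53051 / 25000) * ((x - (1 / 2)) * ((3 / 4) - x)) + (583581 / 250000) * (x - (1 / 2)) ^ 2 := by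
      have h1 := mul_nonneg hA hB
      positivity
    nlinarith [hb]
  have k4 : ((4999 / 5000) + x * (719 / 1000)) * (1 / 2) * x ≤ (121 / 500) * (1 + (1 / 2) * x ^ 2 + (14861 / 10000) * x) := by
    have hb : 0 ≤ (1122431 / 625000) * ((3 / 4) - x) ^ 2 + (519181 / 250000) * ((x - (1 / 2)) * ((3 / 4) - x)) + (26459 / 625000) * (x - (1 / 2)) ^ 2 := by
      have h1 := mul_nonneg hA hB
      positivity
    nlinarith [hb]
  refine good_of (σ := ((4999 / 5000) + x * (719 / 1000))) (α1 := (2101 / 2000)) (β1 := (6887 / 10000)) (α2 := (5001 / 5000)) (β2 := (2559 / 5000))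
    (by ring) hs hM hx (by norm_num) (by norm_num) ?_ ?_ ?_ ?_ ?_
  · nlinarith [k2, hM]
  · nlinarith [k4, hM]
  · exact mul_le_mul_of_nonneg_left (sqrt_chord hM (by norm_num) k1 k2 (by norm_num) (by norm_num)) (by norm_num)
  · exact mul_le_mul_of_nonneg_left (sqrt_chord hM (by norm_num) k3 k4 (by norm_num) (by norm_num)) (by norm_num)
  · have hb : ∀ A B : ℝ, 0 ≤ A → 0 ≤ B → 0 ≤ (340444910607031571144653 / 12207031250000000000) * B ^ 8 + (857527607503603355607159 / 3051757812500000000) * A ^ 1 * B ^ 7 + (14751939500184386266009069 / 12207031250000000000) * A ^ 2 * B ^ 6 + (17781189445497797293972291 / 6103515625000000000) * A ^ 3 * B ^ 5 + (84391795988228511492191819 / 19531250000000000000) * A ^ 4 * B ^ 4 + (197610388712531183944639887 / 48828125000000000000) * A ^ 5 * B ^ 3 + (457324443413447788956896341 / 195312500000000000000) * A ^ 6 * B ^ 2 + (37399054589159698831360741 / 48828125000000000000) * A ^ 7 * B ^ 1 + (339152663013787037272276797 /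 3125000000000000000000) * A ^ 8 := by
      intro A B hA hB
      positivity
    exact le_of_le_of_eq (hb (x - (1 / 2)) ((3 / 4) - x) hA hB) (by ring)

lemma B1_h1_b {x : ℝ} (hl : (1 / 2) ≤ x) (hu : x ≤ (3 / 4)) :
    Vt (17 / 1000) (4999 / 5000) (139 / 200) (719 / 1000) (1 / 2) 1 (14861 / 10000) x := by
  have hA : 0 ≤ x - (1 / 2) := by linarith
  have hB : 0 ≤ (3 / 4) - x := by linarith
  have hx : 0 ≤ x := by linarith
  have hM : 0 < (1 / 2) + 1 * x ^ 2 + (14861 / 10000) * x := by positivity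
  have hs : 0 < (4999 / 5000) + x * (719 / 1000) := by positivity
  have k1 : (44 / 125) * ((1 / 2) + 1 * x ^ 2 + (14861 / 10000) * x) ≤ ((4999 / 5000) + x * (719 / 1000)) * (1 / 2) := by
    have hb : 0 ≤ (385241 / 156250) * ((3 / 4) - x) ^ 2 + (179291 / 62500) * ((x - (1 / 2)) * ((3 / 4) - x)) + (15973 / 312500) * (x - (1 / 2)) ^ 2 := by
      have h1 := mul_nonneg hA hB
      positivity
    nlinarith [hb]
  have k2 : ((4999 / 5000) + x * (719 / 1000)) * (1 / 2) ≤ (457 / 1000) * ((1 / 2) + 1 * x ^ 2 + (14861 / 10000) * x) := by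
    have hb : 0 ≤ (53477 / 1250000) * ((3 / 4) - x) ^ 2 + (1596077 / 500000) * ((x - (1 / 2)) * ((3 / 4) - x)) + (9015931 / 2500000) * (x - (1 / 2)) ^ 2 := by
      have h1 := mul_nonneg hA hB
      positivity
    nlinarith [hb]
  have k3 : (227 / 500) * ((1 / 2) + 1 * x ^ 2 + (14861 / 10000) * x) ≤ ((4999 / 5000) + x * (719 / 1000)) * 1 * x := by
    have hb : 0 ≤ (18053 / 625000) * ((3 / 4) - x) ^ 2 + (604553 / 250000) * ((x - (1 / 2)) * ((3 / 4) - x)) + (3317909 / 1250000) * (x - (1 / 2)) ^ 2 := by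
      have h1 := mul_nonneg hA hB
      positivity
    nlinarith [hb]
  have k4 : ((4999 / 5000) + x * (719 / 1000)) * 1 * x ≤ (133 / 250) * ((1 / 2) + 1 * x ^ 2 + (14861 / 10000) * x) := by
    have hb : 0 ≤ (573263 / 312500) * ((3 / 4) - x) ^ 2 + (260513 / 125000) * ((x - (1 / 2)) * ((3 / 4) - x)) + (9791 / 156250) * (x - (1 / 2)) ^ 2 := by
      have h1 := mul_nonneg hA hB
      positivity
    nlinarith [hb]
  refine good_of (σ := ((4999 / 5000) + x * (719 / 1000))) (α1 := (5019 / 5000)) (β1 := (5479 / 10000)) (α2 := (631 / 625)) (β2 := (1151 / 2000))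
    (by ring) hs hM hx (by norm_num) (by norm_num) ?_ ?_ ?_ ?_ ?_
  · nlinarith [k2, hM]
  · nlinarith [k4, hM]
  · exact mul_le_mul_of_nonneg_left (sqrt_chord hM (by norm_num) k1 k2 (by norm_num) (by norm_num)) (by norm_num)
  · exact mul_le_mul_of_nonneg_left (sqrt_chord hM (by norm_num) k3 k4 (by norm_num) (by norm_num)) (by norm_num)
  · have hb : ∀ A B : ℝ, 0 ≤ A → 0 ≤ B → 0 ≤ (221133002431237089654007 / 3051757812500000000) * B ^ 8 + (1936605062518301690265659 / 3051757812500000000) * A ^ 1 * B ^ 7 + (14654625536950402103938347 / 6103515625000000000) * A ^ 2 * B ^ 6 + (31198538422003000362906791 / 6103515625000000000) * A ^ 3 * B ^ 5 + (8141182316278047613381859 / 1220703125000000000) * A ^ 4 * B ^ 4 + (264954302381992637210250887 / 48828125000000000000) * A ^ 5 * B ^ 3 + (259845611453684965517013233 / 97656250000000000000) * A ^ 6 * B ^ 2 + (17228274711578136878121183 / 24414062500000000000) * A ^ 7 * B ^ 1 + (58233275280784304343330793 / 781250000000000000000)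 * A ^ 8 := by
      intro A B hA hB
      positivity
    exact le_of_le_of_eq (hb (x - (1 / 2)) ((3 / 4) - x) hA hB) (by ring)

lemma B1_10_b {x : ℝ} (hl : (1 / 2) ≤ x) (hu : x ≤ (3 / 4)) :
    Vt (17 / 1000) (4999 / 5000) (139 / 200) (719 / 1000) 1 0 (17361 / 10000) x := by
  have hA : 0 ≤ x - (1 / 2) := by linarith
  have hB : 0 ≤ (3 / 4) - x := by linarith
  have hx : 0 ≤ x := by linarith
  have hM : 0 < 1 + 0 * x ^ 2 + (17361 / 10000) * x := by positivity
  have hs : 0 < (4999 / 5000) + x * (719 / 1000) := by positivity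
  have k1 : (667 / 1000) * (1 + 0 * x ^ 2 + (17361 / 10000) * x) ≤ ((4999 / 5000) + x * (719 / 1000)) * 1 := by
    have hb : 0 ≤ (2266213 / 1250000) * ((3 / 4) - x) ^ 2 + (935013 / 500000) * ((x - (1 / 2)) * ((3 / 4) - x)) + (142639 / 2500000) * (x - (1 / 2)) ^ 2 := by
      have h1 := mul_nonneg hA hB
      positivity
    nlinarith [hb]
  have k2 : ((4999 / 5000) + x * (719 / 1000)) * 1 ≤ (729 / 1000) * (1 + 0 * x ^ 2 + (17361 / 10000) * x) := by
    have hb : 0 ≤ (50169 / 1250000) * ((3 / 4) - x) ^ 2 + (1133369 / 500000) * ((x - (1 / 2)) * ((3 / 4) - x)) + (5566507 / 2500000) * (x - (1 / 2)) ^ 2 := by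
      have h1 := mul_nonneg hA hB
      positivity
    nlinarith [hb]
  refine good_of (σ := ((4999 / 5000) + x * (719 / 1000))) (α1 := (5281 / 5000)) (β1 := (1399 / 2000)) (α2 := 0) (β2 := 0)
    (by ring) hs hM hx (by norm_num) (by norm_num) ?_ ?_ ?_ ?_ ?_
  · nlinarith [k2, hM]
  · nlinarith [hM]
  · exact mul_le_mul_of_nonneg_left (sqrt_chord hM (by norm_num) k1 k2 (by norm_num) (by norm_num)) (by norm_num)
  · simp
  · have hb : ∀ A B : ℝ, 0 ≤ A → 0 ≤ B → 0 ≤ (76695551338806279624941 / 97656250000000000000) * B ^ 5 + (1071394858315447721551763 / 195312500000000000000) * A ^ 1 * B ^ 4 + (2919691375561127613901051 / 195312500000000000000) * A ^ 2 * B ^ 3 + (7819941325089250383642893 / 390625000000000000000) * A ^ 3 * B ^ 2 + (20687208645991375157747261 / 1562500000000000000000) * A ^ 4 * B ^ 1 + (10847907439076131933414323 / 3125000000000000000000) * A ^ 5 := by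
      intro A B hA hB
      positivity
    exact le_of_le_of_eq (hb (x - (1 / 2)) ((3 / 4) - x) hA hB) (by ring)

lemma B1_01_b {x : ℝ} (hl : (1 / 2) ≤ x) (hu : x ≤ (3 / 4)) :
    Vt (17 / 1000) (4999 / 5000) (139 / 200) (719 / 1000) 0 1 (17361 / 10000) x := by
  have hA : 0 ≤ x - (1 / 2) := by linarith
  have hB : 0 ≤ (3 / 4) - x := by linarith
  have hx : 0 ≤ x := by linarith
  have hx0 : 0 < x := by linarith
  have hM : 0 < 0 + 1 * x ^ 2 + (17361 / 10000) * x := by positivity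
  have hs : 0 < (4999 / 5000) + x * (719 / 1000) := by positivity
  have k3 : (303 / 500) * (0 + 1 * x ^ 2 + (17361 / 10000) * x) ≤ ((4999 / 5000) + x * (719 / 1000)) * 1 * x := by
    have hb : 0 ≤ (21117 / 625000) * ((3 / 4) - x) ^ 2 + (77617 / 250000) * ((x - (1 / 2)) * ((3 / 4) - x)) + (487101 / 1250000) * (x - (1 / 2)) ^ 2 := by
      have h1 := mul_nonneg hA hB
      positivity
    nlinarith [hb]
  have k4 : ((4999 / 5000) + x * (719 / 1000)) * 1 * x ≤ (621 / 1000) * (0 + 1 * x ^ 2 + (17361 / 10000) * x) := by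
    have hb : 0 ≤ (293181 / 1250000) * ((3 / 4) - x) ^ 2 + (195181 / 500000) * ((x - (1 / 2)) * ((3 / 4) - x)) + (144543 / 2500000) * (x - (1 / 2)) ^ 2 := by
      have h1 := mul_nonneg hA hB
      positivity
    nlinarith [hb]
  refine good_of (σ := ((4999 / 5000) + x * (719 / 1000))) (α1 := 0) (β1 := 0) (α2 := (10279 / 10000)) (β2 := (633 / 1000))
    (by ring) hs hM hx (by norm_num) (by norm_num) ?_ ?_ ?_ ?_ ?_
  · nlinarith [hM]
  · nlinarith [k4, hM]
  · simp
  · exact mul_le_mul_of_nonneg_left (sqrt_chord hM (by norm_num) k3 k4 (by norm_num) (by norm_num)) (by norm_num)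
  · have hb : ∀ A B : ℝ, 0 ≤ A → 0 ≤ B → 0 ≤ (103671650884377421884757 / 24414062500000000000) * B ^ 5 + (193935219169431516517851 / 9765625000000000000) * A ^ 1 * B ^ 4 + (698561939812064131049117 / 19531250000000000000) * A ^ 2 * B ^ 3 + (237232596506603997038103 / 7812500000000000000) * A ^ 3 * B ^ 2 + (453754179552860797528263 / 39062500000000000000) * A ^ 4 * B ^ 1 + (548247995025474774036267 / 390625000000000000000) * A ^ 5 := by
      intro A B hA hB
      positivity
    exact le_of_le_of_eq (mul_nonneg (pow_nonneg hx 3) (hb (x - (1 / 2)) ((3 / 4) - x) hA hB)) (by ring)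

lemma B1_00_b {x : ℝ} (hl : (1 / 2) ≤ x) (hu : x ≤ (3 / 4)) :
    Vt (17 / 1000) (4999 / 5000) (139 / 200) (719 / 1000) 0 0 (22361 / 10000) x := by
  have hA : 0 ≤ x - (1 / 2) := by linarith
  have hB : 0 ≤ (3 / 4) - x := by linarith
  have hx : 0 ≤ x := by linarith
  have hx0 : 0 < x := by linarith
  have hM : 0 < 0 + 0 * x ^ 2 + (22361 / 10000) * x := by positivity
  have hs : 0 < (4999 / 5000) + x * (719 / 1000) := by positivity
  refine good_of (σ := ((4999 / 5000) + x * (719 / 1000))) (α1 := 0) (β1 := 0) (α2 := 0) (β2 := 0)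
    (by ring) hs hM hx (by norm_num) (by norm_num) ?_ ?_ ?_ ?_ ?_
  · nlinarith [hM]
  · nlinarith [hM]
  · simp
  · simp
  · have hb : ∀ A B : ℝ, 0 ≤ A → 0 ≤ B → 0 ≤ (87232449304363149852941 / 781250000000000000000) * B ^ 2 + (174776676507645616463147 / 781250000000000000000) * A ^ 1 * B ^ 1 + (363037515630692756292049 / 3125000000000000000000) * A ^ 2 := by
      intro A B hA hB
      positivity
    exact le_of_le_of_eq (mul_nonneg (pow_nonneg hx 3) (hb (x - (1 / 2)) ((3 / 4) - x) hA hB)) (by ring)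

end Pool.Agent.ICL
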