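import Pool.Agent.ICL.Vert

/-!
# Vertex checks D2
-/

set_option autoImplicit false

namespace Pool.Agent.ICL

lemma D2_11_a {x : ℝ} (hl : (1 / 4) ≤ x) (hu : x ≤ (1 / 2)) :
    Vt (-(26 / 125)) (489 / 500) (707 / 1000) (707 / 1000) 1 1 (309 / 250) x := by
  have hA : 0 ≤ x - (1 / 4) := by linarith
  have hB : 0 ≤ (1 / 2) - x := by linarith
  have hx : 0 ≤ x := by linarith
  have hM : 0 < 1 + 1 * x ^ 2 + (309 / 250) * x := by positivity
  have hs : 0 < (489 / 500) + x * (707 / 1000) := by positivity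
  have k1 : (711 / 1000) * (1 + 1 * x ^ 2 + (309 / 250) * x) ≤ ((489 / 500) + x * (707 / 1000)) * 1 := by
    have hb : 0 ≤ (359227 / 125000) * ((1 / 2) - x) ^ 2 + (227403 / 62500) * ((x - (1 / 4)) * ((1 / 2) - x)) + (838 / 15625) * (x - (1 / 4)) ^ 2 := by
      have h1 := mul_nonneg hA hB
      positivity
    nlinarith [hb]
  have k2 : ((489 / 500) + x * (707 / 1000)) * 1 ≤ (843 / 1000) * (1 + 1 * x ^ 2 + (309 / 250) * x) := by
    have hb : 0 ≤ (2849 / 125000) * ((1 / 2) - x) ^ 2 + (191961 / 62500) * ((x - (1 / 4)) * ((1 / 2) - x)) + (60806 / 15625) * (x - (1 / 4)) ^ 2 := by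
      have h1 := mul_nonneg hA hB
      positivity
    nlinarith [hb]
  have k3 : (209 / 1000) * (1 + 1 * x ^ 2 + (309 / 250) * x) ≤ ((489 / 500) + x * (707 / 1000)) * 1 * x := by
    have hb : 0 ≤ (511 / 15625) * ((1 / 2) - x) ^ 2 + (246257 / 62500) * ((x - (1 / 4)) * ((1 / 2) - x)) + (137669 / 31250) * (x - (1 / 4)) ^ 2 := by
      have h1 := mul_nonneg hA hB
      positivity
    nlinarith [hb]
  have k4 : ((489 / 500) + x * (707 / 1000)) * 1 * x ≤ (179 / 500) * (1 + 1 * x ^ 2 + (309 / 250) * x) := by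
    have hb : 0 ≤ (404619 / 125000) * ((1 / 2) - x) ^ 2 + (56779 / 15625) * ((x - (1 / 4)) * ((1 / 2) - x)) + (1497 / 31250) * (x - (1 / 4)) ^ 2 := by
      have h1 := mul_nonneg hA hB
      positivity
    nlinarith [hb]
  refine good_of (σ := ((489 / 500) + x * (707 / 1000))) (α1 := (694 / 625)) (β1 := (8057 / 10000)) (α2 := (10007 / 10000)) (β2 := (5231 / 10000))
    (by ring) hs hM hx (by norm_num) (by norm_num) ?_ ?_ ?_ ?_ ?_
  · nlinarith [k2, hM]
  · nlinarith [k4, hM]
  · exact mul_le_mul_of_nonneg_left (sqrt_chord hM (by norm_num) k1 k2 (by norm_num) (by norm_num)) (by norm_num)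
  · exact mul_le_mul_of_nonneg_left (sqrt_chord hM (by norm_num) k3 k4 (by norm_num) (by norm_num)) (by norm_num)
  · have hb : ∀ A B : ℝ, 0 ≤ A → 0 ≤ B → 0 ≤ (1890367831488116063769 / 250000000000000000) * B ^ 8 + (1280017136514822703603 / 15625000000000000) * A ^ 1 * B ^ 7 + (5730919587236758154339 / 15625000000000000) * A ^ 2 * B ^ 6 + (3508501020705804876841 / 3906250000000000) * A ^ 3 * B ^ 5 + (10337352986364839159691 / 7812500000000000) * A ^ 4 * B ^ 4 + (1173433785383174303653 / 976562500000000) * A ^ 5 * B ^ 3 + (638888216963047242323 / 976562500000000) * A ^ 6 * B ^ 2 + (9433568652685656563 / 48828125000000) * A ^ 7 * B ^ 1 + (22606832668623176697 / 976562500000000) * A ^ 8 := by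
      intro A B hA hB
      positivity
    exact le_of_le_of_eq (hb (x - (1 / 4)) ((1 / 2) - x) hA hB) (by ring)

lemma D2_10_a {x : ℝ} (hl : (1 / 4) ≤ x) (hu : x ≤ (1 / 2)) :
    Vt (-(26 / 125)) (489 / 500) (707 / 1000) (707 / 1000) 1 0 (217 / 125) x := by
  have hA : 0 ≤ x - (1 / 4) := by linarith
  have hB : 0 ≤ (1 / 2) - x := by linarith
  have hx : 0 ≤ x := by linarith
  have hM : 0 < 1 + 0 * x ^ 2 + (217 / 125) * x := by positivity
  have hs : 0 < (489 / 500) + x * (707 / 1000) := by positivity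
  have k1 : (711 / 1000) * (1 + 0 * x ^ 2 + (217 / 125) * x) ≤ ((489 / 500) + x * (707 / 1000)) * 1 := by
    have hb : 0 ≤ (33794 / 15625) * ((1 / 2) - x) ^ 2 + (34632 / 15625) * ((x - (1 / 4)) * ((1 / 2) - x)) + (838 / 15625) * (x - (1 / 4)) ^ 2 := by
      have h1 := mul_nonneg hA hB
      positivity
    nlinarith [hb]
  have k2 : ((489 / 500) + x * (707 / 1000)) * 1 ≤ (807 / 1000) * (1 + 0 * x ^ 2 + (217 / 125) * x) := by
    have hb : 0 ≤ (622 / 15625) * ((1 / 2) - x) ^ 2 + (44616 / 15625) * ((x - (1 / 4)) * ((1 / 2) - x)) + (43994 / 15625) * (x - (1 / 4)) ^ 2 := by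
      have h1 := mul_nonneg hA hB
      positivity
    nlinarith [hb]
  refine good_of (σ := ((489 / 500) + x * (707 / 1000))) (α1 := (10939 / 10000)) (β1 := (7729 / 10000)) (α2 := 0) (β2 := 0)
    (by ring) hs hM hx (by norm_num) (by norm_num) ?_ ?_ ?_ ?_ ?_
  · nlinarith [k2, hM]
  · nlinarith [hM]
  · exact mul_le_mul_of_nonneg_left (sqrt_chord hM (by norm_num) k1 k2 (by norm_num) (by norm_num)) (by norm_num)
  · simp
  · have hb : ∀ A B : ℝ, 0 ≤ A → 0 ≤ B → 0 ≤ (11164977931981804199 / 62500000000000000) * B ^ 5 + (80250767365567767711 / 62500000000000000) * A ^ 1 * B ^ 4 + (858129471460981829 / 244140625000000) * A ^ 2 * B ^ 3 + (292034092009748429 / 62500000000000) * A ^ 3 * B ^ 2 + (11932938333711920109 / 3906250000000000) * A ^ 4 * B ^ 1 + (3098114685186897367 / 3906250000000000) * A ^ 5 := by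
      intro A B hA hB
      positivity
    exact le_of_le_of_eq (hb (x - (1 / 4)) ((1 / 2) - x) hA hB) (by ring)

lemma D2_01_a {x : ℝ} (hl : (1 / 4) ≤ x) (hu : x ≤ (1 / 2)) :
    Vt (-(26 / 125)) (489 / 500) (707 / 1000) (707 / 1000) 0 1 (217 / 125) x := by
  have hA : 0 ≤ x - (1 / 4) := by linarith
  have hB : 0 ≤ (1 / 2) - x := by linarith
  have hx : 0 ≤ x := by linarith
  have hx0 : 0 < x := by linarith
  have hM : 0 < 0 + 1 * x ^ 2 + (217 / 125) * x := by positivity
  have hs : 0 < (489 / 500) + x * (707 / 1000) := by positivity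
  have k3 : (29 / 50) * (0 + 1 * x ^ 2 + (217 / 125) * x) ≤ ((489 / 500) + x * (707 / 1000)) * 1 * x := by
    have hb : 0 ≤ (287 / 25000) * ((1 / 2) - x) ^ 2 + (1009 / 6250) * ((x - (1 / 4)) * ((1 / 2) - x)) + (1731 / 6250) * (x - (1 / 4)) ^ 2 := by
      have h1 := mul_nonneg hA hB
      positivity
    nlinarith [hb]
  have k4 : ((489 / 500) + x * (707 / 1000)) * 1 * x ≤ (597 / 1000) * (0 + 1 * x ^ 2 + (217 / 125) * x) := by
    have hb : 0 ≤ (7723 / 62500) * ((1 / 2) - x) ^ 2 + (8147 / 31250) * ((x - (1 / 4)) * ((1 / 2) - x)) + (424 / 15625) * (x - (1 / 4)) ^ 2 := by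
      have h1 := mul_nonneg hA hB
      positivity
    nlinarith [hb]
  refine good_of (σ := ((489 / 500) + x * (707 / 1000))) (α1 := 0) (β1 := 0) (α2 := (409 / 400)) (β2 := (3091 / 5000))
    (by ring) hs hM hx (by norm_num) (by norm_num) ?_ ?_ ?_ ?_ ?_
  · nlinarith [hM]
  · nlinarith [k4, hM]
  · simp
  · exact mul_le_mul_of_nonneg_left (sqrt_chord hM (by norm_num) k3 k4 (by norm_num) (by norm_num)) (by norm_num)
  · have hb : ∀ A B : ℝ, 0 ≤ A → 0 ≤ B → 0 ≤ (293245195550475342197 / 125000000000000000) * B ^ 5 + (677361971103828136921 / 62500000000000000) * A ^ 1 * B ^ 4 + (297416932408507222937 / 15625000000000000) * A ^ 2 * B ^ 3 + (119872341474631199241 / 7812500000000000) * A ^ 3 * B ^ 2 + (40520492781263447977 / 7812500000000000) * A ^ 4 * B ^ 1 + (1504694975896668261 / 3906250000000000) * A ^ 5 := by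
      intro A B hA hB
      positivity
    exact le_of_le_of_eq (mul_nonneg (pow_nonneg hx 3) (hb (x - (1 / 4)) ((1 / 2) - x) hA hB)) (by ring)

lemma D2_00_a {x : ℝ} (hl : (1 / 4) ≤ x) (hu : x ≤ (1 / 2)) :
    Vt (-(26 / 125)) (489 / 500) (707 / 1000) (707 / 1000) 0 0 (559 / 250) x := by
  have hA : 0 ≤ x - (1 / 4) := by linarith
  have hB : 0 ≤ (1 / 2) - x := by linarith
  have hx : 0 ≤ x := by linarith
  have hx0 : 0 < x := by linarith
  have hM : 0 < 0 + 0 * x ^ 2 + (559 / 250) * x := by positivity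
  have hs : 0 < (489 / 500) + x * (707 / 1000) := by positivity
  refine good_of (σ := ((489 / 500) + x * (707 / 1000))) (α1 := 0) (β1 := 0) (α2 := 0) (β2 := 0)
    (by ring) hs hM hx (by norm_num) (by norm_num) ?_ ?_ ?_ ?_ ?_
  · nlinarith [hM]
  · nlinarith [hM]
  · simp
  · simp
  · have hb : ∀ A B : ℝ, 0 ≤ A → 0 ≤ B → 0 ≤ (893520401312938581 / 15625000000000000) * B ^ 2 + (347549503573151737 / 3906250000000000) * A ^ 1 * B ^ 1 + (135061583140503149 / 3906250000000000) * A ^ 2 := by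
      intro A B hA hB
      positivity
    exact le_of_le_of_eq (mul_nonneg (pow_nonneg hx 3) (hb (x - (1 / 4)) ((1 / 2) - x) hA hB)) (by ring)

lemma D2_m11_a {x : ℝ} (hl : (1 / 4) ≤ x) (hu : x ≤ (1 / 2)) :
    Vm (-(26 / 125)) (489 / 500) (707 / 1000) (707 / 1000) 1 1 (559 / 250) x := by
  have hA : 0 ≤ x - (1 / 4) := by linarith
  have hB : 0 ≤ (1 / 2) - x := by linarith
  have hx : 0 ≤ x := by linarith
  have hM : 0 < 1 + 1 * x ^ 2 + (559 / 250) * x := by positivity
  have hs : 0 < (489 / 500) + x * (707 / 1000) := by positivity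
  have k1 : (561 / 1000) * (1 + 1 * x ^ 2 + (559 / 250) * x) ≤ ((489 / 500) + x * (707 / 1000)) * 1 := by
    have hb : 0 ≤ (490177 / 125000) * ((1 / 2) - x) ^ 2 + (283203 / 62500) * ((x - (1 / 4)) * ((1 / 2) - x)) + (763 / 15625) * (x - (1 / 4)) ^ 2 := by
      have h1 := mul_nonneg hA hB
      positivity
    nlinarith [hb]
  have k2 : ((489 / 500) + x * (707 / 1000)) * 1 ≤ (357 / 500) * (1 + 1 * x ^ 2 + (559 / 250) * x) := by
    have hb : 0 ≤ (3001 / 62500) * ((1 / 2) - x) ^ 2 + (79407 / 15625) * ((x - (1 / 4)) * ((1 / 2) - x)) + (89813 / 15625) * (x - (1 / 4)) ^ 2 := by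
      have h1 := mul_nonneg hA hB
      positivity
    nlinarith [hb]
  have k3 : (177 / 1000) * (1 + 1 * x ^ 2 + (559 / 250) * x) ≤ ((489 / 500) + x * (707 / 1000)) * 1 * x := by
    have hb : 0 ≤ (841 / 31250) * ((1 / 2) - x) ^ 2 + (215171 / 62500) * ((x - (1 / 4)) * ((1 / 2) - x)) + (123307 / 31250) * (x - (1 / 4)) ^ 2 := by
      have h1 := mul_nonneg hA hB
      positivity
    nlinarith [hb]
  have k4 : ((489 / 500) + x * (707 / 1000)) * 1 * x ≤ (283 / 1000) * (1 + 1 * x ^ 2 + (559 / 250) * x) := by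
    have hb : 0 ≤ (170197 / 62500) * ((1 / 2) - x) ^ 2 + (201091 / 62500) * ((x - (1 / 4)) * ((1 / 2) - x)) + (2197 / 31250) * (x - (1 / 4)) ^ 2 := by
      have h1 := mul_nonneg hA hB
      positivity
    nlinarith [hb]
  refine good_of (σ := ((489 / 500) + x * (707 / 1000))) (α1 := (10337 / 10000)) (β1 := (1309 / 2000)) (α2 := (10003 / 10000)) (β2 := (1287 / 2500))
    (by ring) hs hM hx (by norm_num) (by norm_num) ?_ ?_ ?_ ?_ ?_
  · nlinarith [k2, hM]
  · nlinarith [k4, hM]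
  · exact mul_le_mul_of_nonneg_left (sqrt_chord hM (by norm_num) k1 k2 (by norm_num) (by norm_num)) (by norm_num)
  · exact mul_le_mul_of_nonneg_left (sqrt_chord hM (by norm_num) k3 k4 (by norm_num) (by norm_num)) (by norm_num)
  · have hb : ∀ A B : ℝ, 0 ≤ A → 0 ≤ B → 0 ≤ (1077699561543788524561 / 62500000000000000) * B ^ 8 + (626890893548676463107 / 3906250000000000) * A ^ 1 * B ^ 7 + (2503156089347029475591 / 3906250000000000) * A ^ 2 * B ^ 6 + (1402481726143639010829 / 976562500000000) * A ^ 3 * B ^ 5 + (3862178207186653718129 / 1953125000000000) * A ^ 4 * B ^ 4 + (418246960950776908507 / 244140625000000) * A ^ 5 * B ^ 3 + (222528966316021374737 / 244140625000000) * A ^ 6 * B ^ 2 + (3320078160467007757 / 12207031250000) * A ^ 7 * B ^ 1 + (8491400801215175693 / 244140625000000) * A ^ 8 := by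
      intro A B hA hB
      positivity
    exact le_of_le_of_eq (hb (x - (1 / 4)) ((1 / 2) - x) hA hB) (by ring)

lemma D2_m01_a {x : ℝ} (hl : (1 / 4) ≤ x) (hu : x ≤ (1 / 2)) :
    Vm (-(26 / 125)) (489 / 500) (707 / 1000) (707 / 1000) 0 1 (342 / 125) x := by
  have hA : 0 ≤ x - (1 / 4) := by linarith
  have hB : 0 ≤ (1 / 2) - x := by linarith
  have hx : 0 ≤ x := by linarith
  have hx0 : 0 < x := by linarith
  have hM : 0 < 0 + 1 * x ^ 2 + (342 / 125) * x := by positivity
  have hs : 0 < (489 / 500) + x * (707 / 1000) := by positivity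
  have k3 : (77 / 200) * (0 + 1 * x ^ 2 + (342 / 125) * x) ≤ ((489 / 500) + x * (707 / 1000)) * 1 * x := by
    have hb : 0 ≤ (257 / 12500) * ((1 / 2) - x) ^ 2 + (1199 / 3125) * ((x - (1 / 4)) * ((1 / 2) - x)) + (2141 / 3125) * (x - (1 / 4)) ^ 2 := by
      have h1 := mul_nonneg hA hB
      positivity
    nlinarith [hb]
  have k4 : ((489 / 500) + x * (707 / 1000)) * 1 * x ≤ (413 / 1000) * (0 + 1 * x ^ 2 + (342 / 125) * x) := by
    have hb : 0 ≤ (19617 / 62500) * ((1 / 2) - x) ^ 2 + (10119 / 15625) * ((x - (1 / 4)) * ((1 / 2) - x)) + (621 / 15625) * (x - (1 / 4)) ^ 2 := by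
      have h1 := mul_nonneg hA hB
      positivity
    nlinarith [hb]
  refine good_of (σ := ((489 / 500) + x * (707 / 1000))) (α1 := 0) (β1 := 0) (α2 := (10037 / 10000)) (β2 := (5451 / 10000))
    (by ring) hs hM hx (by norm_num) (by norm_num) ?_ ?_ ?_ ?_ ?_
  · nlinarith [hM]
  · nlinarith [k4, hM]
  · simp
  · exact mul_le_mul_of_nonneg_left (sqrt_chord hM (by norm_num) k3 k4 (by norm_num) (by norm_num)) (by norm_num)
  · have hb : ∀ A B : ℝ, 0 ≤ A → 0 ≤ B → 0 ≤ (2248696139654589077469 / 250000000000000000) * B ^ 5 + (5414720397754480747617 / 125000000000000000) * A ^ 1 * B ^ 4 + (2582544314566659844449 / 31250000000000000) * A ^ 2 * B ^ 3 + (1217594937794973403857 / 15625000000000000) * A ^ 3 * B ^ 2 + (566036775739903777329 / 15625000000000000) * A ^ 4 * B ^ 1 + (51709512266977659597 / 7812500000000000) * A ^ 5 := by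
      intro A B hA hB
      positivity
    exact le_of_le_of_eq (mul_nonneg (pow_nonneg hx 3) (hb (x - (1 / 4)) ((1 / 2) - x) hA hB)) (by ring)

lemma D2_11_b {x : ℝ} (hl : (1 / 4) ≤ x) (hu : x ≤ (1 / 2)) :
    Vt (-(26 / 125)) (489 / 500) (707 / 1000) (707 / 1000) 1 1 (12361 / 10000) x := by
  have hA : 0 ≤ x - (1 / 4) := by linarith
  have hB : 0 ≤ (1 / 2) - x := by linarith
  have hx : 0 ≤ x := by linarith
  have hM : 0 < 1 + 1 * x ^ 2 + (12361 / 10000) * x := by positivity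
  have hs : 0 < (489 / 500) + x * (707 / 1000) := by positivity
  have k1 : (711 / 1000) * (1 + 1 * x ^ 2 + (12361 / 10000) * x) ≤ ((489 / 500) + x * (707 / 1000)) * 1 := by
    have hb : 0 ≤ (7183829 / 2500000) * ((1 / 2) - x) ^ 2 + (9093987 / 2500000) * ((x - (1 / 4)) * ((1 / 2) - x)) + (66329 / 1250000) * (x - (1 / 4)) ^ 2 := by
      have h1 := mul_nonneg hA hB
      positivity
    nlinarith [hb]
  have k2 : ((489 / 500) + x * (707 / 1000)) * 1 ≤ (843 / 1000) * (1 + 1 * x ^ 2 + (12361 / 10000) * x) := by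
    have hb : 0 ≤ (57823 / 2500000) * ((1 / 2) - x) ^ 2 + (7680969 / 2500000) * ((x - (1 / 4)) * ((1 / 2) - x)) + (4865323 / 1250000) * (x - (1 / 4)) ^ 2 := by
      have h1 := mul_nonneg hA hB
      positivity
    nlinarith [hb]
  have k3 : (209 / 1000) * (1 + 1 * x ^ 2 + (12361 / 10000) * x) ≤ ((489 / 500) + x * (707 / 1000)) * 1 * x := by
    have hb : 0 ≤ (81551 / 2500000) * ((1 / 2) - x) ^ 2 + (9849653 / 2500000) * ((x - (1 / 4)) * ((1 / 2) - x)) + (5506551 / 1250000) * (x - (1 / 4)) ^ 2 := by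
      have h1 := mul_nonneg hA hB
      positivity
    nlinarith [hb]
  have k4 : ((489 / 500) + x * (707 / 1000)) * 1 * x ≤ (179 / 500) * (1 + 1 * x ^ 2 + (12361 / 10000) * x) := by
    have hb : 0 ≤ (4046369 / 1250000) * ((1 / 2) - x) ^ 2 + (4542857 / 1250000) * ((x - (1 / 4)) * ((1 / 2) - x)) + (30119 / 625000) * (x - (1 / 4)) ^ 2 := by
      have h1 := mul_nonneg hA hB
      positivity
    nlinarith [hb]
  refine good_of (σ := ((489 / 500) + x * (707 / 1000))) (α1 := (694 / 625)) (β1 := (8057 / 10000)) (α2 := (10007 / 10000)) (β2 := (5231 / 10000))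
    (by ring) hs hM hx (by norm_num) (by norm_num) ?_ ?_ ?_ ?_ ?_
  · nlinarith [k2, hM]
  · nlinarith [k4, hM]
  · exact mul_le_mul_of_nonneg_left (sqrt_chord hM (by norm_num) k1 k2 (by norm_num) (by norm_num)) (by norm_num)
  · exact mul_le_mul_of_nonneg_left (sqrt_chord hM (by norm_num) k3 k4 (by norm_num) (by norm_num)) (by norm_num)
  · have hb : ∀ A B : ℝ, 0 ≤ A → 0 ≤ B → 0 ≤ (236312540735078234875423 / 31250000000000000000) * B ^ 8 + (1280071451914052193822283 / 15625000000000000000) * A ^ 1 * B ^ 7 + (5731025396690862466577469 / 15625000000000000000) * A ^ 2 * B ^ 6 + (14033930707176339075689389 / 15625000000000000000) * A ^ 3 * B ^ 5 + (10337031182285325074097311 / 7812500000000000000) * A ^ 4 * B ^ 4 + (2346722075123270477369431 / 1953125000000000000) * A ^ 5 * B ^ 3 + (159705763258341747574367 / 244140625000000000) * A ^ 6 * B ^ 2 + (7545654870505139217393 / 39062500000000000) * A ^ 7 * B ^ 1 + (11300575541519264403331 / 488281250000000000)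 * A ^ 8 := by
      intro A B hA hB
      positivity
    exact le_of_le_of_eq (hb (x - (1 / 4)) ((1 / 2) - x) hA hB) (by ring)

lemma D2_10_b {x : ℝ} (hl : (1 / 4) ≤ x) (hu : x ≤ (1 / 2)) :
    Vt (-(26 / 125)) (489 / 500) (707 / 1000) (707 / 1000) 1 0 (17361 / 10000) x := by
  have hA : 0 ≤ x - (1 / 4) := by linarith
  have hB : 0 ≤ (1 / 2) - x := by linarith
  have hx : 0 ≤ x := by linarith
  have hM : 0 < 1 + 0 * x ^ 2 + (17361 / 10000) * x := by positivity
  have hs : 0 < (489 / 500) + x * (707 / 1000) := by positivity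
  have k1 : (711 / 1000) * (1 + 0 * x ^ 2 + (17361 / 10000) * x) ≤ ((489 / 500) + x * (707 / 1000)) * 1 := by
    have hb : 0 ≤ (5406329 / 2500000) * ((1 / 2) - x) ^ 2 + (5538987 / 2500000) * ((x - (1 / 4)) * ((1 / 2) - x)) + (66329 / 1250000) * (x - (1 / 4)) ^ 2 := by
      have h1 := mul_nonneg hA hB
      positivity
    nlinarith [hb]
  have k2 : ((489 / 500) + x * (707 / 1000)) * 1 ≤ (807 / 1000) * (1 + 0 * x ^ 2 + (17361 / 10000) * x) := by
    have hb : 0 ≤ (100327 / 2500000) * ((1 / 2) - x) ^ 2 + (7140981 / 2500000) * ((x - (1 / 4)) * ((1 / 2) - x)) + (3520327 / 1250000) * (x - (1 / 4)) ^ 2 := by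
      have h1 := mul_nonneg hA hB
      positivity
    nlinarith [hb]
  refine good_of (σ := ((489 / 500) + x * (707 / 1000))) (α1 := (10939 / 10000)) (β1 := (7729 / 10000)) (α2 := 0) (β2 := 0)
    (by ring) hs hM hx (by norm_num) (by norm_num) ?_ ?_ ?_ ?_ ?_
  · nlinarith [k2, hM]
  · nlinarith [hM]
  · exact mul_le_mul_of_nonneg_left (sqrt_chord hM (by norm_num) k1 k2 (by norm_num) (by norm_num)) (by norm_num)
  · simp
  · have hb : ∀ A B : ℝ, 0 ≤ A → 0 ≤ B → 0 ≤ (178636603350093666541899 / 1000000000000000000000) * B ^ 5 + (641984049881603637192543 / 500000000000000000000) * A ^ 1 * B ^ 4 + (439339436423453468266783 / 125000000000000000000) * A ^ 2 * B ^ 3 + (58402760263287114117643 / 12500000000000000000) * A ^ 3 * B ^ 2 + (190910620675564962412839 / 62500000000000000000) * A ^ 4 * B ^ 1 + (24782445756479983919331 / 31250000000000000000) * A ^ 5 := by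
      intro A B hA hB
      positivity
    exact le_of_le_of_eq (hb (x - (1 / 4)) ((1 / 2) - x) hA hB) (by ring)

lemma D2_01_b {x : ℝ} (hl : (1 / 4) ≤ x) (hu : x ≤ (1 / 2)) :
    Vt (-(26 / 125)) (489 / 500) (707 / 1000) (707 / 1000) 0 1 (17361 / 10000) x := by
  have hA : 0 ≤ x - (1 / 4) := by linarith
  have hB : 0 ≤ (1 / 2) - x := by linarith
  have hx : 0 ≤ x := by linarith
  have hx0 : 0 < x := by linarith
  have hM : 0 < 0 + 1 * x ^ 2 + (17361 / 10000) * x := by positivity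
  have hs : 0 < (489 / 500) + x * (707 / 1000) := by positivity
  have k3 : (29 / 50) * (0 + 1 * x ^ 2 + (17361 / 10000) * x) ≤ ((489 / 500) + x * (707 / 1000)) * 1 * x := by
    have hb : 0 ≤ (703 / 62500) * ((1 / 2) - x) ^ 2 + (20093 / 125000) * ((x - (1 / 4)) * ((1 / 2) - x)) + (17281 / 62500) * (x - (1 / 4)) ^ 2 := by
      have h1 := mul_nonneg hA hB
      positivity
    nlinarith [hb]
  have k4 : ((489 / 500) + x * (707 / 1000)) * 1 * x ≤ (597 / 1000) * (0 + 1 * x ^ 2 + (17361 / 10000) * x) := by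
    have hb : 0 ≤ (309517 / 2500000) * ((1 / 2) - x) ^ 2 + (653551 / 2500000) * ((x - (1 / 4)) * ((1 / 2) - x)) + (34517 / 1250000) * (x - (1 / 4)) ^ 2 := by
      have h1 := mul_nonneg hA hB
      positivity
    nlinarith [hb]
  refine good_of (σ := ((489 / 500) + x * (707 / 1000))) (α1 := 0) (β1 := 0) (α2 := (409 / 400)) (β2 := (3091 / 5000))
    (by ring) hs hM hx (by norm_num) (by norm_num) ?_ ?_ ?_ ?_ ?_
  · nlinarith [hM]
  · nlinarith [k4, hM]
  · simp
  · exact mul_le_mul_of_nonneg_left (sqrt_chord hM (by norm_num) k3 k4 (by norm_num) (by norm_num)) (by norm_num)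
  · have hb : ∀ A B : ℝ, 0 ≤ A → 0 ≤ B → 0 ≤ (18330053765884703345137 / 7812500000000000000) * B ^ 5 + (169358576550580426835639 / 15625000000000000000) * A ^ 1 * B ^ 4 + (297442664756125809760847 / 15625000000000000000) * A ^ 2 * B ^ 3 + (239757684489740539831447 / 15625000000000000000) * A ^ 3 * B ^ 2 + (10129978041188075815583 / 1953125000000000000) * A ^ 4 * B ^ 1 + (1504180947760356349831 / 3906250000000000000) * A ^ 5 := by
      intro A B hA hB
      positivity
    exact le_of_le_of_eq (mul_nonneg (pow_nonneg hx 3) (hb (x - (1 / 4)) ((1 / 2) - x) hA hB)) (by ring)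

lemma D2_00_b {x : ℝ} (hl : (1 / 4) ≤ x) (hu : x ≤ (1 / 2)) :
    Vt (-(26 / 125)) (489 / 500) (707 / 1000) (707 / 1000) 0 0 (22361 / 10000) x := by
  have hA : 0 ≤ x - (1 / 4) := by linarith
  have hB : 0 ≤ (1 / 2) - x := by linarith
  have hx : 0 ≤ x := by linarith
  have hx0 : 0 < x := by linarith
  have hM : 0 < 0 + 0 * x ^ 2 + (22361 / 10000) * x := by positivity
  have hs : 0 < (489 / 500) + x * (707 / 1000) := by positivity
  refine good_of (σ := ((489 / 500) + x * (707 / 1000))) (α1 := 0) (β1 := 0) (α2 := 0) (β2 := 0)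
    (by ring) hs hM hx (by norm_num) (by norm_num) ?_ ?_ ?_ ?_ ?_
  · nlinarith [hM]
  · nlinarith [hM]
  · simp
  · simp
  · have hb : ∀ A B : ℝ, 0 ≤ A → 0 ≤ B → 0 ≤ (57190212786568675550899 / 1000000000000000000000) * B ^ 2 + (22244078421277920095423 / 250000000000000000000) * A ^ 1 * B ^ 1 + (8643718270693415582331 / 250000000000000000000) * A ^ 2 := by
      intro A B hA hB
      positivity
    exact le_of_le_of_eq (mul_nonneg (pow_nonneg hx 3) (hb (x - (1 / 4)) ((1 / 2) - x) hA hB)) (by ring)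

lemma D2_m11_b {x : ℝ} (hl : (1 / 4) ≤ x) (hu : x ≤ (1 / 2)) :
    Vm (-(26 / 125)) (489 / 500) (707 / 1000) (707 / 1000) 1 1 (22361 / 10000) x := by
  have hA : 0 ≤ x - (1 / 4) := by linarith
  have hB : 0 ≤ (1 / 2) - x := by linarith
  have hx : 0 ≤ x := by linarith
  have hM : 0 < 1 + 1 * x ^ 2 + (22361 / 10000) * x := by positivity
  have hs : 0 < (489 / 500) + x * (707 / 1000) := by positivity
  have k1 : (561 / 1000) * (1 + 1 * x ^ 2 + (22361 / 10000) * x) ≤ ((489 / 500) + x * (707 / 1000)) * 1 := by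
    have hb : 0 ≤ (9802979 / 2500000) * ((1 / 2) - x) ^ 2 + (11326437 / 2500000) * ((x - (1 / 4)) * ((1 / 2) - x)) + (60479 / 1250000) * (x - (1 / 4)) ^ 2 := by
      have h1 := mul_nonneg hA hB
      positivity
    nlinarith [hb]
  have k2 : ((489 / 500) + x * (707 / 1000)) * 1 ≤ (357 / 500) * (1 + 1 * x ^ 2 + (22361 / 10000) * x) := by
    have hb : 0 ≤ (60377 / 1250000) * ((1 / 2) - x) ^ 2 + (6353631 / 1250000) * ((x - (1 / 4)) * ((1 / 2) - x)) + (3592877 / 625000) * (x - (1 / 4)) ^ 2 := by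
      have h1 := mul_nonneg hA hB
      positivity
    nlinarith [hb]
  have k3 : (177 / 1000) * (1 + 1 * x ^ 2 + (22361 / 10000) * x) ≤ ((489 / 500) + x * (707 / 1000)) * 1 * x := by
    have hb : 0 ≤ (67103 / 2500000) * ((1 / 2) - x) ^ 2 + (8606309 / 2500000) * ((x - (1 / 4)) * ((1 / 2) - x)) + (4932103 / 1250000) * (x - (1 / 4)) ^ 2 := by
      have h1 := mul_nonneg hA hB
      positivity
    nlinarith [hb]
  have k4 : ((489 / 500) + x * (707 / 1000)) * 1 * x ≤ (283 / 1000) * (1 + 1 * x ^ 2 + (22361 / 10000) * x) := by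
    have hb : 0 ≤ (6808163 / 2500000) * ((1 / 2) - x) ^ 2 + (8044489 / 2500000) * ((x - (1 / 4)) * ((1 / 2) - x)) + (88163 / 1250000) * (x - (1 / 4)) ^ 2 := by
      have h1 := mul_nonneg hA hB
      positivity
    nlinarith [hb]
  refine good_of (σ := ((489 / 500) + x * (707 / 1000))) (α1 := (10337 / 10000)) (β1 := (1309 / 2000)) (α2 := (10003 / 10000)) (β2 := (1287 / 2500))
    (by ring) hs hM hx (by norm_num) (by norm_num) ?_ ?_ ?_ ?_ ?_
  · nlinarith [k2, hM]
  · nlinarith [k4, hM]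
  · exact mul_le_mul_of_nonneg_left (sqrt_chord hM (by norm_num) k1 k2 (by norm_num) (by norm_num)) (by norm_num)
  · exact mul_le_mul_of_nonneg_left (sqrt_chord hM (by norm_num) k3 k4 (by norm_num) (by norm_num)) (by norm_num)
  · have hb : ∀ A B : ℝ, 0 ≤ A → 0 ≤ B → 0 ≤ (269379854428243753508399 / 15625000000000000000) * B ^ 8 + (2507053739548285992781283 / 15625000000000000000) * A ^ 1 * B ^ 7 + (10010146627094925449722469 / 15625000000000000000) * A ^ 2 * B ^ 6 + (22432942523670286176323389 / 15625000000000000000) * A ^ 3 * B ^ 5 + (15443027111743087147194311 / 7812500000000000000) * A ^ 4 * B ^ 4 + (3344466972507234128149431 / 1953125000000000000) * A ^ 5 * B ^ 3 + (222405353472965953137617 / 244140625000000000) * A ^ 6 * B ^ 2 + (10616921677110388311873 / 39062500000000000) * A ^ 7 * B ^ 1 + (16968095277232747736831 / 488281250000000000) * A ^ 8 := by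
      intro A B hA hB
      positivity
    exact le_of_le_of_eq (hb (x - (1 / 4)) ((1 / 2) - x) hA hB) (by ring)

lemma D2_m01_b {x : ℝ} (hl : (1 / 4) ≤ x) (hu : x ≤ (1 / 2)) :
    Vm (-(26 / 125)) (489 / 500) (707 / 1000) (707 / 1000) 0 1 (27361 / 10000) x := by
  have hA : 0 ≤ x - (1 / 4) := by linarith
  have hB : 0 ≤ (1 / 2) - x := by linarith
  have hx : 0 ≤ x := by linarith
  have hx0 : 0 < x := by linarith
  have hM : 0 < 0 + 1 * x ^ 2 + (27361 / 10000) * x := by positivity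
  have hs : 0 < (489 / 500) + x * (707 / 1000) := by positivity
  have k3 : (77 / 200) * (0 + 1 * x ^ 2 + (27361 / 10000) * x) ≤ ((489 / 500) + x * (707 / 1000)) * 1 * x := by
    have hb : 0 ≤ (10203 / 500000) * ((1 / 2) - x) ^ 2 + (191609 / 500000) * ((x - (1 / 4)) * ((1 / 2) - x)) + (171203 / 250000) * (x - (1 / 4)) ^ 2 := by
      have h1 := mul_nonneg hA hB
      positivity
    nlinarith [hb]
  have k4 : ((489 / 500) + x * (707 / 1000)) * 1 * x ≤ (413 / 1000) * (0 + 1 * x ^ 2 + (27361 / 10000) * x) := by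
    have hb : 0 ≤ (785093 / 2500000) * ((1 / 2) - x) ^ 2 + (1620279 / 2500000) * ((x - (1 / 4)) * ((1 / 2) - x)) + (50093 / 1250000) * (x - (1 / 4)) ^ 2 := by
      have h1 := mul_nonneg hA hB
      positivity
    nlinarith [hb]
  refine good_of (σ := ((489 / 500) + x * (707 / 1000))) (α1 := 0) (β1 := 0) (α2 := (10037 / 10000)) (β2 := (5451 / 10000))
    (by ring) hs hM hx (by norm_num) (by norm_num) ?_ ?_ ?_ ?_ ?_
  · nlinarith [hM]
  · nlinarith [k4, hM]
  · simp
  · exact mul_le_mul_of_nonneg_left (sqrt_chord hM (by norm_num) k3 k4 (by norm_num) (by norm_num)) (by norm_num)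
  · have hb : ∀ A B : ℝ, 0 ≤ A → 0 ≤ B → 0 ≤ (281099005376038319910923 / 31250000000000000000) * B ^ 5 + (338427954873955565831757 / 7812500000000000000) * A ^ 1 * B ^ 4 + (1291272507738380156142347 / 15625000000000000000) * A ^ 2 * B ^ 3 + (1217560568902552490784447 / 15625000000000000000) * A ^ 3 * B ^ 2 + (35375028355864300731729 / 976562500000000000) * A ^ 4 * B ^ 1 + (25851888941589451241331 / 3906250000000000000) * A ^ 5 := by
      intro A B hA hB
      positivity
    exact le_of_le_of_eq (mul_nonneg (pow_nonneg hx 3) (hb (x - (1 / 4)) ((1 / 2) - x) hA hB)) (by ring)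

lemma D2_11c_a {x : ℝ} (hl : (1 / 4) ≤ x) (hu : x ≤ (1 / 2)) :
    Vt (-(26 / 125)) (489 / 500) (707 / 1000) (707 / 1000) 1 1 1 x := by
  have hA : 0 ≤ x - (1 / 4) := by linarith
  have hB : 0 ≤ (1 / 2) - x := by linarith
  have hx : 0 ≤ x := by linarith
  have hM : 0 < 1 + 1 * x ^ 2 + 1 * x := by positivity
  have hs : 0 < (489 / 500) + x * (707 / 1000) := by positivity
  have k1 : (759 / 1000) * (1 + 1 * x ^ 2 + 1 * x) ≤ ((489 / 500) + x * (707 / 1000)) * 1 := by
    have hb : 0 ≤ (2537 / 1000) * ((1 / 2) - x) ^ 2 + (837 / 250) * ((x - (1 / 4)) * ((1 / 2) - x)) + (13 / 250) * (x - (1 / 4)) ^ 2 := by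
      have h1 := mul_nonneg hA hB
      positivity
    nlinarith [hb]
  have k2 : ((489 / 500) + x * (707 / 1000)) * 1 ≤ (881 / 1000) * (1 + 1 * x ^ 2 + 1 * x) := by
    have hb : 0 ≤ (1 / 40) * ((1 / 2) - x) ^ 2 + (627 / 250) * ((x - (1 / 4)) * ((1 / 2) - x)) + (841 / 250) * (x - (1 / 4)) ^ 2 := by
      have h1 := mul_nonneg hA hB
      positivity
    nlinarith [hb]
  have k3 : (109 / 500) * (1 + 1 * x ^ 2 + 1 * x) ≤ ((489 / 500) + x * (707 / 1000)) * 1 * x := by
    have hb : 0 ≤ (41 / 1000) * ((1 / 2) - x) ^ 2 + (41 / 10) * ((x - (1 / 4)) * ((1 / 2) - x)) + (1137 / 250) * (x - (1 / 4)) ^ 2 := by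
      have h1 := mul_nonneg hA hB
      positivity
    nlinarith [hb]
  have k4 : ((489 / 500) + x * (707 / 1000)) * 1 * x ≤ (191 / 500) * (1 + 1 * x ^ 2 + 1 * x) := by
    have hb : 0 ≤ (3403 / 1000) * ((1 / 2) - x) ^ 2 + (943 / 250) * ((x - (1 / 4)) * ((1 / 2) - x)) + (11 / 250) * (x - (1 / 4)) ^ 2 := by
      have h1 := mul_nonneg hA hB
      positivity
    nlinarith [hb]
  refine good_of (σ := ((489 / 500) + x * (707 / 1000))) (α1 := (2327 / 2000)) (β1 := (1779 / 2000)) (α2 := (10009 / 10000)) (β2 := (2631 / 5000))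
    (by ring) hs hM hx (by norm_num) (by norm_num) ?_ ?_ ?_ ?_ ?_
  · nlinarith [k2, hM]
  · nlinarith [k4, hM]
  · exact mul_le_mul_of_nonneg_left (sqrt_chord hM (by norm_num) k1 k2 (by norm_num) (by norm_num)) (by norm_num)
  · exact mul_le_mul_of_nonneg_left (sqrt_chord hM (by norm_num) k3 k4 (by norm_num) (by norm_num)) (by norm_num)
  · have hb : ∀ A B : ℝ, 0 ≤ A → 0 ≤ B → 0 ≤ (19267368344798518089 / 5000000000000000) * B ^ 8 + (16630426926786537411 / 312500000000000) * A ^ 1 * B ^ 7 + (86199347782097737587 / 312500000000000) * A ^ 2 * B ^ 6 + (11751406933480954173 / 15625000000000) * A ^ 3 * B ^ 5 + (189578359005169944647 / 156250000000000) * A ^ 4 * B ^ 4 + (4692979425387089741 / 3906250000000) * A ^ 5 * B ^ 3 + (14008787358317892103 / 19531250000000) * A ^ 6 * B ^ 2 + (1154137074905916963 / 4882812500000) * A ^ 7 * B ^ 1 + (641289371733474049 / 19531250000000) * A ^ 8 := by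
      intro A B hA hB
      positivity
    exact le_of_le_of_eq (hb (x - (1 / 4)) ((1 / 2) - x) hA hB) (by ring)

end Pool.Agent.ICL
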