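import Pool.Agent.ICL.Stmts
import Pool.Agent.ICL.VD1
import Pool.Agent.ICL.VD2
import Pool.Agent.ICL.VB1
import Pool.Agent.ICL.VB2
import Pool.Agent.ICL.VA1
import Pool.Agent.ICL.VA2
import Pool.Agent.ICL.VA3

/-!
# The faces FA, FB and the mixed case from the vertex checks
-/

set_option autoImplicit false

namespace Pool.Agent.ICL

/-- A point of the region. -/
def VV (a b C1 S1 C2 S2 f g t : ℝ) : Prop :=
  Good a b C1 S1 C2 S2 (f * a ^ 2) (g * b ^ 2) (f * a ^ 2 + g * b ^ 2 + t * (a * b))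
    (t * (a * b) - f * a ^ 2) (t * (a * b) - g * b ^ 2)

/-- A point of the region, mixed case. -/
def VVm (a b C1 S1 C2 S2 f g t : ℝ) : Prop :=
  Good a b C1 S1 C2 S2 (f * a ^ 2) (g * b ^ 2) (f * a ^ 2 + g * b ^ 2 + t * (a * b))
    (t * (a * b) - f * a ^ 2) (t * (a * b) + g * b ^ 2)

section

variable {a b C1 S1 C2 S2 f g t f' g' t' f'' g'' t'' θ x : ℝ}

lemma VV_of_Vt (h : Vt C1 S1 C2 S2 f g t x) : VV 1 x C1 S1 C2 S2 f g t := by
  unfold Vt at h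
  unfold VV
  have e1 : f * (1 : ℝ) ^ 2 = f := by ring
  have e2 : t * (1 * x) = t * x := by ring
  rw [e1, e2]
  exact h

lemma VVm_of_Vm (h : Vm C1 S1 C2 S2 f g t x) : VVm 1 x C1 S1 C2 S2 f g t := by
  unfold Vm at h
  unfold VVm
  have e1 : f * (1 : ℝ) ^ 2 = f := by ring
  have e2 : t * (1 * x) = t * x := by ring
  rw [e1, e2]
  exact h

lemma VV_conv (hC : Stmt_CONV) (ha : 0 < a) (hb : 0 ≤ b) (hs : 0 < a * S1 + b * S2) (h0 : 0 ≤ θ)
    (h1 : θ ≤ 1) (h : VV a b C1 S1 C2 S2 f g t) (h' : VV a b C1 S1 C2 S2 f' g' t')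
    (e1 : f'' = (1 - θ) * f + θ * f') (e2 : g'' = (1 - θ) * g + θ * g')
    (e3 : t'' = (1 - θ) * t + θ * t') : VV a b C1 S1 C2 S2 f'' g'' t'' := by
  have := hC a b C1 S1 C2 S2 _ _ _ _ _ _ _ _ _ _ θ ha hb hs h0 h1 h h'
  unfold VV
  subst e1 e2 e3
  convert this using 1 <;> ring

lemma VVm_conv (hC : Stmt_CONV) (ha : 0 < a) (hb : 0 ≤ b) (hs : 0 < a * S1 + b * S2) (h0 : 0 ≤ θ)
    (h1 : θ ≤ 1) (h : VVm a b C1 S1 C2 S2 f g t) (h' : VVm a b C1 S1 C2 S2 f' g' t')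
    (e1 : f'' = (1 - θ) * f + θ * f') (e2 : g'' = (1 - θ) * g + θ * g')
    (e3 : t'' = (1 - θ) * t + θ * t') : VVm a b C1 S1 C2 S2 f'' g'' t'' := by
  have := hC a b C1 S1 C2 S2 _ _ _ _ _ _ _ _ _ _ θ ha hb hs h0 h1 h h'
  unfold VVm
  subst e1 e2 e3
  convert this using 1 <;> ring

/-- A point of a segment of the real line. -/
lemma seg_exists {l u τ : ℝ} (hl : l ≤ τ) (hu : τ ≤ u) :
    ∃ θ : ℝ, 0 ≤ θ ∧ θ ≤ 1 ∧ τ = (1 - θ) * l + θ * u := by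
  rcases eq_or_lt_of_le (hl.trans hu) with h | h
  · exact ⟨0, le_rfl, zero_le_one, by linarith⟩
  · refine ⟨(τ - l) / (u - l), div_nonneg (by linarith) (by linarith), ?_, ?_⟩
    · rw [div_le_one (by linarith)]
      linarith
    · have : u - l ≠ 0 := by linarith
      field_simp
      ring

lemma r5 : (2236 / 1000 : ℝ) ≤ Real.sqrt 5 ∧ Real.sqrt 5 ≤ (22361 / 10000 : ℝ) := by
  have h1 := sqrt5_lb
  have h2 := sqrt5_ub
  constructor <;> linarith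

/-- From the two rational values of `√5` to `√5`. -/
lemma VV_s5 (hC : Stmt_CONV) (c : ℝ) (ha : 0 < a) (hb : 0 ≤ b) (hs : 0 < a * S1 + b * S2)
    (h : VV a b C1 S1 C2 S2 f g t) (h' : VV a b C1 S1 C2 S2 f g t') (e : t = 2236 / 1000 + c)
    (e' : t' = 22361 / 10000 + c) : VV a b C1 S1 C2 S2 f g (Real.sqrt 5 + c) := by
  obtain ⟨θ, h0, h1, hθ⟩ := seg_exists r5.1 r5.2
  refine VV_conv hC ha hb hs h0 h1 h h' (by ring) (by ring) ?_
  rw [e, e', hθ]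
  ring

lemma VVm_s5 (hC : Stmt_CONV) (c : ℝ) (ha : 0 < a) (hb : 0 ≤ b) (hs : 0 < a * S1 + b * S2)
    (h : VVm a b C1 S1 C2 S2 f g t) (h' : VVm a b C1 S1 C2 S2 f g t') (e : t = 2236 / 1000 + c)
    (e' : t' = 22361 / 10000 + c) : VVm a b C1 S1 C2 S2 f g (Real.sqrt 5 + c) := by
  obtain ⟨θ, h0, h1, hθ⟩ := seg_exists r5.1 r5.2
  refine VVm_conv hC ha hb hs h0 h1 h h' (by ring) (by ring) ?_
  rw [e, e', hθ]
  ring

/-- Scaling. -/
lemma Ineq_scale {a b A1 A2 M r1 r2 l : ℝ} (hl : 0 < l) (h : Ineq a b A1 A2 M r1 r2) :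
    Ineq (l * a) (l * b) (l ^ 2 * A1) (l ^ 2 * A2) (l ^ 2 * M) (l ^ 2 * r1) (l ^ 2 * r2) := by
  intro p q k hp hq hk
  have h1 := h (p / l) (q / l) (k / l) (by positivity) (by positivity) (by positivity)
  have key : ∀ X Y c : ℝ, Real.sqrt ((l ^ 2 * X) ^ 2 + (c * (l * Y)) ^ 2)
      = l ^ 2 * Real.sqrt (X ^ 2 + (c / l * Y) ^ 2) := by
    intro X Y c
    have : (l ^ 2 * X) ^ 2 + (c * (l * Y)) ^ 2 = (l ^ 2) ^ 2 * (X ^ 2 + (c / l * Y) ^ 2) := by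
      field_simp
    rw [this, Real.sqrt_mul (by positivity), Real.sqrt_sq (by positivity)]
  have hA : Ag (l * a) (l * b) (l ^ 2 * A1) (l ^ 2 * A2) (l ^ 2 * r1) (l ^ 2 * r2) p q k
      = l ^ 2 * Ag a b A1 A2 r1 r2 (p / l) (q / l) (k / l) := by
    unfold Ag
    rw [key, key, key, key]
    ring
  rw [hA]
  have hV : p * (l ^ 2 * A1) + q * (l ^ 2 * A2) + k * (l ^ 2 * M)
      = l ^ 3 * (p / l * A1 + q / l * A2 + k / l * M) := by
    field_simp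
  rw [hV]
  have h2 := mul_le_mul_of_nonneg_left h1 (show 0 ≤ l ^ 6 by positivity)
  calc 27 * g0 * (l ^ 3 * (p / l * A1 + q / l * A2 + k / l * M)) ^ 2
      = l ^ 6 * (27 * g0 * (p / l * A1 + q / l * A2 + k / l * M) ^ 2) := by ring
    _ ≤ _ := h2
    _ = _ := by ring

lemma VV_ineq (hK : Stmt_KEY) {l A1 A2 τ : ℝ} {a' b' : ℝ} (hl : 0 < l) (ha : 0 < a) (hb : 0 ≤ b)
    (u1 : C1 ^ 2 + S1 ^ 2 ≤ 1) (u2 : C2 ^ 2 + S2 ^ 2 ≤ 1) (hs : 0 < a * S1 + b * S2)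
    (h : VV a b C1 S1 C2 S2 f g τ) (ea : a' = l * a) (eb : b' = l * b) (e1 : A1 = f * a' ^ 2)
    (e2 : A2 = g * b' ^ 2) (e3 : t = τ * (a' * b')) : Ineq a' b' A1 A2 (A1 + A2 + t) (t - A1) (t - A2) := by
  have h1 := Ineq_scale hl (hK a b C1 S1 C2 S2 _ _ _ _ _ ha hb u1 u2 hs h)
  subst e1 e2 e3 ea eb
  convert h1 using 1 <;> ring

lemma VVm_ineq (hK : Stmt_KEY) {l A1 A2 τ : ℝ} {a' b' : ℝ} (hl : 0 < l) (ha : 0 < a) (hb : 0 ≤ b)
    (u1 : C1 ^ 2 + S1 ^ 2 ≤ 1) (u2 : C2 ^ 2 + S2 ^ 2 ≤ 1) (hs : 0 < a * S1 + b * S2)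
    (h : VVm a b C1 S1 C2 S2 f g τ) (ea : a' = l * a) (eb : b' = l * b) (e1 : A1 = f * a' ^ 2)
    (e2 : A2 = g * b' ^ 2) (e3 : t = τ * (a' * b')) : Ineq a' b' A1 A2 (A1 + A2 + t) (t - A1) (t + A2) := by
  have h1 := Ineq_scale hl (hK a b C1 S1 C2 S2 _ _ _ _ _ ha hb u1 u2 hs h)
  subst e1 e2 e3 ea eb
  convert h1 using 1 <;> ring

/-- `VVm` from `VV`. -/
lemma VVm_of_VV (hC : 0 ≤ C2) (hg : 0 ≤ g) (h : VV a b C1 S1 C2 S2 f g t) :
    VVm a b C1 S1 C2 S2 f g t := by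
  obtain ⟨h1, h2, h3, h4, h5, h6⟩ := h
  refine ⟨h1, h2, h3, h4, h5, h6.trans (mul_le_mul_of_nonneg_left ?_ (sq_nonneg _))⟩
  have : 0 ≤ g * b ^ 2 := by positivity
  nlinarith

end

/-- The data of a test in the far region. -/
structure DF (C1 S1 C2 S2 x : ℝ) : Prop where
  u1 : C1 ^ 2 + S1 ^ 2 ≤ 1
  u2 : C2 ^ 2 + S2 ^ 2 ≤ 1
  hC : 0 ≤ C2
  sp : 0 < 1 * S1 + x * S2
  v11 : VV 1 x C1 S1 C2 S2 1 1 (Real.sqrt 5 + -1)
  v10 : VV 1 x C1 S1 C2 S2 1 0 (Real.sqrt 5 + -1 / 2)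
  v01 : VV 1 x C1 S1 C2 S2 0 1 (Real.sqrt 5 + -1 / 2)
  v00 : VV 1 x C1 S1 C2 S2 0 0 (Real.sqrt 5 + 0)
  m11 : VVm 1 x C1 S1 C2 S2 1 1 (Real.sqrt 5 + 0)
  m01 : VVm 1 x C1 S1 C2 S2 0 1 (Real.sqrt 5 + 1 / 2)
  c11 : VV 1 x C1 S1 C2 S2 1 1 1

lemma DF1 (hC : Stmt_CONV) {x : ℝ} (h0 : 0 < x) (h1 : x ≤ 1 / 4) :
    DF (-(39 / 100)) (1151 / 1250) (7547 / 10000) (82 / 125) x := by
  have hs : (0 : ℝ) < 1 * (1151 / 1250) + x * (82 / 125) := by positivity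
  exact
    { u1 := by norm_num
      u2 := by norm_num
      hC := by norm_num
      sp := hs
      v11 := VV_s5 hC _ one_pos h0.le hs (VV_of_Vt (D1_11_a h0.le h1)) (VV_of_Vt (D1_11_b h0.le h1))
        (by norm_num) (by norm_num)
      v10 := VV_s5 hC _ one_pos h0.le hs (VV_of_Vt (D1_10_a h0.le h1)) (VV_of_Vt (D1_10_b h0.le h1))
        (by norm_num) (by norm_num)
      v01 := VV_s5 hC _ one_pos h0.le hs (VV_of_Vt (D1_01_a h0 h0.le h1)) (VV_of_Vt (D1_01_b h0 h0.le h1))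
        (by norm_num) (by norm_num)
      v00 := VV_s5 hC _ one_pos h0.le hs (VV_of_Vt (D1_00_a h0 h0.le h1)) (VV_of_Vt (D1_00_b h0 h0.le h1))
        (by norm_num) (by norm_num)
      m11 := VVm_s5 hC _ one_pos h0.le hs (VVm_of_Vm (D1_m11_a h0.le h1)) (VVm_of_Vm (D1_m11_b h0.le h1))
        (by norm_num) (by norm_num)
      m01 := VVm_s5 hC _ one_pos h0.le hs (VVm_of_Vm (D1_m01_a h0 h0.le h1))
        (VVm_of_Vm (D1_m01_b h0 h0.le h1)) (by norm_num) (by norm_num)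
      c11 := VV_of_Vt (D1_11c_a h0.le h1) }

lemma DF2 (hC : Stmt_CONV) {x : ℝ} (h0 : 1 / 4 ≤ x) (h1 : x ≤ 1 / 2) :
    DF (-(26 / 125)) (489 / 500) (707 / 1000) (707 / 1000) x := by
  have hx : 0 ≤ x := by linarith
  have hs : (0 : ℝ) < 1 * (489 / 500) + x * (707 / 1000) := by positivity
  exact
    { u1 := by norm_num
      u2 := by norm_num
      hC := by norm_num
      sp := hs
      v11 := VV_s5 hC _ one_pos hx hs (VV_of_Vt (D2_11_a h0 h1)) (VV_of_Vt (D2_11_b h0 h1))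
        (by norm_num) (by norm_num)
      v10 := VV_s5 hC _ one_pos hx hs (VV_of_Vt (D2_10_a h0 h1)) (VV_of_Vt (D2_10_b h0 h1))
        (by norm_num) (by norm_num)
      v01 := VV_s5 hC _ one_pos hx hs (VV_of_Vt (D2_01_a h0 h1)) (VV_of_Vt (D2_01_b h0 h1))
        (by norm_num) (by norm_num)
      v00 := VV_s5 hC _ one_pos hx hs (VV_of_Vt (D2_00_a h0 h1)) (VV_of_Vt (D2_00_b h0 h1))
        (by norm_num) (by norm_num)
      m11 := VVm_s5 hC _ one_pos hx hs (VVm_of_Vm (D2_m11_a h0 h1)) (VVm_of_Vm (D2_m11_b h0 h1))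
        (by norm_num) (by norm_num)
      m01 := VVm_s5 hC _ one_pos hx hs (VVm_of_Vm (D2_m01_a h0 h1)) (VVm_of_Vm (D2_m01_b h0 h1))
        (by norm_num) (by norm_num)
      c11 := VV_of_Vt (D2_11c_a h0 h1) }

lemma DF_exists (hC : Stmt_CONV) {x : ℝ} (h0 : 0 < x) (h1 : x ≤ 1 / 2) :
    ∃ C1 S1 C2 S2 : ℝ, DF C1 S1 C2 S2 x := by
  rcases le_total x (1 / 4) with h | h
  · exact ⟨_, _, _, _, DF1 hC h0 h⟩
  · exact ⟨_, _, _, _, DF2 hC h h1⟩

section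

variable {C1 S1 C2 S2 x f g τ : ℝ}

/-- Lower boundary: the decagon constraint is tight. -/
lemma DF.low (hC : Stmt_CONV) (h : DF C1 S1 C2 S2 x) (hx : 0 ≤ x) (hf : 0 ≤ f) (hf1 : f ≤ 1) (hg : 0 ≤ g)
    (hg1 : g ≤ 1) : VV 1 x C1 S1 C2 S2 f g (Real.sqrt 5 - (f + g) / 2) := by
  have k0 : VV 1 x C1 S1 C2 S2 f 0 (Real.sqrt 5 - f / 2) :=
    VV_conv hC one_pos hx h.sp hf hf1 h.v00 h.v10 (by ring) (by ring) (by ring)
  have k1 : VV 1 x C1 S1 C2 S2 f 1 (Real.sqrt 5 - f / 2 - 1 / 2) :=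
    VV_conv hC one_pos hx h.sp hf hf1 h.v01 h.v11 (by ring) (by ring) (by ring)
  exact VV_conv hC one_pos hx h.sp hg hg1 k0 k1 (by ring) (by ring) (by ring)

/-- Upper boundary, mixed. -/
lemma DF.upp (hC : Stmt_CONV) (h : DF C1 S1 C2 S2 x) (hx : 0 ≤ x) (hf : 0 ≤ f) (hf1 : f ≤ 1) (hg : 0 ≤ g)
    (hg1 : g ≤ 1) : VVm 1 x C1 S1 C2 S2 f g (Real.sqrt 5 - (f - g) / 2) := by
  have k0 : VVm 1 x C1 S1 C2 S2 f 0 (Real.sqrt 5 - f / 2) :=
    VVm_conv hC one_pos hx h.sp hf hf1 (VVm_of_VV h.hC le_rfl h.v00) (VVm_of_VV h.hC le_rfl h.v10)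
      (by ring) (by ring) (by ring)
  have k1 : VVm 1 x C1 S1 C2 S2 f 1 (Real.sqrt 5 - f / 2 + 1 / 2) :=
    VVm_conv hC one_pos hx h.sp hf hf1 h.m01 h.m11 (by ring) (by ring) (by ring)
  exact VVm_conv hC one_pos hx h.sp hg hg1 k0 k1 (by ring) (by ring) (by ring)

lemma DF.mid (hC : Stmt_CONV) (h : DF C1 S1 C2 S2 x) (hx : 0 ≤ x) (hf : 0 ≤ f) (hf1 : f ≤ 1) (hg : 0 ≤ g)
    (hg1 : g ≤ 1) (h1 : Real.sqrt 5 - (f + g) / 2 ≤ τ) (h2 : τ ≤ Real.sqrt 5 - (f - g) / 2) :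
    VVm 1 x C1 S1 C2 S2 f g τ := by
  obtain ⟨θ, t0, t1, ht⟩ := seg_exists h1 h2
  exact VVm_conv hC one_pos hx h.sp t0 t1 (VVm_of_VV h.hC hg (h.low hC hx hf hf1 hg hg1))
    (h.upp hC hx hf hf1 hg hg1) (by ring) (by ring) ht

lemma DF.faceA (hC : Stmt_CONV) (h : DF C1 S1 C2 S2 x) (hx : 0 ≤ x) (h1 : 1 ≤ τ) (h2 : τ ≤ Real.sqrt 5 - 1) :
    VV 1 x C1 S1 C2 S2 1 1 τ := by
  obtain ⟨θ, t0, t1, ht⟩ := seg_exists h1 h2
  exact VV_conv hC one_pos hx h.sp t0 t1 h.c11 h.v11 (by ring) (by ring) (ht.trans (by ring))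

end

/-- The data of a test in the middle region. -/
structure BF (C1 S1 C2 S2 x : ℝ) : Prop where
  u1 : C1 ^ 2 + S1 ^ 2 ≤ 1
  u2 : C2 ^ 2 + S2 ^ 2 ≤ 1
  sp : 0 < 1 * S1 + x * S2
  v1h : VV 1 x C1 S1 C2 S2 1 (1 / 2) (Real.sqrt 5 + -3 / 4)
  vh1 : VV 1 x C1 S1 C2 S2 (1 / 2) 1 (Real.sqrt 5 + -3 / 4)
  v10 : VV 1 x C1 S1 C2 S2 1 0 (Real.sqrt 5 + -1 / 2)
  v01 : VV 1 x C1 S1 C2 S2 0 1 (Real.sqrt 5 + -1 / 2)
  v00 : VV 1 x C1 S1 C2 S2 0 0 (Real.sqrt 5 + 0)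

lemma BF1 (hC : Stmt_CONV) {x : ℝ} (h0 : 1 / 2 ≤ x) (h1 : x ≤ 3 / 4) :
    BF (17 / 1000) (4999 / 5000) (139 / 200) (719 / 1000) x := by
  have hx : 0 ≤ x := by linarith
  have hs : (0 : ℝ) < 1 * (4999 / 5000) + x * (719 / 1000) := by positivity
  exact
    { u1 := by norm_num
      u2 := by norm_num
      sp := hs
      v1h := VV_s5 hC _ one_pos hx hs (VV_of_Vt (B1_1h_a h0 h1)) (VV_of_Vt (B1_1h_b h0 h1))
        (by norm_num) (by norm_num)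
      vh1 := VV_s5 hC _ one_pos hx hs (VV_of_Vt (B1_h1_a h0 h1)) (VV_of_Vt (B1_h1_b h0 h1))
        (by norm_num) (by norm_num)
      v10 := VV_s5 hC _ one_pos hx hs (VV_of_Vt (B1_10_a h0 h1)) (VV_of_Vt (B1_10_b h0 h1))
        (by norm_num) (by norm_num)
      v01 := VV_s5 hC _ one_pos hx hs (VV_of_Vt (B1_01_a h0 h1)) (VV_of_Vt (B1_01_b h0 h1))
        (by norm_num) (by norm_num)
      v00 := VV_s5 hC _ one_pos hx hs (VV_of_Vt (B1_00_a h0 h1)) (VV_of_Vt (B1_00_b h0 h1))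
        (by norm_num) (by norm_num) }

lemma BF2 (hC : Stmt_CONV) {x : ℝ} (h0 : 3 / 4 ≤ x) (h1 : x ≤ 1) :
    BF (121 / 500) (97 / 100) (97 / 200) (1749 / 2000) x := by
  have hx : 0 ≤ x := by linarith
  have hs : (0 : ℝ) < 1 * (97 / 100) + x * (1749 / 2000) := by positivity
  exact
    { u1 := by norm_num
      u2 := by norm_num
      sp := hs
      v1h := VV_s5 hC _ one_pos hx hs (VV_of_Vt (B2_1h_a h0 h1)) (VV_of_Vt (B2_1h_b h0 h1))
        (by norm_num) (by norm_num)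
      vh1 := VV_s5 hC _ one_pos hx hs (VV_of_Vt (B2_h1_a h0 h1)) (VV_of_Vt (B2_h1_b h0 h1))
        (by norm_num) (by norm_num)
      v10 := VV_s5 hC _ one_pos hx hs (VV_of_Vt (B2_10_a h0 h1)) (VV_of_Vt (B2_10_b h0 h1))
        (by norm_num) (by norm_num)
      v01 := VV_s5 hC _ one_pos hx hs (VV_of_Vt (B2_01_a h0 h1)) (VV_of_Vt (B2_01_b h0 h1))
        (by norm_num) (by norm_num)
      v00 := VV_s5 hC _ one_pos hx hs (VV_of_Vt (B2_00_a h0 h1)) (VV_of_Vt (B2_00_b h0 h1))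
        (by norm_num) (by norm_num) }

lemma BF_exists (hC : Stmt_CONV) {x : ℝ} (h0 : 1 / 2 ≤ x) (h1 : x ≤ 1) :
    ∃ C1 S1 C2 S2 : ℝ, BF C1 S1 C2 S2 x := by
  rcases le_total x (3 / 4) with h | h
  · exact ⟨_, _, _, _, BF1 hC h0 h⟩
  · exact ⟨_, _, _, _, BF2 hC h h1⟩

lemma BF.low (hC : Stmt_CONV) {C1 S1 C2 S2 x f g : ℝ} (h : BF C1 S1 C2 S2 x) (hx : 0 ≤ x) (hf : 0 ≤ f)
    (hf1 : f ≤ 1) (hg : 0 ≤ g) (hg1 : g ≤ 1) (hfg : f + g ≤ 3 / 2) :
    VV 1 x C1 S1 C2 S2 f g (Real.sqrt 5 - (f + g) / 2) := by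
  have k0 : VV 1 x C1 S1 C2 S2 f 0 (Real.sqrt 5 - f / 2) :=
    VV_conv hC one_pos hx h.sp hf hf1 h.v00 h.v10 (by ring) (by ring) (by ring)
  rcases le_total f (1 / 2) with h2 | h2
  · have k1 : VV 1 x C1 S1 C2 S2 f 1 (Real.sqrt 5 - f / 2 - 1 / 2) :=
      VV_conv hC (θ := 2 * f) one_pos hx h.sp (by linarith) (by linarith) h.v01 h.vh1 (by ring) (by ring)
        (by ring)
    exact VV_conv hC one_pos hx h.sp hg hg1 k0 k1 (by ring) (by ring) (by ring)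
  · have k1 : VV 1 x C1 S1 C2 S2 f (3 / 2 - f) (Real.sqrt 5 - 3 / 4) :=
      VV_conv hC (θ := 2 * f - 1) one_pos hx h.sp (by linarith) (by linarith) h.vh1 h.v1h (by ring)
        (by ring) (by ring)
    have hpos : 0 < 3 / 2 - f := by linarith
    have e : g = g / (3 / 2 - f) * (3 / 2 - f) := (div_mul_cancel₀ g hpos.ne').symm
    refine VV_conv hC (θ := g / (3 / 2 - f)) one_pos hx h.sp (by positivity) ?_ k0 k1 (by ring) ?_ ?_
    · rw [div_le_one hpos]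
      linarith
    · linarith
    · linear_combination (-(1 / 2 : ℝ)) * e

section

variable {d f g τ : ℝ}

lemma hatA_h1 (h1 : -(1 / 3) ≤ d) (h2 : d ≤ 1 / 3) :
    VV (1 + d) (1 - d) (C1A d) (S1A d) (C2A d) (S2A d) (1 / 2) 1 (Real.sqrt 5 - 3 / 4) := by
  have h := Good_swap (A_1h (d := -d) (by linarith) (by linarith))
  rw [← C2A_eq, ← S2A_eq, C2A_eq (-d), S2A_eq (-d), neg_neg] at h
  unfold VV
  convert h using 1 <;> ring

lemma hatA_low (hC : Stmt_CONV) (h1 : -(1 / 3) ≤ d) (h2 : d ≤ 1 / 3) (hf : f ≤ 1) (hg : g ≤ 1)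
    (hfg : 3 / 2 ≤ f + g) :
    VV (1 + d) (1 - d) (C1A d) (S1A d) (C2A d) (S2A d) f g (Real.sqrt 5 - (f + g) / 2) := by
  have ha : 0 < 1 + d := by linarith
  have hb : 0 ≤ 1 - d := by linarith
  have hs := sgA_pos d
  have v11 : VV (1 + d) (1 - d) (C1A d) (S1A d) (C2A d) (S2A d) 1 1 (Real.sqrt 5 - 1) := A_11 h1 h2
  have v1h : VV (1 + d) (1 - d) (C1A d) (S1A d) (C2A d) (S2A d) 1 (1 / 2) (Real.sqrt 5 - 3 / 4) :=
    A_1h h1 h2
  have vh1 := hatA_h1 h1 h2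
  -- the ray from `(1, 1)` through `(f, g)` meets `f + g = 3 / 2`
  rcases eq_or_lt_of_le (show f + g ≤ 2 by linarith) with h3 | h3
  · have e1 : f = 1 := by linarith
    have e2 : g = 1 := by linarith
    rw [e1, e2]
    norm_num
    exact v11
  · set μ := 2 * (2 - f - g) with hμ
    have hμ0 : 0 < μ := by linarith
    have hμ1 : μ ≤ 1 := by linarith
    have k : VV (1 + d) (1 - d) (C1A d) (S1A d) (C2A d) (S2A d) (1 - (1 - f) / μ) (1 - (1 - g) / μ)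
        (Real.sqrt 5 - 3 / 4) := by
      refine VV_conv hC (θ := 2 * ((1 - f) / μ)) ha hb hs ?_ ?_ v1h vh1 ?_ ?_ ?_
      · have : 0 ≤ (1 - f) / μ := div_nonneg (by linarith) hμ0.le
        linarith
      · rw [← mul_div_assoc, div_le_one hμ0]
        linarith
      · ring
      · have : (1 - f) / μ + (1 - g) / μ = 1 / 2 := by
          rw [← add_div, div_eq_iff hμ0.ne']
          linarith
        linear_combination (-1 : ℝ) * this
      · ring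
    refine VV_conv hC (θ := μ) ha hb hs hμ0.le hμ1 v11 k ?_ ?_ ?_
    · field_simp
      ring
    · field_simp
      ring
    · rw [hμ]
      ring

lemma hatA_face (hC : Stmt_CONV) (h1 : -(1 / 3) ≤ d) (h2 : d ≤ 1 / 3) (h3 : 1 ≤ τ) (h4 : τ ≤ Real.sqrt 5 - 1) :
    VV (1 + d) (1 - d) (C1A d) (S1A d) (C2A d) (S2A d) 1 1 τ := by
  have ha : 0 < 1 + d := by linarith
  have hb : 0 ≤ 1 - d := by linarith
  obtain ⟨θ, t0, t1, ht⟩ := seg_exists h3 h4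
  exact VV_conv hC ha hb (sgA_pos d) t0 t1 (A_11c h1 h2) (A_11 h1 h2) (by ring) (by ring) (ht.trans (by ring))

end

/-- The parameters of the near region. -/
lemma near_par {a b : ℝ} (ha : 0 < a) (hba : b ≤ a) (h : a ≤ 2 * b) :
    ∃ l d : ℝ, 0 < l ∧ -(1 / 3) ≤ d ∧ d ≤ 1 / 3 ∧ a = l * (1 + d) ∧ b = l * (1 - d) := by
  have hs : 0 < a + b := by linarith
  refine ⟨(a + b) / 2, (a - b) / (a + b), by positivity, ?_, ?_, ?_, ?_⟩
  · have : 0 ≤ (a - b) / (a + b) := div_nonneg (by linarith) hs.le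
    linarith
  · rw [div_le_iff₀ hs]
    linarith
  · field_simp
    ring
  · field_simp
    ring

theorem t_FA (hK : Stmt_KEY) (hC : Stmt_CONV) : FA := by
  intro a b t ha hb hba h1 h2
  rcases eq_or_lt_of_le hb with h0 | h0
  · -- `b = 0`
    have hb0 : b = 0 := h0.symm
    have ht : t = 1 * (a * b) := by
      rw [hb0] at h1 h2 ⊢
      linarith
    refine VV_ineq hK (f := 1) (g := 1) (a := 1) (b := 0) (C1 := -(39 / 100)) (S1 := 1151 / 1250)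
      (C2 := 7547 / 10000) (S2 := 82 / 125) ha one_pos le_rfl (by norm_num) (by norm_num) (by norm_num)
      (VV_of_Vt (D1_11c_a le_rfl (by norm_num))) (by ring) (by rw [hb0]; ring) (by ring) (by ring) ht
  · have hab : 0 < a * b := by positivity
    have hτ : t = t / (a * b) * (a * b) := by field_simp
    have hτ1 : 1 ≤ t / (a * b) := by rwa [le_div_iff₀ hab, one_mul]
    have hτ2 : t / (a * b) ≤ Real.sqrt 5 - 1 := by rwa [div_le_iff₀ hab]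
    rcases le_total a (2 * b) with h3 | h3
    · obtain ⟨l, d, hl, d1, d2, ea, eb⟩ := near_par ha hba h3
      exact VV_ineq hK hl (by linarith) (by linarith) (unitA1 d) (unitA2 d) (sgA_pos d)
        (hatA_face hC d1 d2 hτ1 hτ2) ea eb (by ring) (by ring) hτ
    · have hx0 : 0 < b / a := by positivity
      have hx1 : b / a ≤ 1 / 2 := by
        rw [div_le_iff₀ ha]
        linarith
      obtain ⟨C1, S1, C2, S2, hD⟩ := DF_exists hC hx0 hx1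
      exact VV_ineq hK ha one_pos hx0.le hD.u1 hD.u2 hD.sp (hD.faceA hC hx0.le hτ1 hτ2) (by ring)
        (by field_simp) (by ring) (by ring) hτ

theorem t_FB (hK : Stmt_KEY) (hC : Stmt_CONV) : FB := by
  intro a b A1 A2 t hb hba hA1 hA1' hA2 hA2' h
  have ha : 0 < a := by linarith
  have hab : 0 < a * b := by positivity
  have ha2 : 0 < a ^ 2 := by positivity
  have hb2 : 0 < b ^ 2 := by positivity
  set f := A1 / a ^ 2 with hf
  set g := A2 / b ^ 2 with hg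
  have ef : A1 = f * a ^ 2 := by rw [hf]; field_simp
  have eg : A2 = g * b ^ 2 := by rw [hg]; field_simp
  have f0 : 0 ≤ f := by positivity
  have g0' : 0 ≤ g := by positivity
  have f1 : f ≤ 1 := by rwa [hf, div_le_one ha2]
  have g1 : g ≤ 1 := by rwa [hg, div_le_one hb2]
  have et : t = (Real.sqrt 5 - (f + g) / 2) * (a * b) := by
    rw [ef, eg] at h
    have : (a * b) * t = (a * b) * ((Real.sqrt 5 - (f + g) / 2) * (a * b)) := by linear_combination h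
    exact mul_left_cancel₀ hab.ne' this
  rcases le_total a (2 * b) with h3 | h3
  · rcases le_total (3 / 2) (f + g) with h4 | h4
    · obtain ⟨l, d, hl, d1, d2, ea, eb⟩ := near_par ha hba h3
      exact VV_ineq hK hl (by linarith) (by linarith) (unitA1 d) (unitA2 d) (sgA_pos d)
        (hatA_low hC d1 d2 f1 g1 h4) ea eb ef eg et
    · have hx0 : 1 / 2 ≤ b / a := by
        rw [le_div_iff₀ ha]
        linarith
      have hx1 : b / a ≤ 1 := by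
        rw [div_le_iff₀ ha]
        linarith
      have hx : 0 ≤ b / a := by positivity
      obtain ⟨C1, S1, C2, S2, hB⟩ := BF_exists hC hx0 hx1
      exact VV_ineq hK ha one_pos hx hB.u1 hB.u2 hB.sp (hB.low hC hx f0 f1 g0' g1 h4) (by ring)
        (by field_simp) ef eg et
  · have hx0 : 0 < b / a := by positivity
    have hx1 : b / a ≤ 1 / 2 := by
      rw [div_le_iff₀ ha]
      linarith
    obtain ⟨C1, S1, C2, S2, hD⟩ := DF_exists hC hx0 hx1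
    exact VV_ineq hK ha one_pos hx0.le hD.u1 hD.u2 hD.sp (hD.low hC hx0.le f0 f1 g0' g1) (by ring)
      (by field_simp) ef eg et

theorem t_MX (hK : Stmt_KEY) (hC : Stmt_CONV) : MX := by
  intro a b A1 A2 t hb hba hA1 hA1' hA2 hA2' h h'
  have ha : 0 < a := by linarith
  have hab : 0 < a * b := by positivity
  have ha2 : 0 < a ^ 2 := by positivity
  have hb2 : 0 < b ^ 2 := by positivity
  set f := A1 / a ^ 2 with hf
  set g := A2 / b ^ 2 with hg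
  have ef : A1 = f * a ^ 2 := by rw [hf]; field_simp
  have eg : A2 = g * b ^ 2 := by rw [hg]; field_simp
  have f0 : 0 ≤ f := by positivity
  have g0' : 0 ≤ g := by positivity
  have f1 : f ≤ 1 := by rwa [hf, div_le_one ha2]
  have g1 : g ≤ 1 := by rwa [hg, div_le_one hb2]
  set τ := t / (a * b) with hτ
  have et : t = τ * (a * b) := by rw [hτ]; field_simp
  have t1 : Real.sqrt 5 - (f + g) / 2 ≤ τ := by
    rw [ef, eg, et] at h
    have : (Real.sqrt 5 - (f + g) / 2) * (a * b) ^ 2 ≤ τ * (a * b) ^ 2 := by linarith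
    exact le_of_mul_le_mul_right this (by positivity)
  have t2 : τ ≤ Real.sqrt 5 - (f - g) / 2 := by
    rw [ef, eg, et] at h'
    have : τ * (a * b) ^ 2 ≤ (Real.sqrt 5 - (f - g) / 2) * (a * b) ^ 2 := by linarith
    exact le_of_mul_le_mul_right this (by positivity)
  have hx0 : 0 < b / a := by positivity
  have hx1 : b / a ≤ 1 / 2 := by
    rw [div_le_iff₀ ha]
    linarith
  obtain ⟨C1, S1, C2, S2, hD⟩ := DF_exists hC hx0 hx1
  exact VVm_ineq hK ha one_pos hx0.le hD.u1 hD.u2 hD.sp (hD.mid hC hx0.le f0 f1 g0' g1 t1 t2) (by ring)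
    (by field_simp) ef eg et

end Pool.Agent.ICL
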