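import Pool.Agent.ICL.Asm
import Pool.Agent.ICL.KEY

/-!
# Icosahedra whose two opposite vertex links lie in parallel planes: any pair of opposite vertices
-/

set_option autoImplicit false

open scoped RealInnerProductSpace

namespace Pool.Agent.ICL

open Pool.Agent.Results.MP_fa01f0_gt.CentrallySymmetric

/-- A rotation of the icosahedron which maps the vertex `0` to the vertex `v`. -/
def rho : Fin 12 → Fin 12 → Fin 12 :=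
  ![![0, 1, 2, 3, 4, 5, 6, 7, 8, 9, 10, 11],
    ![1, 9, 0, 11, 4, 2, 7, 3, 6, 5, 10, 8],
    ![2, 7, 0, 4, 3, 11, 8, 1, 6, 10, 9, 5],
    ![3, 10, 0, 2, 11, 1, 9, 4, 6, 8, 5, 7],
    ![4, 5, 0, 1, 2, 3, 10, 11, 6, 7, 8, 9],
    ![5, 6, 2, 4, 7, 3, 11, 0, 8, 10, 1, 9],
    ![6, 10, 5, 9, 7, 2, 0, 4, 11, 3, 1, 8],
    ![7, 10, 2, 5, 3, 0, 1, 4, 8, 11, 9, 6],
    ![8, 6, 1, 11, 9, 4, 2, 0, 7, 5, 3, 10],
    ![9, 5, 1, 8, 4, 0, 3, 11, 7, 2, 10, 6],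
    ![10, 8, 3, 7, 11, 0, 4, 2, 9, 1, 5, 6],
    ![11, 8, 0, 3, 1, 4, 5, 2, 6, 9, 7, 10]]

/-- Its action on the triangles. -/
def sig : Fin 12 → Fin 20 → Fin 20 :=
  ![![0, 1, 2, 3, 4, 5, 6, 7, 8, 9, 10, 11, 12, 13, 14, 15, 16, 17, 18, 19],
    ![4, 12, 16, 19, 13, 17, 5, 11, 0, 8, 14, 2, 6, 9, 3, 7, 15, 1, 10, 18],
    ![6, 18, 15, 13, 7, 12, 0, 4, 11, 19, 16, 8, 5, 3, 17, 2, 10, 14, 1, 9],
    ![11, 17, 14, 8, 19, 3, 6, 0, 5, 2, 1, 7, 4, 18, 9, 13, 16, 10, 15, 12],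
    ![0, 3, 1, 2, 8, 9, 4, 5, 6, 7, 10, 13, 11, 12, 18, 19, 14, 15, 16, 17],
    ![12, 19, 16, 4, 15, 1, 8, 0, 7, 3, 2, 9, 6, 14, 5, 11, 18, 10, 17, 13],
    ![15, 6, 18, 13, 14, 10, 1, 9, 12, 7, 5, 16, 8, 3, 4, 0, 11, 19, 2, 17],
    ![7, 5, 10, 9, 3, 14, 12, 8, 6, 11, 17, 15, 0, 19, 13, 4, 2, 18, 16, 1],
    ![17, 8, 14, 11, 16, 10, 2, 5, 13, 9, 7, 18, 4, 1, 6, 0, 12, 15, 3, 19],
    ![13, 6, 15, 18, 9, 1, 17, 2, 4, 0, 3, 16, 5, 8, 19, 11, 7, 12, 14, 10],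
    ![19, 4, 16, 12, 18, 10, 3, 7, 11, 5, 9, 14, 6, 2, 8, 0, 13, 17, 1, 15],
    ![5, 9, 10, 7, 2, 18, 11, 6, 4, 13, 15, 19, 0, 17, 12, 8, 1, 16, 14, 3]]

/-- The cyclic shift of the vertices of a triangle. -/
def sft : Fin 12 → Fin 20 → Fin 3 :=
  ![![0, 0, 0, 0, 0, 0, 0, 0, 0, 0, 0, 0, 0, 0, 0, 0, 0, 0, 0, 0],
    ![0, 0, 0, 2, 1, 2, 1, 0, 2, 2, 0, 0, 0, 1, 2, 1, 2, 0, 1, 1],
    ![2, 2, 1, 0, 1, 1, 1, 2, 2, 2, 1, 1, 2, 0, 2, 2, 2, 1, 1, 1],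
    ![1, 1, 2, 2, 0, 2, 2, 0, 2, 1, 2, 2, 1, 1, 0, 1, 1, 0, 1, 2],
    ![1, 1, 1, 1, 0, 0, 0, 0, 0, 0, 2, 2, 2, 2, 0, 0, 0, 0, 0, 0],
    ![2, 1, 2, 2, 0, 1, 2, 2, 2, 0, 1, 2, 1, 1, 0, 2, 1, 1, 1, 0],
    ![0, 1, 1, 2, 2, 0, 2, 2, 1, 1, 0, 2, 2, 1, 1, 0, 1, 1, 2, 2],
    ![1, 2, 2, 0, 1, 0, 2, 1, 1, 1, 2, 1, 1, 0, 2, 0, 1, 2, 2, 2],
    ![0, 1, 1, 0, 2, 1, 1, 2, 2, 1, 0, 2, 2, 0, 1, 2, 2, 1, 1, 2],
    ![1, 0, 2, 0, 2, 2, 0, 0, 2, 1, 2, 0, 1, 0, 1, 1, 0, 0, 1, 2],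
    ![0, 1, 1, 1, 2, 2, 0, 2, 0, 1, 0, 2, 2, 2, 1, 1, 0, 1, 0, 2],
    ![1, 2, 1, 0, 2, 0, 1, 1, 1, 0, 2, 1, 2, 0, 1, 0, 2, 2, 2, 0]]

/-- The vertices `i`, `j` are joined by an edge. -/
def Adj (i j : Fin 12) : Prop := i ≠ j ∧ ∃ f k l, tri f k = i ∧ tri f l = j

instance : DecidableRel Adj := fun i j => by unfold Adj; infer_instance

lemma rho_tri : ∀ v f k, tri (sig v f) k = rho v (tri f (k + sft v f)) := by decide

lemma sig_inj : ∀ v, Function.Injective (sig v) := by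
  unfold Function.Injective
  decide

lemma rho_iu : ∀ v k, Adj v (rho v (iu k)) := by decide

lemma rho_il : ∀ v k, Adj (v + 6) (rho v (il k)) := by decide

lemma triArea_rot (x y z : E3) : triArea y z x = triArea x y z := by
  have key : ∀ a b : E3, ‖b - a‖ ^ 2 * ‖-a‖ ^ 2 - ⟪b - a, -a⟫ ^ 2 = ‖a‖ ^ 2 * ‖b‖ ^ 2 - ⟪a, b⟫ ^ 2 := by
    intro a b
    rw [norm_neg, norm_sub_sq_real, inner_neg_right, inner_sub_left, real_inner_self_eq_norm_sq,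
      real_inner_comm a b]
    ring
  unfold triArea
  have e1 : z - y = (z - x) - (y - x) := by abel
  have e2 : x - y = -(y - x) := by abel
  rw [e1, e2, key]

/-- The cone over a triangle. -/
noncomputable def dt (x y z : E3) : ℝ := (Matrix.of fun i j => (![x, y, z] : Fin 3 → E3) i j).det / 6

lemma dt_rot (x y z : E3) : dt y z x = dt x y z := by
  simp only [dt, Matrix.det_fin_three, Matrix.of_apply]
  simp
  ring

lemma vol_dt (w : Fin 12 → E3) : vol w = ∑ f, dt (w (tri f 0)) (w (tri f 1)) (w (tri f 2)) := by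
  unfold vol dt
  refine Finset.sum_congr rfl fun f _ => ?_
  congr 2
  ext i j
  fin_cases i <;> rfl

lemma sum_rho (v : Fin 12) (w : Fin 12 → E3) (F : E3 → E3 → E3 → ℝ) (hF : ∀ x y z, F y z x = F x y z) :
    ∑ f, F (w (rho v (tri f 0))) (w (rho v (tri f 1))) (w (rho v (tri f 2)))
      = ∑ f, F (w (tri f 0)) (w (tri f 1)) (w (tri f 2)) := by
  rw [← Equiv.sum_comp (Equiv.ofBijective (sig v) ⟨sig_inj v, Finite.surjective_of_injective (sig_inj v)⟩)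
    (fun f => F (w (tri f 0)) (w (tri f 1)) (w (tri f 2)))]
  refine Finset.sum_congr rfl fun f _ => ?_
  change _ = F (w (tri (sig v f) 0)) (w (tri (sig v f) 1)) (w (tri (sig v f) 2))
  rw [rho_tri, rho_tri, rho_tri]
  have hs : ∀ s : Fin 3, s = 0 ∨ s = 1 ∨ s = 2 := by decide
  have a01 : (0 : Fin 3) + 1 = 1 := rfl
  have a02 : (0 : Fin 3) + 2 = 2 := rfl
  have a11 : (1 : Fin 3) + 1 = 2 := rfl
  have a12 : (1 : Fin 3) + 2 = 0 := rfl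
  have a21 : (2 : Fin 3) + 1 = 0 := rfl
  have a22 : (2 : Fin 3) + 2 = 1 := rfl
  rcases hs (sft v f) with h | h | h
  · rw [h, add_zero, add_zero, add_zero]
  · rw [h, a01, a11, a21]
    exact (hF _ _ _).symm
  · rw [h, a02, a12, a22]
    exact hF _ _ _

lemma area_rho (v : Fin 12) (w : Fin 12 → E3) : area (w ∘ rho v) = area w :=
  sum_rho v w triArea triArea_rot

lemma vol_rho (v : Fin 12) (w : Fin 12 → E3) : vol (w ∘ rho v) = vol w := by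
  rw [vol_dt, vol_dt]
  exact sum_rho v w dt dt_rot

/-- Steiner's inequality if the neighbours of two opposite vertices lie in two parallel planes. -/
theorem parallel_links (v : Fin 12) (w : Fin 12 → E3) (n : E3) (hn : n ≠ 0) (α β : ℝ)
    (hα : ∀ i, Adj v i → ⟪n, w i⟫ = α) (hβ : ∀ i, Adj (v + 6) i → ⟪n, w i⟫ = β) :
    area regular ^ 3 * vol w ^ 2 ≤ area w ^ 3 * vol regular ^ 2 := by
  have := ineq_planes t_KEY (w ∘ rho v) n hn α β (fun k => hα _ (rho_iu v k)) (fun k => hβ _ (rho_il v k))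
  rwa [area_rho, vol_rho] at this

end Pool.Agent.ICL
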