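import Pool.Agent.ICL.Defs

/-!
# Icosahedra whose two opposite vertex links lie in parallel planes: statements of the modules

THEOREM (target, MP_fa01f0_gt, fourth hand-in). Let `w` map the 12 vertices of the icosahedron into space
so that the five neighbours of the vertex 0 are in a plane and the five neighbours of the opposite vertex 6
are in a parallel plane (nothing else is assumed: arbitrary pentagons, arbitrary poles). Then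
`area w ^ 3 / vol w ^ 2` is at least its value for the regular icosahedron.

OVERVIEW. Planar data of the two pentagons `u = (x, y)`, `l = (x', y')`: half perimeters `P, P'`, signed
areas `F, F'`, decagon area `W`. Minkowski: `area w` is at least
`√(F² + p²P²) + √(F'² + q²P'²) + √((W-F)² + h²P²) + √((W-F')² + h²P'²)`, and
`vol w = (p F + q F' + h (F + F' + W)) / 3`. The isoperimetric inequality for (arbitrary closed) pentagons and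
for the decagon with edges `X Δu, Y Δl` restricts `(P, P', F, F', W)`. The rest is a reduced inequality
for real numbers.

Notation: `cs = cos 36°`, `sn = sin 36°`, `4 cs² = 2 cs + 1`, `cs² + sn² = 1`, `(1 + cs) / cs = √5`.
-/

set_option autoImplicit false

namespace Pool.Agent.ICL

/-! ## Planar isoperimetric inequalities -/

/-- L5. `4 tan 36° F ≤ ∑ |Δ|²` for pentagons (`Q = sn / cs = tan 36°`, `Q² = 5 - 2 √5`).
PROOF. With `T = sn/cs`, `g = ((∑ x)/5, (∑ y)/5)`: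
(1) `∑_k ((x_{k+1} - x_k) + T (y_k + y_{k+1} - 2 g_y))² + ((y_{k+1} - y_k) - T (x_k + x_{k+1} - 2 g_x))²`
is `≥ 0` and equals `Qe + T² ∑ (x_k + x_{k+1} - 2 g_x)² + T² ∑ (y_k + y_{k+1} - 2 g_y)² - 8 T Fa` (check by `ring`
after expanding the sums over `Fin 5`).
(2) Wirtinger: `∑ (x_{k+1} - x_k)² - T² ∑ (x_k + x_{k+1} - 2 g_x)²
  = (6√5-10)/5 * ∑ (x_{k+1} + x_{k-1} - x_k/φ - (2 - 1/φ) g_x)² ≥ 0`, `1/φ = (√5-1)/2`, `T² = 5 - 2√5`;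
the same for `y`. Adding: `8 T Fa ≤ 2 Qe`. -/
def Stmt_L5 : Prop := ∀ x y : Fin 5 → ℝ, 4 * (sn / cs) * Fa x y ≤ Qe x y

/-- L10. `4 tan 18° F ≤ ∑ |Δ|²` for decagons (`T = sn / (1 + cs) = tan 18°`, `T² = 1 - 2/√5 = 1 - 2√5/5`).
PROOF. As L5: (1) the same identity with `n = 10`, `g = ((∑ x)/10, (∑ y)/10)`. (2) Wirtinger:
`∑_{k<10} (x_{k+1} - x_k)² ≥ T² ∑_{k<10} (x_k + x_{k+1} - 2 g_x)²`. For this put `e_k = (x_k + x_{k+5})/2`,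
`o_k = (x_k - x_{k+5})/2` (`k < 5`), `p_k = (-1)^k o_k` (period 5), `E = (∑ e)/5 = g_x`, `R = (∑ p)/5`. Then
(left - right) is `2 [∑_{Z/5} (e_{k+1}-e_k)² - T² ∑ (e_k + e_{k+1} - 2E)²] + 2 [∑ (p_k + p_{k+1})² - T² ∑ (p_{k+1} - p_k)²]`,
the first bracket is `w1 ∑ (e_{k+1} + e_{k-1} + φ e_k - (2+φ) E)² + w2 ∑ (e_{k+1} + e_{k-1} - e_k/φ - (2-1/φ) E)²`
with `5 w1 = 4 (sin²36 - T² cos²36)`, `5 w2 = 4 (sin²72 - T² cos²72)`, the second one is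
`w3 ∑ (p_{k+1} + p_{k-1} + φ p_k - (2+φ) R)² + 20 R²` with `5 w3 = 4 (cos²36 - T² sin²36)`;
`cos²36 = (3+√5)/8`, `sin²36 = (5-√5)/8`, `cos²72 = (3-√5)/8`, `sin²72 = (5+√5)/8`; all `w > 0`. -/
def Stmt_L10 : Prop := ∀ x y : Fin 10 → ℝ, 4 * (sn / (1 + cs)) * Fa x y ≤ Qe x y

/-- `(x, y)` maximises the area among the closed polygons of perimeter at most 1 and, among these maximisers,
minimises the sum of the squares of the edges. -/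
def Extr {n : ℕ} [NeZero n] (x y : Fin n → ℝ) : Prop :=
  Pe x y ≤ 1 ∧ (∀ x' y' : Fin n → ℝ, Pe x' y' ≤ 1 → Fa x' y' ≤ Fa x y) ∧
    ∀ x' y' : Fin n → ℝ, Pe x' y' ≤ 1 → Fa x' y' = Fa x y → Qe x y ≤ Qe x' y'

/-- EXT. PROOF. `Fa, Pe, Qe` are continuous and invariant under translations (`x + const, y + const`). The set
`K = {x 0 = 0, y 0 = 0, Pe x y ≤ 1}` is closed and bounded (`|x k| ≤ Pe x y`, `|y k| ≤ Pe x y`: telescoping sum from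
0 to k), so compact, and nonempty. Let `S` be the set of maximisers of `Fa` on `K`: nonempty and compact; take a
minimiser of `Qe` on `S`. Every polygon with `Pe ≤ 1` can be translated into `K`. -/
def Stmt_EXT : Prop := ∀ (n : ℕ) [NeZero n], ∃ x y : Fin n → ℝ, Extr x y

/-- GEO. The isosceles point. PROOF. `d² = (b1-a1)² + (b2-a2)²`. If `d = 0` then `l1 = l2`, so `d > 0`. `s = l1 + l2 ≥ d`
(triangle inequality), `η = √(s² - d²)/2`, `u = (a1+b1)/2 + η (b2-a2)/d`, `v = (a2+b2)/2 - η (b1-a1)/d`. Then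
`|(u,v) - A|² = |(u,v) - B|² = d²/4 + η² = s²/4`, so the sum of the lengths is `s` and the sum of the squares
`s²/2 < l1² + l2²`. `u (b2-a2) - v (b1-a1) = ((a1+b1)(b2-a2) - (a2+b2)(b1-a1))/2 + η d`, and with
`H = (z1 - (a1+b1)/2)(b2-a2) - (z2 - (a2+b2)/2)(b1-a1)` one needs `H ≤ η d`, which follows from
`4 H²/d² + d² ≤ s²` (Minkowski; or: with `D = ⟨Z - (A+B)/2, B - A⟩` one has `l1² - l2² = 2 D`,
`l1² + l2² = 2 (D² + H²)/d² + d²/2`, and `4 H²/d² + d² ≤ (l1 + l2)²` amounts to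
`4 H² / d² + d² - l1² - l2² ≤ 2 l1 l2`, square it if the left side is positive). -/
def Stmt_GEO : Prop := ∀ a1 a2 b1 b2 z1 z2 l1 l2 : ℝ,
  l1 = Real.sqrt ((z1 - a1) ^ 2 + (z2 - a2) ^ 2) → l2 = Real.sqrt ((b1 - z1) ^ 2 + (b2 - z2) ^ 2) → l1 ≠ l2 →
  ∃ u v : ℝ, Real.sqrt ((u - a1) ^ 2 + (v - a2) ^ 2) + Real.sqrt ((b1 - u) ^ 2 + (b2 - v) ^ 2) = l1 + l2 ∧
    ((u - a1) ^ 2 + (v - a2) ^ 2) + ((b1 - u) ^ 2 + (b2 - v) ^ 2) < l1 ^ 2 + l2 ^ 2 ∧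
    z1 * (b2 - a2) - z2 * (b1 - a1) ≤ u * (b2 - a2) - v * (b1 - a1)

/-- EQE. All edges of an extremal polygon are equal. PROOF. Otherwise for some `k` the lengths of the edges
`z (k-1), z k` and `z k, z (k+1)` differ (`k - 1, k, k + 1` are distinct, `3 ≤ n`). GEO with `A = z (k-1)`,
`B = z (k+1)`, `Z = z k` gives `(u, v)`; put `x' = Function.update x k u`, `y' = Function.update y k v`. Only the
terms of the indices `k - 1` and `k` change: `Pe x' y' = Pe x y`, `Qe x' y' < Qe x y`,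
`Fa x' y' - Fa x y = ((u - x k) (y (k+1) - y (k-1)) - (v - y k) (x (k+1) - x (k-1))) / 2 ≥ 0`. -/
def Stmt_EQE : Prop := Stmt_GEO → ∀ (n : ℕ) [NeZero n], 3 ≤ n → ∀ x y : Fin n → ℝ, Extr x y →
  ∀ k : Fin n, Real.sqrt ((x (k + 1) - x k) ^ 2 + (y (k + 1) - y k) ^ 2)
    = Real.sqrt ((x (k + 1 + 1) - x (k + 1)) ^ 2 + (y (k + 1 + 1) - y (k + 1)) ^ 2)

/-- From the L² inequality to the L¹ inequality (for arbitrary closed polygons). -/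
def PMAX : Prop := ∀ (n : ℕ) [NeZero n], 3 ≤ n → ∀ t : ℝ, 0 < t →
  (∀ x y : Fin n → ℝ, 4 * t * Fa x y ≤ Qe x y) →
  ∀ x y : Fin n → ℝ, 4 * n * t * Fa x y ≤ Pe x y ^ 2

/-- MAX. PROOF. Let `(x, y)` be extremal (EXT), all edges have the same length `l` (EQE, induction along
`k, k + 1, ..`), so `Qe = n l²`, `Pe = n l ≤ 1`, `4 n t Fa ≤ n Qe = (n l)² ≤ 1`. So `4 n t Fa x' y' ≤ 1` if
`Pe x' y' ≤ 1`. In general, if `Pe x' y' = 0` all vertices are equal and `Fa = 0`; otherwise scale by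
`1 / Pe x' y'` (`Fa` is homogeneous of degree 2, `Pe` of degree 1). -/
def Stmt_MAX : Prop := Stmt_EXT → (∀ (n : ℕ) [NeZero n], 3 ≤ n → ∀ x y : Fin n → ℝ, Extr x y →
  ∀ k : Fin n, Real.sqrt ((x (k + 1) - x k) ^ 2 + (y (k + 1) - y k) ^ 2)
    = Real.sqrt ((x (k + 1 + 1) - x (k + 1)) ^ 2 + (y (k + 1 + 1) - y (k + 1)) ^ 2)) → PMAX

/-- CON. Constraints for the planar data. PROOF. (i) `|A1| ≤ a²`: the hypothesis for `(x, y)` and for `(x, -y)`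
(`Fa → -Fa`, `Pe` unchanged); `A1 = Fa/(5 sn cs)`, `a² = Pe²/(100 sn²)`. (ii) For `X, Y ≥ 0` let `z : Fin 10 → ℝ²`,
`z_{2k} = X u_k + Y l_{k-1}`, `z_{2k+1} = X u_k + Y l_k` (write it as `![X * x 0 + Y * x' 4, X * x 0 + Y * x' 0,
X * x 1 + Y * x' 0, ...]`): its edges are `Y Δl_{k-1}, X Δu_k`, so `Pe z = X Pe u + Y Pe l`, and
`Fa z = X² Fa u + Y² Fa l + 2 X Y Wa`. Hence `40 (sn/(1+cs)) (X² F + Y² F' + 2 X Y W) ≤ (X P + Y P')²` (`P, P'`: full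
perimeters). With `X = b, Y = a`: `b² A1 + a² A2 + 2 a b t ≤ 2 √5 (a b)²` (`(1+cs)/cs = √5`). Apply this also to
`(x, y), (-x', -y')` (`Wa → -Wa`), to the mirror images `(x, -y), (x', -y')` (`Fa → -Fa`, `Wa → -Wa`), and to
`(x, -y), (-x', y')`; together they give the third claim. (iii) If `a, b > 0` divide the third claim by `2 a b`;
if `a = 0` then `Pe x y = 0`, `x, y` are constant and `Wa = 0`, the same if `b = 0`. -/
def Stmt_CON : Prop := (∀ x y : Fin 5 → ℝ, 20 * (sn / cs) * Fa x y ≤ Pe x y ^ 2) →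
  (∀ x y : Fin 10 → ℝ, 40 * (sn / (1 + cs)) * Fa x y ≤ Pe x y ^ 2) →
  ∀ (x y x' y' : Fin 5 → ℝ) (a b A1 A2 t : ℝ), a = Pe x y / (10 * sn) → b = Pe x' y' / (10 * sn) →
    A1 = Fa x y / (5 * sn * cs) → A2 = Fa x' y' / (5 * sn * cs) → t = Wa x y x' y' / (5 * sn * cs) →
    |A1| ≤ a ^ 2 ∧ |A2| ≤ b ^ 2 ∧
      2 * |t| * (a * b) + |A1 * b ^ 2 + A2 * a ^ 2| ≤ 2 * Real.sqrt 5 * (a * b) ^ 2 ∧
      |t| ≤ Real.sqrt 5 * (a * b)

/-! ## The reduced inequality: tests -/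

/-- KEY. PROOF. `s = a S1 + b S2 > 0`, `y = s / M > 0`. For `p ≥ 0`:
`√(A1² + (p a)²) ≥ A1 √(1 - (y A1/a)²) + (p a) (y A1/a)` (Cauchy, `0 ≤ y A1/a ≤ 1`), the same for `A2` (if `b = 0`
then `A2 = 0`, as `s A2 ≤ 0`); `√(r1² + (h a)²) ≥ r1 C1 + h a S1`, `√(r2² + (h b)²) ≥ r2 C2 + h b S2`. Sum:
`Ag ≥ E + y V`, `V = p A1 + q A2 + h M ≥ 0`, `E` the bracket of `Good`, `g0 ≤ y² E` (`g0 > 0`, so `E > 0`). Then
`4 Ag³ ≥ 4 (E + y V)³ ≥ 27 E (y V)² ≥ 27 g0 V²` (`4 (u+v)³ - 27 u v² = (4u + v)... `: `4(u+v)³ - 27 u v² =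
(v - 2u)² (4 v + u) ≥ 0` for `u, v ≥ 0`). -/
def Stmt_KEY : Prop := ∀ a b C1 S1 C2 S2 A1 A2 M r1 r2 : ℝ, 0 < a → 0 ≤ b →
  C1 ^ 2 + S1 ^ 2 ≤ 1 → C2 ^ 2 + S2 ^ 2 ≤ 1 → 0 < a * S1 + b * S2 →
  Good a b C1 S1 C2 S2 A1 A2 M r1 r2 → Ineq a b A1 A2 M r1 r2

/-- CONV. `Good` is a convex condition. PROOF. Let `k ≥ 0`, `e (A, M) = A √(1 - (k A/M)²)` on `0 ≤ k A ≤ M`,
`0 < M`. CLAIM `e ((1-t)P + tP') ≥ (1-t) e P + t e P'`. Let `A, M` be the convex combinations, `y = k A/M`,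
`y_i = k A_i/M_i`. If `y < 1`: `√(1-y_i²) ≤ ((1-y_i²) + (1-y²)) / (2 √(1-y²))`, so it is enough that
`∑ t_i A_i (2 - y_i² - y²) ≤ 2 A (1 - y²)`, i.e. `∑ t_i A_i³/M_i² ≥ A³/M²`; with `u = A/M`:
`A_i³/M_i² - 3 u² A_i + 2 u³ M_i = (A_i - u M_i)² (A_i + 2 u M_i)/M_i² ≥ 0`, sum up. If `y = 1` then `k A = M`, so
`k A_i = M_i` whenever `t_i ≠ 0` and all terms vanish. Use it with `k = s/a` and `k = s/b` (`s = a S1 + b S2`; if
`b = 0` the condition `s A2 ≤ 0` gives `A2 = 0`; note `s * A / (a * M)`), the linear terms are equal, and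
`M² ≤ (1-t) M² + t M'²`, `g0 > 0`. -/
def Stmt_CONV : Prop := ∀ a b C1 S1 C2 S2 A1 A2 M r1 r2 A1' A2' M' r1' r2' t : ℝ, 0 < a → 0 ≤ b →
  0 < a * S1 + b * S2 → 0 ≤ t → t ≤ 1 →
  Good a b C1 S1 C2 S2 A1 A2 M r1 r2 → Good a b C1 S1 C2 S2 A1' A2' M' r1' r2' →
  Good a b C1 S1 C2 S2 ((1 - t) * A1 + t * A1') ((1 - t) * A2 + t * A2') ((1 - t) * M + t * M')
    ((1 - t) * r1 + t * r1') ((1 - t) * r2 + t * r2')

/-! ## The reduced inequality: reductions -/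

/-- W2. Decrease `a, b` until a constraint is tight. PROOF. `a0 = √A1 ≤ a`, `b0 = √A2 ≤ b`,
`G (a, b) = √5 (a b)² - t a b - (A1 b² + A2 a²)/2`, `G (a, b) ≥ 0`, `G (a0, b0) = a0 b0 ((√5-1) a0 b0 - t)`. Suppose
`(√5-1) a0 b0 < t`; along the segment `a(r) = a + r (a0 - a)`, `b(r) = b + r (b0 - b)`, `r ∈ [0, 1)`, one has
`a(r), b(r) > 0`, `a(r) ≥ a0`, `b(r) ≥ b0`. If `a0 b0 > 0` then `G < 0` at `r = 1`, hence also at some `r < 1`. If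
`a0 b0 = 0` then `t > 0` and `√5 a(r) b(r) < t` for `r < 1` near 1 (continuity), so
`G ≤ a(r) b(r) (√5 a(r) b(r) - t) < 0` there. Intermediate value theorem: `G = 0` for some `r < 1`. -/
def Stmt_W2 : Prop := ∀ a b A1 A2 t : ℝ, 0 < a → 0 < b → 0 ≤ A1 → A1 ≤ a ^ 2 → 0 ≤ A2 → A2 ≤ b ^ 2 → 0 ≤ t →
  t * (a * b) + (A1 * b ^ 2 + A2 * a ^ 2) / 2 ≤ Real.sqrt 5 * (a * b) ^ 2 →
  t ≤ (Real.sqrt 5 - 1) * (Real.sqrt A1 * Real.sqrt A2) ∨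
  ∃ a' b' : ℝ, 0 < a' ∧ a' ≤ a ∧ 0 < b' ∧ b' ≤ b ∧ A1 ≤ a' ^ 2 ∧ A2 ≤ b' ^ 2 ∧
    t * (a' * b') + (A1 * b' ^ 2 + A2 * a' ^ 2) / 2 = Real.sqrt 5 * (a' * b') ^ 2

/-- Face A (both pentagons regular), upper part. -/
def FA : Prop := ∀ a b t : ℝ, 0 < a → 0 ≤ b → b ≤ a → a * b ≤ t → t ≤ (Real.sqrt 5 - 1) * (a * b) →
  Ineq a b (a ^ 2) (b ^ 2) (a ^ 2 + b ^ 2 + t) (t - a ^ 2) (t - b ^ 2)

/-- Face B (the decagon constraint is tight). -/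
def FB : Prop := ∀ a b A1 A2 t : ℝ, 0 < b → b ≤ a → 0 ≤ A1 → A1 ≤ a ^ 2 → 0 ≤ A2 → A2 ≤ b ^ 2 →
  t * (a * b) + (A1 * b ^ 2 + A2 * a ^ 2) / 2 = Real.sqrt 5 * (a * b) ^ 2 →
  Ineq a b A1 A2 (A1 + A2 + t) (t - A1) (t - A2)

/-- The mixed case: the smaller pentagon has negative area `-A2`. -/
def MX : Prop := ∀ a b A1 A2 t : ℝ, 0 < b → 2 * b ≤ a → 0 ≤ A1 → A1 ≤ a ^ 2 → 0 ≤ A2 → A2 ≤ b ^ 2 →
  Real.sqrt 5 * (a * b) ^ 2 ≤ t * (a * b) + (A1 * b ^ 2 + A2 * a ^ 2) / 2 →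
  t * (a * b) + (A1 * b ^ 2 - A2 * a ^ 2) / 2 ≤ Real.sqrt 5 * (a * b) ^ 2 →
  Ineq a b A1 A2 (A1 + A2 + t) (t - A1) (t + A2)

/-- The nonnegative case. -/
def NNC : Prop := ∀ a b A1 A2 t : ℝ, 0 ≤ a → 0 ≤ b → 0 ≤ A1 → A1 ≤ a ^ 2 → 0 ≤ A2 → A2 ≤ b ^ 2 → 0 ≤ t →
  t * (a * b) + (A1 * b ^ 2 + A2 * a ^ 2) / 2 ≤ Real.sqrt 5 * (a * b) ^ 2 → t ≤ Real.sqrt 5 * (a * b) →
  Ineq a b A1 A2 (A1 + A2 + t) (t - A1) (t - A2)

/-- NN. PROOF. (0) `Ag` is symmetric under `(a, A1, r1, p) ↔ (b, A2, r2, q)` and monotone in `a ≥ 0` and `b ≥ 0`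
(so `Ineq a' b' ..` implies `Ineq a b ..` for `0 ≤ a' ≤ a`, `0 ≤ b' ≤ b`), `g0 > 0` is not needed. (1) Suppose
`t ≤ (√5-1) √A1 √A2`. By monotonicity it is enough to treat `a = √A1`, `b = √A2` (`A1 = a²`, `A2 = b²`), by symmetry
`b ≤ a`. If `a = 0` then `b = 0`, `t = 0`, and `V = 0`. If `a b ≤ t`: FA. If `t < a b`: Minkowski gives
`√((t-a²)² + (h a)²) + √((t-b²)² + (h b)²) ≥ √((a²-b²)² + (h a + h b)²) = (a + b) √((a-b)² + h²)`, which is the sum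
of the two terms for `t = a b`, and `V` increases if `t` is replaced by `a b`: FA with `t = a b` (`1 ≤ √5 - 1`).
(2) If `a = 0` or `b = 0` then `t = 0` and (1) applies. (3) `a, b > 0`: W2 gives (1) or `a', b'` for which FB
applies (symmetry if `a' < b'`), then monotonicity. -/
def Stmt_NN : Prop := FA → FB → Stmt_W2 → NNC

/-- The reduced inequality for all signs. -/
def RI : Prop := ∀ a b A1 A2 t : ℝ, 0 ≤ a → 0 ≤ b → |A1| ≤ a ^ 2 → |A2| ≤ b ^ 2 →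
  2 * |t| * (a * b) + |A1 * b ^ 2 + A2 * a ^ 2| ≤ 2 * Real.sqrt 5 * (a * b) ^ 2 → |t| ≤ Real.sqrt 5 * (a * b) →
  ∀ p q h : ℝ, 27 * g0 * (p * A1 + q * A2 + h * (A1 + A2 + t)) ^ 2
    ≤ 4 * Ag a b A1 A2 (t - A1) (t - A2) p q h ^ 3

/-- SG. All signs. PROOF. `Ag` depends only on `|A_i|, |r_i|, |p|, |q|, |h|` and increases with `|r_i|`;
`|V| ≤ |p| |A1| + |q| |A2| + |h| |A1 + A2 + t|`; `g0 ≥ 0`. Case 1: `A1 A2 ≥ 0`. Then
`|A1 b² + A2 a²| = |A1| b² + |A2| a²`, `|t - A_i| ≥ | |t| - |A_i| |`, `|A1 + A2 + t| ≤ |A1| + |A2| + |t|`: NNC for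
`|A1|, |A2|, |t|`. Case 2: `A1 A2 < 0`, so `a, b > 0`. Replacing `(A1, A2, t)` by its negative we have `t ≥ 0`; by
the symmetry `(a, A1, p) ↔ (b, A2, q)` we have `A1 > 0 > A2 = -G`, `0 < G ≤ b²`. The ring terms are `|t - A1|`,
`t + G`. Put `t0 = √5 a b - (A1 b/a + G a/b)/2 ≥ (√5-1) a b`. (2a) `t ≤ t0`: NNC for `(A1, G, t)`, as `t + G ≥ |t - G|` and
`|A1 - G + t| ≤ A1 + G + t`. (2b) `t > t0` and `a ≤ 2 b`: the hypothesis gives `t ≤ √5 a b - (A1 b/a - G a/b)/2`, so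
`t - t0 ≤ G a/b ≤ 2 G`, hence `|A1 - G + t| ≤ A1 + G + t0`. The function
`f(T) = √((T-A1)² + (h a)²) + √((T+G)² + (h b)²)` is nondecreasing for `T ≥ a b`: the derivative has the sign of
`(T-A1)/a + (T+G)/b ≥ 0` (`A1 ≤ a²`; without derivatives: `f` is convex with minimiser `T1 = (b A1 - a G)/(a+b) ≤ a b`
by Minkowski). So `f(t) ≥ f(t0) ≥ √((t0-A1)² + ..) + √((t0-G)² + ..)`: NNC for `(A1, G, t0)`. (2c) `t > t0` and
`2 b < a`: MX for `(A1, G, t)`, as `|A1 - G + t| ≤ A1 + G + t`. -/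
def Stmt_SG : Prop := NNC → MX → 0 ≤ g0 → RI

end Pool.Agent.ICL
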