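import Pool.Agent.ICL.Vert

/-!
# Vertex checks in the region `1/2 ≤ b/a` (exact test directions): general lemma
-/

set_option autoImplicit false

namespace Pool.Agent.ICL

/-- Normalisation of the exact test directions. -/
noncomputable def Nh : ℝ := Real.sqrt 3 * sn

lemma Nh_sq : Nh ^ 2 = (15 - 3 * Real.sqrt 5) / 8 := by
  rw [Nh, mul_pow, Real.sq_sqrt (by norm_num), sn_sq]
  ring

lemma Nh_pos : 0 < Nh := mul_pos (by positivity) sn_pos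

lemma g0_Nh : g0 * Nh ^ 3 = 7 * Real.sqrt 5 - 15 := by
  have h3 : Real.sqrt 3 ^ 3 = 3 * Real.sqrt 3 := by
    rw [pow_succ, Real.sq_sqrt (by norm_num)]
  rw [g0, Nh, mul_pow, div_mul_eq_mul_div, div_eq_iff (ne_of_gt g0_den_pos), h3]

/-- The exact test directions, `a = 1 + d`, `b = 1 - d`. -/
noncomputable def C1A (d : ℝ) : ℝ :=
  ((3 - Real.sqrt 5) / 4 - 13 / 10 * d) / ((1 + 169 / 200 * d ^ 2) * Nh)

/-- See `C1A`. -/
noncomputable def S1A (d : ℝ) : ℝ :=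
  (1 + 13 / 10 * ((3 - Real.sqrt 5) / 4) * d) / ((1 + 169 / 200 * d ^ 2) * Nh)

/-- See `C1A`. -/
noncomputable def C2A (d : ℝ) : ℝ :=
  ((3 - Real.sqrt 5) / 4 + 13 / 10 * d) / ((1 + 169 / 200 * d ^ 2) * Nh)

/-- See `C1A`. -/
noncomputable def S2A (d : ℝ) : ℝ :=
  (1 - 13 / 10 * ((3 - Real.sqrt 5) / 4) * d) / ((1 + 169 / 200 * d ^ 2) * Nh)

lemma NA_pos (d : ℝ) : 0 < 1 + 169 / 200 * d ^ 2 := by positivity

lemma unitA1 (d : ℝ) : C1A d ^ 2 + S1A d ^ 2 ≤ 1 := by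
  have hN := NA_pos d
  have hD : 0 < (1 + 169 / 200 * d ^ 2) * Nh := mul_pos hN Nh_pos
  have h5 := sqrt5_sq
  rw [C1A, S1A, div_pow, div_pow, ← add_div, div_le_one (by positivity), mul_pow, Nh_sq]
  have e : ((3 - Real.sqrt 5) / 4 - 13 / 10 * d) ^ 2 + (1 + 13 / 10 * ((3 - Real.sqrt 5) / 4) * d) ^ 2
      = (1 + 169 / 100 * d ^ 2) * ((15 - 3 * Real.sqrt 5) / 8) := by
    linear_combination ((1 + 169 / 100 * d ^ 2) / 16) * h5
  rw [e]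
  refine mul_le_mul_of_nonneg_right ?_ ?_
  · nlinarith [sq_nonneg (d ^ 2)]
  · have := sqrt5_ub
    linarith

lemma C2A_eq (d : ℝ) : C2A d = C1A (-d) := by
  rw [C2A, C1A]
  ring_nf

lemma S2A_eq (d : ℝ) : S2A d = S1A (-d) := by
  rw [S2A, S1A]
  ring_nf

lemma unitA2 (d : ℝ) : C2A d ^ 2 + S2A d ^ 2 ≤ 1 := by
  rw [C2A_eq, S2A_eq]
  exact unitA1 (-d)

lemma sgA (d : ℝ) : (1 + d) * S1A d + (1 - d) * S2A d
    = (2 + 13 / 5 * ((3 - Real.sqrt 5) / 4) * d ^ 2) / ((1 + 169 / 200 * d ^ 2) * Nh) := by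
  have h1 := (NA_pos d).ne'
  have h2 := Nh_pos.ne'
  rw [S1A, S2A]
  field_simp
  ring

lemma sA_pos (d : ℝ) : 0 < 2 + 13 / 5 * ((3 - Real.sqrt 5) / 4) * d ^ 2 := by
  have h : 0 ≤ (3 - Real.sqrt 5) / 4 := by
    have := sqrt5_ub
    linarith
  have := mul_nonneg h (sq_nonneg d)
  nlinarith

lemma sgA_pos (d : ℝ) : 0 < (1 + d) * S1A d + (1 - d) * S2A d := by
  rw [sgA]
  exact div_pos (sA_pos d) (mul_pos (NA_pos d) Nh_pos)

lemma q_le {z : ℝ} (h0 : 0 ≤ z) (h1 : z ≤ 838 / 1000) :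
    (29 / 10 * Real.sqrt 5 - 57 / 10) + (23 / 10 * Real.sqrt 5 - 43 / 10) * z - 13 / 10 * z ^ 2
      ≤ Real.sqrt ((15 - 3 * Real.sqrt 5) / 8 - z ^ 2) := by
  have h5 := sqrt5_sq
  have hl := sqrt5_lb
  have hu := sqrt5_ub
  set s := Real.sqrt 5 with hs
  refine Real.le_sqrt_of_sq_le ?_
  have hB : 0 ≤ 13 / 20 * (1 + s) - 1 - (3 - s) ^ 2 - 13 / 5 * (3 - s) * (z - (s - 1) / 2)
      - 169 / 100 * (z - (s - 1) / 2) ^ 2 := by
    have e : 13 / 20 * (1 + s) - 1 - (3 - s) ^ 2 - 13 / 5 * (3 - s) * (z - (s - 1) / 2)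
      - 169 / 100 * (z - (s - 1) / 2) ^ 2
      = (13 / 20 * (1 + s) - 1 - (14 - 6 * s) + 13 / 10 * (4 * s - 8) - 169 / 200 * (3 - s))
        + (13 / 5 * (s - 3) + 169 / 100 * (s - 1)) * z - 169 / 100 * z ^ 2 := by
      linear_combination (-1 - 13 / 10 - 169 / 400) * h5
    rw [e]
    nlinarith [mul_nonneg h0 (sub_nonneg.2 h1), mul_nonneg h0 (sub_nonneg.2 hl), mul_nonneg h0 (sub_nonneg.2 hu)]
  have e2 : (15 - 3 * s) / 8 - z ^ 2
      - ((29 / 10 * s - 57 / 10) + (23 / 10 * s - 43 / 10) * z - 13 / 10 * z ^ 2) ^ 2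
      = (z - (s - 1) / 2) ^ 2 * (13 / 20 * (1 + s) - 1 - (3 - s) ^ 2 - 13 / 5 * (3 - s) * (z - (s - 1) / 2)
      - 169 / 100 * (z - (s - 1) / 2) ^ 2) := by
    linear_combination ((8703 / 1600) + (-(907 / 200)) * s + (1089 / 1600) * s ^ 2 + (1319 / 200) * z
      + (-(759 / 200)) * z * s + (429 / 200) * z ^ 2) * h5
  have := mul_nonneg (sq_nonneg (z - (s - 1) / 2)) hB
  linarith

lemma good_hat {d f g M r1 r2 : ℝ} (h1 : -(1 / 3) ≤ d) (h2 : d ≤ 1 / 3) (hf : 0 ≤ f) (hg : 0 ≤ g)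
    (hM : 0 < M)
    (hz1 : (2 + 13 / 5 * ((3 - Real.sqrt 5) / 4) * d ^ 2) * (f * (1 + d))
      ≤ 838 / 1000 * ((1 + 169 / 200 * d ^ 2) * M))
    (hz2 : (2 + 13 / 5 * ((3 - Real.sqrt 5) / 4) * d ^ 2) * (g * (1 - d))
      ≤ 838 / 1000 * ((1 + 169 / 200 * d ^ 2) * M))
    (hP : (7 * Real.sqrt 5 - 15) * ((1 + 169 / 200 * d ^ 2) * M) ^ 4
      ≤ (2 + 13 / 5 * ((3 - Real.sqrt 5) / 4) * d ^ 2) ^ 2 *
        (f * (1 + d) ^ 2 * ((29 / 10 * Real.sqrt 5 - 57 / 10) * ((1 + 169 / 200 * d ^ 2) * M) ^ 2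
            + (23 / 10 * Real.sqrt 5 - 43 / 10)
              * ((2 + 13 / 5 * ((3 - Real.sqrt 5) / 4) * d ^ 2) * (f * (1 + d))) * ((1 + 169 / 200 * d ^ 2) * M)
            - 13 / 10 * ((2 + 13 / 5 * ((3 - Real.sqrt 5) / 4) * d ^ 2) * (f * (1 + d))) ^ 2)
          + g * (1 - d) ^ 2 * ((29 / 10 * Real.sqrt 5 - 57 / 10) * ((1 + 169 / 200 * d ^ 2) * M) ^ 2
            + (23 / 10 * Real.sqrt 5 - 43 / 10)
              * ((2 + 13 / 5 * ((3 - Real.sqrt 5) / 4) * d ^ 2) * (g * (1 - d))) * ((1 + 169 / 200 * d ^ 2) * M)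
            - 13 / 10 * ((2 + 13 / 5 * ((3 - Real.sqrt 5) / 4) * d ^ 2) * (g * (1 - d))) ^ 2)
          + (1 + 169 / 200 * d ^ 2) * M ^ 2 * (r1 * ((3 - Real.sqrt 5) / 4 - 13 / 10 * d)
            + r2 * ((3 - Real.sqrt 5) / 4 + 13 / 10 * d)))) :
    Good (1 + d) (1 - d) (C1A d) (S1A d) (C2A d) (S2A d) (f * (1 + d) ^ 2) (g * (1 - d) ^ 2) M r1 r2 := by
  have hN := NA_pos d
  have hn := Nh_pos
  have hs := sA_pos d
  have ha : 0 < 1 + d := by linarith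
  have hb : 0 < 1 - d := by linarith
  have hn2 := Nh_sq
  have hg0 := g0_Nh
  have h5l := sqrt5_lb
  have h5u := sqrt5_ub
  have hn1 : 1 ≤ Nh := by
    rw [← pow_le_pow_iff_left₀ (by norm_num) hn.le (two_ne_zero), hn2]
    linarith
  unfold Good
  rw [sgA]
  unfold C1A C2A
  set s := Real.sqrt 5 with hsdef
  set N := 1 + 169 / 200 * d ^ 2 with hNdef
  set σ := 2 + 13 / 5 * ((3 - s) / 4) * d ^ 2 with hσ
  set C := (3 - s) / 4 with hC
  have hNM : 0 < N * M := mul_pos hN hM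
  have key : ∀ c e : ℝ, 0 < e → 0 ≤ c → σ * (c * e) ≤ 838 / 1000 * (N * M) →
      σ / (N * Nh) * (c * e ^ 2) ≤ e * M ∧
      c * e ^ 2 * ((29 / 10 * s - 57 / 10) * (N * M) ^ 2 + (23 / 10 * s - 43 / 10) * (σ * (c * e)) * (N * M)
        - 13 / 10 * (σ * (c * e)) ^ 2)
      ≤ Nh * (N * M) ^ 2 * (c * e ^ 2 * Real.sqrt (1 - (σ / (N * Nh) * (c * e ^ 2) / (e * M)) ^ 2)) := by
    intro c e he hc hz
    have hce : 0 ≤ σ * (c * e) := by positivity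
    constructor
    · rw [div_mul_eq_mul_div, div_le_iff₀ (by positivity)]
      have h3 : σ * (c * e) ≤ N * M := hz.trans (by linarith)
      have h4 : N * M ≤ N * M * Nh := le_mul_of_one_le_right hNM.le hn1
      have h6 := mul_le_mul_of_nonneg_left (h3.trans h4) he.le
      exact le_of_eq_of_le (by ring) (h6.trans_eq (by ring))
    · set z := σ * (c * e) / (N * M) with hzdef
      have hz0 : 0 ≤ z := by positivity
      have hz1 : z ≤ 838 / 1000 := by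
        rw [hzdef, div_le_iff₀ hNM]
        exact hz
      have hq := q_le hz0 hz1
      rw [← hsdef] at hq
      have e1 : σ / (N * Nh) * (c * e ^ 2) / (e * M) = z / Nh := by
        rw [hzdef]
        field_simp
      have e2 : Nh * Real.sqrt (1 - (z / Nh) ^ 2) = Real.sqrt ((15 - 3 * s) / 8 - z ^ 2) := by
        rw [← hn2]
        have : Nh ^ 2 - z ^ 2 = Nh ^ 2 * (1 - (z / Nh) ^ 2) := by field_simp
        rw [this, Real.sqrt_mul (by positivity), Real.sqrt_sq hn.le]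
      have e3 : σ * (c * e) = z * (N * M) := by
        rw [hzdef]
        field_simp
      rw [e1, e3]
      have h7 : 0 ≤ (N * M) ^ 2 * (c * e ^ 2) := by positivity
      have h8 := mul_le_mul_of_nonneg_left hq h7
      rw [← e2] at h8
      exact le_of_eq_of_le (by ring) (h8.trans_eq (by ring))
  obtain ⟨k1, k2⟩ := key f (1 + d) ha hf hz1
  obtain ⟨k3, k4⟩ := key g (1 - d) hb hg hz2
  refine ⟨by positivity, by positivity, hM, k1, k3, ?_⟩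
  set E1 := f * (1 + d) ^ 2 * Real.sqrt (1 - (σ / (N * Nh) * (f * (1 + d) ^ 2) / ((1 + d) * M)) ^ 2) with hE1
  set E2 := g * (1 - d) ^ 2 * Real.sqrt (1 - (σ / (N * Nh) * (g * (1 - d) ^ 2) / ((1 - d) * M)) ^ 2) with hE2
  have hfin : (7 * s - 15) * (N * M) ^ 4 ≤ σ ^ 2 * (Nh * (N * M) ^ 2 * E1 + Nh * (N * M) ^ 2 * E2
      + N * M ^ 2 * (r1 * (C - 13 / 10 * d) + r2 * (C + 13 / 10 * d))) := by
    refine hP.trans (mul_le_mul_of_nonneg_left ?_ (by positivity))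
    linarith
  have e5 : (σ / (N * Nh)) ^ 2 * (E1 + E2 + r1 * ((C - 13 / 10 * d) / (N * Nh)) + r2 * ((C + 13 / 10 * d) / (N * Nh)))
      = σ ^ 2 * (Nh * (N * M) ^ 2 * E1 + Nh * (N * M) ^ 2 * E2
      + N * M ^ 2 * (r1 * (C - 13 / 10 * d) + r2 * (C + 13 / 10 * d))) / (Nh ^ 3 * N ^ 4 * M ^ 2) := by
    field_simp
    ring
  rw [e5, le_div_iff₀ (by positivity)]
  calc g0 * M ^ 2 * (Nh ^ 3 * N ^ 4 * M ^ 2) = (g0 * Nh ^ 3) * (N * M) ^ 4 := by ring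
    _ = (7 * s - 15) * (N * M) ^ 4 := by rw [hg0]
    _ ≤ _ := hfin

/-- The symmetry of `Good`. -/
lemma Good_swap {a b C1 S1 C2 S2 A1 A2 M r1 r2 : ℝ} (h : Good a b C1 S1 C2 S2 A1 A2 M r1 r2) :
    Good b a C2 S2 C1 S1 A2 A1 M r2 r1 := by
  obtain ⟨h1, h2, h3, h4, h5, h6⟩ := h
  unfold Good
  rw [add_comm (b * S2) (a * S1)]
  exact ⟨h2, h1, h3, h5, h4, by linarith⟩

end Pool.Agent.ICL
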